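import Mathlib

/-!
Braid groups, factorizations, Hurwitz moves and partial conjugations.
-/

namespace Pool.Agent.Helper496.BraidFact

/-- Artin's relations for the braid group on `d` strands; the generators are indexed by
`Fin (d - 1)`. -/
def braidRels (d : ℕ) : Set (FreeGroup (Fin (d - 1))) :=
  {r | ∃ i j : Fin (d - 1), (i : ℕ) + 1 = (j : ℕ) ∧
      r = (FreeGroup.of i * FreeGroup.of j * FreeGroup.of i) *
        (FreeGroup.of j * FreeGroup.of i * FreeGroup.of j)⁻¹} ∪
  {r | ∃ i j : Fin (d - 1), (i : ℕ) + 2 ≤ (j : ℕ) ∧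
      r = (FreeGroup.of i * FreeGroup.of j) * (FreeGroup.of j * FreeGroup.of i)⁻¹}

/-- The Artin braid group on `d` strands. -/
abbrev BraidGroup (d : ℕ) : Type := PresentedGroup (braidRels d)

/-- The standard generators (half-twists) of the braid group. -/
def sig {d : ℕ} (i : Fin (d - 1)) : BraidGroup d := PresentedGroup.of i

/-- One elementary operation on a factorization (a tuple of group elements, written as a list):
a Hurwitz move, or a partial conjugation by an element `b` of the subgroup `H` which commutes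
with the product of the block `m` of consecutive factors on which it acts. -/
inductive Move {B : Type*} [Group B] (H : Subgroup B) : List B → List B → Prop
  | hurwitz (l r : List B) (x y : B) :
      Move H (l ++ x :: y :: r) (l ++ (x * y * x⁻¹) :: x :: r)
  | partialConj (l m r : List B) (b : B) (hm : 2 ≤ m.length) (hb : b ∈ H)
      (hc : b * m.prod = m.prod * b) :
      Move H (l ++ m ++ r) (l ++ m.map (fun x => b⁻¹ * x * b) ++ r)

/-- `F` can be turned into `F'` by finitely many Hurwitz moves, inverse Hurwitz moves and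
partial conjugations by elements of `H`. -/
def Reachable {B : Type*} [Group B] (H : Subgroup B) (F F' : List B) : Prop :=
  Relation.EqvGen (Move H) F F'

/-- Two factorizations have the same numbers of factors of each type, where types are
conjugacy classes under conjugation by elements of `K`. -/
def SameTypes {B : Type*} [Group B] (K : Subgroup B) (F F' : List B) : Prop :=
  ∃ L : List B, F.Perm L ∧ List.Forall₂ (fun x y => ∃ c ∈ K, y = c * x * c⁻¹) L F'

/-- Any two factorizations in the subgroup `H` of the same element, with the same numbers of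
factors of each type (conjugacy classes under `K`), are related by finitely many Hurwitz moves
and partial conjugations by elements of `H`. -/
def AllConnected {B : Type*} [Group B] (H K : Subgroup B) : Prop :=
  ∀ F F' : List B, (∀ x ∈ F, x ∈ H) → (∀ x ∈ F', x ∈ H) → F.prod = F'.prod →
    SameTypes K F F' → Reachable H F F'

/-! ### Basic facts -/

theorem sig_braid {d : ℕ} (i j : Fin (d - 1)) (h : (i : ℕ) + 1 = (j : ℕ)) :
    sig i * sig j * sig i = sig j * sig i * sig j := by
  have : (PresentedGroup.mk (braidRels d)) ((FreeGroup.of i * FreeGroup.of j * FreeGroup.of i) *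
        (FreeGroup.of j * FreeGroup.of i * FreeGroup.of j)⁻¹) = 1 :=
    PresentedGroup.one_of_mem (Or.inl ⟨i, j, h, rfl⟩)
  rw [map_mul, map_inv, mul_inv_eq_one] at this
  simp only [map_mul] at this
  exact this

theorem sig_comm {d : ℕ} (i j : Fin (d - 1)) (h : (i : ℕ) + 2 ≤ (j : ℕ)) :
    sig i * sig j = sig j * sig i := by
  have : (PresentedGroup.mk (braidRels d)) ((FreeGroup.of i * FreeGroup.of j) *
        (FreeGroup.of j * FreeGroup.of i)⁻¹) = 1 :=
    PresentedGroup.one_of_mem (Or.inr ⟨i, j, h, rfl⟩)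
  rw [map_mul, map_inv, mul_inv_eq_one] at this
  simp only [map_mul] at this
  exact this

/-- A homomorphism out of the braid group. -/
def liftB {d : ℕ} {G : Type*} [Group G] (f : Fin (d - 1) → G)
    (h1 : ∀ i j : Fin (d - 1), (i : ℕ) + 1 = (j : ℕ) → f i * f j * f i = f j * f i * f j)
    (h2 : ∀ i j : Fin (d - 1), (i : ℕ) + 2 ≤ (j : ℕ) → f i * f j = f j * f i) :
    BraidGroup d →* G :=
  PresentedGroup.toGroup (f := f) (by
    rintro r (⟨i, j, h, rfl⟩ | ⟨i, j, h, rfl⟩)
    · simp only [map_mul, map_inv, FreeGroup.lift_apply_of]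
      rw [mul_inv_eq_one]
      exact h1 i j h
    · simp only [map_mul, map_inv, FreeGroup.lift_apply_of]
      rw [mul_inv_eq_one]
      exact h2 i j h)

@[simp] theorem liftB_sig {d : ℕ} {G : Type*} [Group G] (f : Fin (d - 1) → G)
    (h1 : ∀ i j : Fin (d - 1), (i : ℕ) + 1 = (j : ℕ) → f i * f j * f i = f j * f i * f j)
    (h2 : ∀ i j : Fin (d - 1), (i : ℕ) + 2 ≤ (j : ℕ) → f i * f j = f j * f i)
    (i : Fin (d - 1)) : liftB f h1 h2 (sig i) = f i := by
  simp [liftB, sig]

/-! ### The integral representation by transvections -/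

/-- Integer sequences. -/
abbrev V : Type := ℕ → ℤ

/-- The transvection `x ↦ x + (x (i+2) - x i) e_{i+1}` of the group of integer sequences. -/
def tv (i : ℕ) : V ≃ₗ[ℤ] V where
  toFun x := fun j => if j = i + 1 then x (i + 1) + x (i + 2) - x i else x j
  invFun x := fun j => if j = i + 1 then x (i + 1) - x (i + 2) + x i else x j
  left_inv x := by
    funext j
    by_cases h : j = i + 1
    · subst h; simp; ring
    · simp [h]
  right_inv x := by
    funext j
    by_cases h : j = i + 1
    · subst h; simp; ring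
    · simp [h]
  map_add' x y := by
    funext j
    by_cases h : j = i + 1
    · subst h; simp; ring
    · simp [h]
  map_smul' c x := by
    funext j
    by_cases h : j = i + 1
    · subst h; simp; ring
    · simp [h]

theorem tv_apply (i : ℕ) (x : V) (j : ℕ) :
    tv i x j = if j = i + 1 then x (i + 1) + x (i + 2) - x i else x j := rfl

theorem tv_braid (i : ℕ) : tv i * tv (i + 1) * tv i = tv (i + 1) * tv i * tv (i + 1) := by
  ext x j
  simp only [LinearEquiv.mul_apply, tv_apply, Nat.add_assoc, Nat.reduceAdd]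
  by_cases h1 : j = i + 1
  · subst h1
    simp
  · by_cases h2 : j = i + 2
    · subst h2
      simp
      ring
    · simp [h1, h2]

theorem tv_comm (i j : ℕ) (h : i + 2 ≤ j) : tv i * tv j = tv j * tv i := by
  ext x k
  simp only [LinearEquiv.mul_apply, tv_apply]
  have b1 : ¬ (i = j + 1) := by omega
  have b2 : ¬ (i + 1 = j + 1) := by omega
  have b3 : ¬ (i + 2 = j + 1) := by omega
  have c1 : ¬ (j = i + 1) := by omega
  have c2 : ¬ (j + 1 = i + 1) := by omega
  have c3 : ¬ (j + 2 = i + 1) := by omega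
  by_cases h1 : k = i + 1
  · subst h1
    simp only [b1, b2, b3, if_false, if_true]
  · by_cases h2 : k = j + 1
    · subst h2
      simp only [c1, c2, c3, if_false, if_true]
    · simp only [h1, h2, if_false]

/-- The representation of the braid group by transvections. -/
def rep (d : ℕ) : BraidGroup d →* (V ≃ₗ[ℤ] V) :=
  liftB (fun i => tv (i : ℕ))
    (fun i j h => by
      have := tv_braid (i : ℕ)
      rw [← h]; exact this)
    (fun i j h => tv_comm _ _ h)

@[simp] theorem rep_sig {d : ℕ} (i : Fin (d - 1)) : rep d (sig i) = tv (i : ℕ) := by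
  simp [rep]

theorem tv_pow (i n : ℕ) (x : V) (j : ℕ) :
    (tv i ^ n) x j = if j = i + 1 then x (i + 1) + n * (x (i + 2) - x i) else x j := by
  induction n generalizing x with
  | zero => simp; intro h; rw [h]
  | succ n ih =>
    rw [pow_succ, LinearEquiv.mul_apply, ih]
    by_cases h : j = i + 1
    · subst h
      simp [tv_apply]
      ring
    · simp [h, tv_apply]

/-! ### Two factors -/

/-- The two shapes that a factorization reachable from `[a, b]` can have. -/
def PairForm {B : Type*} [Group B] (a b : B) (F : List B) : Prop :=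
  (∃ x : B, F = [x * a * x⁻¹, x * b * x⁻¹]) ∨
  (∃ x : B, F = [x * b * x⁻¹, x * (b⁻¹ * a * b) * x⁻¹])

theorem split_two {B : Type*} {l r : List B} {x y p q : B}
    (h : l ++ x :: y :: r = [p, q]) : l = [] ∧ r = [] ∧ x = p ∧ y = q := by
  have hl := congrArg List.length h
  simp at hl
  have h1 : l.length = 0 := by omega
  have h2 : r.length = 0 := by omega
  rw [List.length_eq_zero_iff] at h1 h2
  subst h1 h2
  simp at h
  exact ⟨rfl, rfl, h.1, h.2⟩

theorem split_block {B : Type*} {l m r : List B} {p q : B} (hm : 2 ≤ m.length)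
    (h : l ++ m ++ r = [p, q]) : l = [] ∧ r = [] ∧ m = [p, q] := by
  have hl := congrArg List.length h
  simp at hl
  have h1 : l.length = 0 := by omega
  have h2 : r.length = 0 := by omega
  rw [List.length_eq_zero_iff] at h1 h2
  subst h1 h2
  simp at h
  exact ⟨rfl, rfl, h⟩

theorem PairForm.of_move {B : Type*} [Group B] {H : Subgroup B} {a b : B} {F F' : List B}
    (h : Move H F F') (hF : PairForm a b F) : PairForm a b F' := by
  cases h with
  | hurwitz l r x y =>
    rcases hF with ⟨z, hz⟩ | ⟨z, hz⟩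
    · obtain ⟨rfl, rfl, rfl, rfl⟩ := split_two hz
      right
      refine ⟨z * a * b, ?_⟩
      simp only [List.nil_append, List.cons.injEq, and_true]
      constructor <;> group
    · obtain ⟨rfl, rfl, rfl, rfl⟩ := split_two hz
      left
      refine ⟨z, ?_⟩
      simp only [List.nil_append, List.cons.injEq, and_true]
      group
  | partialConj l m r c hm hb hc =>
    rcases hF with ⟨z, hz⟩ | ⟨z, hz⟩
    · obtain ⟨rfl, rfl, rfl⟩ := split_block hm hz
      left
      refine ⟨c⁻¹ * z, ?_⟩
      simp only [List.nil_append, List.append_nil, List.map_cons, List.map_nil, List.cons.injEq,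
        and_true]
      constructor <;> group
    · obtain ⟨rfl, rfl, rfl⟩ := split_block hm hz
      right
      refine ⟨c⁻¹ * z, ?_⟩
      simp only [List.nil_append, List.append_nil, List.map_cons, List.map_nil, List.cons.injEq,
        and_true]
      constructor <;> group

theorem PairForm.of_move_symm {B : Type*} [Group B] {H : Subgroup B} {a b : B} {F F' : List B}
    (h : Move H F F') (hF : PairForm a b F') : PairForm a b F := by
  cases h with
  | hurwitz l r x y =>
    rcases hF with ⟨z, hz⟩ | ⟨z, hz⟩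
    · obtain ⟨rfl, rfl, h1, rfl⟩ := split_two hz
      right
      refine ⟨z, ?_⟩
      have hy : y = (z * b * z⁻¹)⁻¹ * (z * a * z⁻¹) * (z * b * z⁻¹) := by
        rw [← h1]; group
      rw [hy]
      simp only [List.nil_append, List.cons.injEq, and_true]
      constructor <;> group
    · obtain ⟨rfl, rfl, h1, h2⟩ := split_two hz
      left
      refine ⟨z * b⁻¹ * a⁻¹, ?_⟩
      have hy : y = x⁻¹ * (z * b * z⁻¹) * x := by
        rw [← h1]; group
      rw [hy, h2]
      simp only [List.nil_append, List.cons.injEq, and_true]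
      constructor <;> group
  | partialConj l m r c hm hb hc =>
    have hm' : 2 ≤ (m.map (fun x => c⁻¹ * x * c)).length := by simpa using hm
    have key : ∀ p q : B, m.map (fun x => c⁻¹ * x * c) = [p, q] →
        m = [c * p * c⁻¹, c * q * c⁻¹] := by
      intro p q hpq
      have : (m.map (fun x => c⁻¹ * x * c)).map (fun x => c * x * c⁻¹) = m := by
        rw [List.map_map]
        conv_rhs => rw [← List.map_id m]
        congr 1
        funext x
        simp only [Function.comp_apply, id_eq]
        group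
      rw [← this, hpq]
      simp
    rcases hF with ⟨z, hz⟩ | ⟨z, hz⟩
    · obtain ⟨rfl, rfl, h1⟩ := split_block hm' hz
      rw [key _ _ h1]
      left
      refine ⟨c * z, ?_⟩
      simp only [List.nil_append, List.append_nil, List.cons.injEq, and_true]
      constructor <;> group
    · obtain ⟨rfl, rfl, h1⟩ := split_block hm' hz
      rw [key _ _ h1]
      right
      refine ⟨c * z, ?_⟩
      simp only [List.nil_append, List.append_nil, List.cons.injEq, and_true]
      constructor <;> group

theorem PairForm.iff_of_reachable {B : Type*} [Group B] {H : Subgroup B} {a b : B}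
    {F F' : List B} (h : Reachable H F F') : PairForm a b F ↔ PairForm a b F' := by
  induction h with
  | rel x y h => exact ⟨PairForm.of_move h, PairForm.of_move_symm h⟩
  | refl x => exact Iff.rfl
  | symm x y _ ih => exact ih.symm
  | trans x y z _ _ ih1 ih2 => exact ih1.trans ih2

theorem pairForm_self {B : Type*} [Group B] (a b : B) : PairForm a b [a, b] :=
  Or.inl ⟨1, by simp⟩

/-- If `[a, b]` and `[a', b']` are related by Hurwitz moves and partial conjugations, then they
are simultaneously conjugate up to one swap. -/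
theorem two_factors {B : Type*} [Group B] {H : Subgroup B} {a b a' b' : B}
    (h : Reachable H [a, b] [a', b']) :
    (∃ x : B, a' = x * a * x⁻¹ ∧ b' = x * b * x⁻¹) ∨
    (∃ x : B, a' = x * b * x⁻¹ ∧ b' = x * (b⁻¹ * a * b) * x⁻¹) := by
  rcases (PairForm.iff_of_reachable h).1 (pairForm_self a b) with ⟨x, hx⟩ | ⟨x, hx⟩
  · left
    refine ⟨x, ?_⟩
    simpa using hx
  · right
    refine ⟨x, ?_⟩
    simpa using hx

/-! ### Commutative groups -/

theorem Reachable.cons {B : Type*} [Group B] {H : Subgroup B} (a : B) {F F' : List B}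
    (h : Reachable H F F') : Reachable H (a :: F) (a :: F') := by
  induction h with
  | rel x y h =>
    apply Relation.EqvGen.rel
    cases h with
    | hurwitz l r x y => exact Move.hurwitz (a :: l) r x y
    | partialConj l m r c hm hb hc => exact Move.partialConj (a :: l) m r c hm hb hc
  | refl x => exact Relation.EqvGen.refl _
  | symm x y _ ih => exact Relation.EqvGen.symm _ _ ih
  | trans x y z _ _ ih1 ih2 => exact Relation.EqvGen.trans _ _ _ ih1 ih2

theorem reachable_of_perm {B : Type*} [Group B] (hB : ∀ x y : B, x * y = y * x)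
    {H : Subgroup B} {F F' : List B} (h : F.Perm F') : Reachable H F F' := by
  induction h with
  | nil => exact Relation.EqvGen.refl _
  | cons x _ ih => exact ih.cons x
  | swap x y l =>
    apply Relation.EqvGen.rel
    have := Move.hurwitz (H := H) [] l y x
    have e : y * x * y⁻¹ = x := by rw [hB y x]; group
    rw [e] at this
    exact this
  | trans _ _ ih1 ih2 => exact Relation.EqvGen.trans _ _ _ ih1 ih2

theorem allConnected_of_comm {B : Type*} [Group B] (hB : ∀ x y : B, x * y = y * x)
    (H K : Subgroup B) : AllConnected H K := by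
  rintro F F' - - - ⟨L, hL, hLF⟩
  apply reachable_of_perm hB
  have : L = F' := by
    have : List.Forall₂ (fun x y : B => x = y) L F' := by
      refine hLF.imp ?_
      rintro x y ⟨c, -, rfl⟩
      rw [hB c x]; group
    simpa using this
  rw [← this]
  exact hL

theorem comm_of_le_two {d : ℕ} (hd : d ≤ 2) (x y : BraidGroup d) : x * y = y * x := by
  have hgen : Subgroup.closure (Set.range (PresentedGroup.of (rels := braidRels d))) = ⊤ :=
    PresentedGroup.closure_range_of _
  have hx : x ∈ Subgroup.closure (Set.range (PresentedGroup.of (rels := braidRels d))) := by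
    rw [hgen]; trivial
  have hy : y ∈ Subgroup.closure (Set.range (PresentedGroup.of (rels := braidRels d))) := by
    rw [hgen]; trivial
  have hsub : ∀ i j : Fin (d - 1), i = j := by
    intro i j
    apply Fin.ext
    omega
  have hc : ∀ s ∈ Set.range (PresentedGroup.of (rels := braidRels d)),
      ∀ z ∈ Subgroup.closure (Set.range (PresentedGroup.of (rels := braidRels d))),
        Commute s z := by
    rintro s ⟨i, rfl⟩ z hz
    induction hz using Subgroup.closure_induction with
    | mem z hz =>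
      obtain ⟨j, rfl⟩ := hz
      rw [hsub i j]
    | one => exact Commute.one_right _
    | mul a b _ _ ha hb => exact ha.mul_right hb
    | inv a _ ha => exact ha.inv_right
  have : Commute x y := by
    induction hx using Subgroup.closure_induction with
    | mem s hs => exact hc s hs y hy
    | one => exact Commute.one_left _
    | mul a b _ _ ha hb => exact ha.mul_left hb
    | inv a _ ha => exact ha.inv_left
  exact this

/-! ### The sixth power example -/

/-- The basis vector `e_n`. -/
def ee (n : ℕ) : V := fun j => if j = n then 1 else 0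

theorem commute_tv_pow {n : ℕ} (hn : n ≠ 0) (y : V ≃ₗ[ℤ] V)
    (h : y * tv 0 ^ n = tv 0 ^ n * y) : ∃ c : ℤ, y (ee 1) = c • ee 1 := by
  refine ⟨(y (ee 2)) 2 - (y (ee 2)) 0, ?_⟩
  have h1 : (tv 0 ^ n) (ee 2) = ee 2 + (n : ℤ) • ee 1 := by
    funext j
    rw [tv_pow]
    by_cases hj : j = 1
    · subst hj; simp [ee]
    · simp [hj, ee]
  have h2 := LinearEquiv.congr_fun h (ee 2)
  rw [LinearEquiv.mul_apply, LinearEquiv.mul_apply, h1, map_add, map_smul] at h2
  funext j
  have h3 := congrFun h2 j
  rw [tv_pow] at h3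
  by_cases hj : j = 1
  · subst hj
    simp [ee] at h3 ⊢
    rcases h3 with h3 | h3
    · exact h3
    · exact absurd h3 hn
  · simp [hj, ee] at h3 ⊢
    rcases h3 with h3 | h3
    · exact absurd h3 hn
    · exact h3

theorem sq_one_of_commute {n : ℕ} (hn : n ≠ 0) (y : V ≃ₗ[ℤ] V)
    (h : y * tv 0 ^ n = tv 0 ^ n * y) :
    ∃ c : ℤ, y (ee 1) = c • ee 1 ∧ (c = 1 ∨ c = -1) := by
  obtain ⟨c, hc⟩ := commute_tv_pow hn y h
  have h' : y⁻¹ * tv 0 ^ n = tv 0 ^ n * y⁻¹ := by
    have : y⁻¹ * (y * tv 0 ^ n) * y⁻¹ = y⁻¹ * (tv 0 ^ n * y) * y⁻¹ := by rw [h]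
    rw [show y⁻¹ * (y * tv 0 ^ n) * y⁻¹ = tv 0 ^ n * y⁻¹ by group,
      show y⁻¹ * (tv 0 ^ n * y) * y⁻¹ = y⁻¹ * tv 0 ^ n by group] at this
    exact this.symm
  obtain ⟨c', hc'⟩ := commute_tv_pow hn y⁻¹ h'
  refine ⟨c, hc, ?_⟩
  have h1 : (y⁻¹ * y) (ee 1) = (c * c') • ee 1 := by
    rw [LinearEquiv.mul_apply, hc, map_smul, hc', smul_smul]
  rw [inv_mul_cancel] at h1
  have h2 := congrFun h1 1
  simp [ee] at h2
  exact Int.eq_one_or_neg_one_of_mul_eq_one h2.symm

/-- The vector `p e_1 + q e_2`. -/
def vec (p q : ℤ) : V := fun j => if j = 1 then p else if j = 2 then q else 0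

theorem tv0_pow_vec (n : ℕ) (p q : ℤ) : (tv 0 ^ n) (vec p q) = vec (p + n * q) q := by
  funext j
  rw [tv_pow]
  by_cases h1 : j = 1
  · subst h1; simp [vec]
  · by_cases h2 : j = 2
    · subst h2; simp [vec]
    · simp [vec, h1, h2]

theorem tv1_pow_vec (n : ℕ) (p q : ℤ) : (tv 1 ^ n) (vec p q) = vec p (q - n * p) := by
  funext j
  rw [tv_pow]
  by_cases h1 : j = 1
  · subst h1; simp [vec]
  · by_cases h2 : j = 2
    · subst h2; simp [vec]; ring
    · simp [vec, h1, h2]

theorem ee_one : ee 1 = vec 1 0 := by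
  funext j
  by_cases h1 : j = 1
  · subst h1; simp [vec, ee]
  · simp [vec, ee, h1]

/-- The degree (exponent sum) homomorphism. -/
def deg (d : ℕ) : BraidGroup d →* Multiplicative ℤ :=
  liftB (fun _ => Multiplicative.ofAdd 1) (fun _ _ _ => rfl) (fun _ _ _ => rfl)

@[simp] theorem deg_sig {d : ℕ} (i : Fin (d - 1)) :
    deg d (sig i) = Multiplicative.ofAdd 1 := by
  simp [deg]

theorem vec_eq (p q : ℤ) : vec p q = p • ee 1 + q • ee 2 := by
  funext j
  by_cases h1 : j = 1
  · subst h1; simp [vec, ee]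
  · by_cases h2 : j = 2
    · subst h2; simp [vec, ee]
    · simp [vec, ee, h1, h2]

theorem app_comm {y w1 w2 : V ≃ₗ[ℤ] V} (h : y * w1 = w2 * y) (v : V) :
    y (w1 v) = w2 (y v) := LinearEquiv.congr_fun h v

theorem w1_ee : (tv 0 ^ 6 * tv 1 ^ 6 * tv 1 ^ 6 * tv 0 ^ 6 * tv 1 ^ 6) (ee 1) =
    (2449 : ℤ) • ee 1 + (414 : ℤ) • ee 2 := by
  rw [← vec_eq, ee_one]
  simp only [LinearEquiv.mul_apply, tv0_pow_vec, tv1_pow_vec]
  norm_num

theorem w2_ee : (tv 0 ^ 6 * tv 1 ^ 6 * tv 0 ^ 6 * tv 1 ^ 6 * tv 1 ^ 6) (ee 1) =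
    (2413 : ℤ) • ee 1 + (414 : ℤ) • ee 2 := by
  rw [← vec_eq, ee_one]
  simp only [LinearEquiv.mul_apply, tv0_pow_vec, tv1_pow_vec]
  norm_num

section Example

variable {d : ℕ} (hd : 3 ≤ d)

/-- The first generator. -/
def s1 : BraidGroup d := sig ⟨0, by omega⟩

/-- The second generator. -/
def s2 : BraidGroup d := sig ⟨1, by omega⟩

theorem not_reachable_six (H : Subgroup (BraidGroup d)) :
    ¬ Reachable H
      [(s1 hd ^ 6)⁻¹, s1 hd ^ 6 * s2 hd ^ 6 * s2 hd ^ 6 * s1 hd ^ 6 * s2 hd ^ 6]
      [s2 hd ^ 6 * (s1 hd ^ 6)⁻¹ * (s2 hd ^ 6)⁻¹,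
        s2 hd ^ 6 * s1 hd ^ 6 * s2 hd ^ 6 * s1 hd ^ 6 * s2 hd ^ 6] := by
  intro h
  rcases two_factors h with ⟨x, hx1, hx2⟩ | ⟨x, hx1, -⟩
  · set ρ := rep d with hρ
    set y := ρ ((s2 hd ^ 6)⁻¹ * x) with hy
    have e1 : ρ (s1 hd) = tv 0 := by simp [hρ, s1]
    have e2 : ρ (s2 hd) = tv 1 := by simp [hρ, s2]
    have c1 : y * tv 0 ^ 6 = tv 0 ^ 6 * y := by
      rw [hy, ← e1, ← map_pow, ← map_mul, ← map_mul]
      congr 1
      have : x * s1 hd ^ 6 * x⁻¹ = s2 hd ^ 6 * s1 hd ^ 6 * (s2 hd ^ 6)⁻¹ := by
        rw [← inv_inj]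
        calc (x * s1 hd ^ 6 * x⁻¹)⁻¹ = x * (s1 hd ^ 6)⁻¹ * x⁻¹ := by group
          _ = _ := by rw [← hx1]; group
      calc (s2 hd ^ 6)⁻¹ * x * s1 hd ^ 6 = (s2 hd ^ 6)⁻¹ * (x * s1 hd ^ 6 * x⁻¹) * x := by group
        _ = _ := by rw [this]; group
    have c2 : y * (tv 0 ^ 6 * tv 1 ^ 6 * tv 1 ^ 6 * tv 0 ^ 6 * tv 1 ^ 6) =
        (tv 0 ^ 6 * tv 1 ^ 6 * tv 0 ^ 6 * tv 1 ^ 6 * tv 1 ^ 6) * y := by
      rw [hy, ← e1, ← e2]
      simp only [← map_pow, ← map_mul]
      congr 1
      calc (s2 hd ^ 6)⁻¹ * x * (s1 hd ^ 6 * s2 hd ^ 6 * s2 hd ^ 6 * s1 hd ^ 6 * s2 hd ^ 6)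
          = (s2 hd ^ 6)⁻¹ *
            (x * (s1 hd ^ 6 * s2 hd ^ 6 * s2 hd ^ 6 * s1 hd ^ 6 * s2 hd ^ 6) * x⁻¹) * x := by
              group
        _ = _ := by rw [← hx2]; group
    obtain ⟨c, hc, hc1⟩ := sq_one_of_commute (by norm_num) y c1
    have h3 := app_comm c2 (ee 1)
    rw [w1_ee, hc, map_smul, w2_ee, map_add, map_smul, map_smul, hc] at h3
    have h5 := congrFun h3 1
    simp [ee] at h5
    omega
  · have h1 := congrArg (deg d) hx1
    simp only [map_mul, map_inv, map_pow, s1, s2, deg_sig] at h1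
    have h2 := congrArg Multiplicative.toAdd h1
    simp at h2

theorem not_allConnected (H K : Subgroup (BraidGroup d))
    (h1 : s1 hd ^ 6 ∈ H) (h2 : s2 hd ^ 6 ∈ H) (k1 : s1 hd ^ 6 ∈ K) (k2 : s2 hd ^ 6 ∈ K) :
    ¬ AllConnected H K := by
  intro h
  refine not_reachable_six hd H (h _ _ ?_ ?_ ?_ ?_)
  · intro x hx
    simp only [List.mem_cons, List.not_mem_nil, or_false] at hx
    rcases hx with rfl | rfl
    · exact H.inv_mem h1
    · exact H.mul_mem (H.mul_mem (H.mul_mem (H.mul_mem h1 h2) h2) h1) h2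
  · intro x hx
    simp only [List.mem_cons, List.not_mem_nil, or_false] at hx
    rcases hx with rfl | rfl
    · exact H.mul_mem (H.mul_mem h2 (H.inv_mem h1)) (H.inv_mem h2)
    · exact H.mul_mem (H.mul_mem (H.mul_mem (H.mul_mem h2 h1) h2) h1) h2
  · generalize s1 hd ^ 6 = U
    generalize s2 hd ^ 6 = h
    simp only [List.prod_cons, List.prod_nil]
    group
  · refine ⟨_, List.Perm.refl _, ?_⟩
    refine List.Forall₂.cons ⟨s2 hd ^ 6, k2, rfl⟩ (List.Forall₂.cons
      ⟨s2 hd ^ 6 * s1 hd ^ 6 * s2 hd ^ 6, K.mul_mem (K.mul_mem k2 k1) k2, ?_⟩ List.Forall₂.nil)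
    generalize s1 hd ^ 6 = U
    generalize s2 hd ^ 6 = h
    group

end Example

end Pool.Agent.Helper496.BraidFact
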