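import Pool.Agent.Helper496.BraidFact

/-!
Pairs of half-twists.
-/

namespace Pool.Agent.Helper496.BraidFact

/-- The alternating pairing of `vec p q` with `z`. -/
def om (p q : ℤ) (z : V) : ℤ := p * (z 2 - z 0) + q * (z 3 - z 1)

/-- `f` is the transvection with vector `vec p q`. -/
def IsTv (p q : ℤ) (f : V ≃ₗ[ℤ] V) : Prop := ∀ z, f z = z + om p q z • vec p q

theorem om_add (p q : ℤ) (y z : V) : om p q (y + z) = om p q y + om p q z := by
  simp [om]; ring

theorem om_smul (p q c : ℤ) (z : V) : om p q (c • z) = c * om p q z := by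
  simp [om]; ring

theorem om_vec (p q r s : ℤ) : om p q (vec r s) = p * s - q * r := by
  simp [om, vec]; ring

theorem conj_isTv {p q p' q' : ℤ} {f g x : V ≃ₗ[ℤ] V} (hf : IsTv p q f) (hg : IsTv p' q' g)
    (h : x * f = g * x) (z : V) : om p q z • x (vec p q) = om p' q' (x z) • vec p' q' := by
  have h1 := app_comm h z
  rw [hf, hg, map_add, map_smul] at h1
  exact add_left_cancel h1

/-- A simultaneous conjugation of transvections preserves the vectors up to sign. -/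
theorem conj_vec {p q p' q' r s r' s' : ℤ} {f g x : V ≃ₗ[ℤ] V} (hf : IsTv p q f)
    (hg : IsTv p' q' g) (h : x * f = g * x) (h1 : p * s - q * r = 1)
    (h1' : p' * s' - q' * r' = 1) :
    ∃ c : ℤ, (c = 1 ∨ c = -1) ∧ x (vec p q) = c • vec p' q' ∧
      ∀ z, om p' q' (x z) = c * om p q z := by
  have h' : x⁻¹ * g = f * x⁻¹ := by
    calc x⁻¹ * g = x⁻¹ * (g * x) * x⁻¹ := by group
      _ = _ := by rw [← h]; group
  have e1 := conj_isTv hf hg h (vec r s)
  rw [om_vec, h1, one_smul] at e1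
  have e2 := conj_isTv hg hf h' (vec r' s')
  rw [om_vec, h1', one_smul] at e2
  set c := om p' q' (x (vec r s)) with hc
  set c' := om p q (x⁻¹ (vec r' s')) with hc'
  have e3 : (c * c') • vec p q = vec p q := by
    have : (x⁻¹ * x) (vec p q) = (c * c') • vec p q := by
      rw [LinearEquiv.mul_apply, e1, map_smul, e2, smul_smul]
    rw [inv_mul_cancel] at this
    exact this.symm
  have e4 : c * c' = 1 := by
    have a1 : c * c' * p = p := by simpa [vec] using congrFun e3 1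
    have a2 : c * c' * q = q := by simpa [vec] using congrFun e3 2
    linear_combination (-(c * c')) * h1 + s * a1 - r * a2 + h1
  have hc1 : c = 1 ∨ c = -1 := Int.eq_one_or_neg_one_of_mul_eq_one e4
  refine ⟨c, hc1, e1, fun z => ?_⟩
  have e5 := conj_isTv hf hg h z
  rw [e1, smul_smul] at e5
  have a1 : om p q z * c * p' = om p' q' (x z) * p' := by
    simpa only [vec, Pi.smul_apply, smul_eq_mul, if_true] using congrFun e5 1
  have a2 : om p q z * c * q' = om p' q' (x z) * q' := by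
    simpa [vec] using congrFun e5 2
  linear_combination (-(om p' q' (x z))) * h1' + (om p q z * c) * h1' - s' * a1 + r' * a2

theorem isTv_tv0 : IsTv 1 0 (tv 0) := by
  intro z
  funext j
  rw [tv_apply]
  by_cases h1 : j = 1
  · subst h1; simp [vec, om]; ring
  · simp [vec, h1]

theorem isTv_tv1 : IsTv 0 1 (tv 1) := by
  intro z
  funext j
  rw [tv_apply]
  by_cases h1 : j = 2
  · subst h1; simp [vec, om]; ring
  · simp [vec, h1]

theorem isTv_conj {p q p' q' : ℤ} {f g : V ≃ₗ[ℤ] V} (hf : IsTv p q f)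
    (h1 : g (vec p q) = vec p' q') (h2 : ∀ z, om p' q' (g z) = om p q z) :
    IsTv p' q' (g * f * g⁻¹) := by
  intro z
  have h3 : g (g⁻¹ z) = z := by
    rw [← LinearEquiv.mul_apply, mul_inv_cancel]; rfl
  rw [LinearEquiv.mul_apply, LinearEquiv.mul_apply, hf, map_add, map_smul, h1, ← h2, h3]

theorem om_tv0 (n : ℕ) (p q : ℤ) (z : V) :
    om (p + n * q) q ((tv 0 ^ n) z) = om p q z := by
  simp only [om, tv_pow]
  norm_num
  ring

theorem om_tv1 (n : ℕ) (p q : ℤ) (z : V) :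
    om p (q - n * p) ((tv 1 ^ n) z) = om p q z := by
  simp only [om, tv_pow]
  norm_num
  ring

theorem isTv_conj0 {p q : ℤ} {f : V ≃ₗ[ℤ] V} (n : ℕ) (hf : IsTv p q f) :
    IsTv (p + n * q) q (tv 0 ^ n * f * (tv 0 ^ n)⁻¹) :=
  isTv_conj hf (tv0_pow_vec n p q) (om_tv0 n p q)

theorem isTv_conj1 {p q : ℤ} {f : V ≃ₗ[ℤ] V} (n : ℕ) (hf : IsTv p q f) :
    IsTv p (q + n * p) ((tv 1 ^ n)⁻¹ * f * tv 1 ^ n) := by
  have := isTv_conj (g := (tv 1 ^ n)⁻¹) (p' := p) (q' := q + n * p) hf ?_ ?_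
  · rwa [inv_inv] at this
  · have h := tv1_pow_vec n p (q + n * p)
    rw [add_sub_cancel_right] at h
    rw [← h, ← LinearEquiv.mul_apply, inv_mul_cancel]; rfl
  · intro z
    have h := om_tv1 n p (q + n * p) ((tv 1 ^ n)⁻¹ z)
    rw [add_sub_cancel_right] at h
    rw [← h, ← LinearEquiv.mul_apply, mul_inv_cancel]; rfl

/-- The key identity behind the half-twist example. -/
theorem braid_identity {G : Type*} [Group G] (a b : G) (h : a * b * a = b * a * b) :
    (b ^ 2)⁻¹ * a * b ^ 2 * (a ^ 3 * b * (a ^ 3)⁻¹) =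
      (b ^ 3)⁻¹ * a * b ^ 3 * (a ^ 2 * b * (a ^ 2)⁻¹) := by
  have key : b * a * b ^ 2 * a ^ 3 * b = a * b ^ 3 * a ^ 2 * b * a := by
    calc b * a * b ^ 2 * a ^ 3 * b = (b * a * b) * b * a ^ 3 * b := by
          simp only [pow_succ, pow_zero, one_mul, mul_assoc]
      _ = (a * b * a) * b * a ^ 3 * b := by rw [h]
      _ = a * b * (a * b * a) * a ^ 2 * b := by
          simp only [pow_succ, pow_zero, one_mul, mul_assoc]
      _ = a * b * (b * a * b) * a ^ 2 * b := by rw [h]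
      _ = a * b ^ 2 * (a * b * a) * a * b := by
          simp only [pow_succ, pow_zero, one_mul, mul_assoc]
      _ = a * b ^ 2 * (b * a * b) * a * b := by rw [h]
      _ = a * b ^ 3 * a * (b * a * b) := by
          simp only [pow_succ, pow_zero, one_mul, mul_assoc]
      _ = a * b ^ 3 * a * (a * b * a) := by rw [h]
      _ = a * b ^ 3 * a ^ 2 * b * a := by
          simp only [pow_succ, pow_zero, one_mul, mul_assoc]
  calc (b ^ 2)⁻¹ * a * b ^ 2 * (a ^ 3 * b * (a ^ 3)⁻¹)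
      = (b ^ 3)⁻¹ * (b * a * b ^ 2 * a ^ 3 * b) * (a ^ 3)⁻¹ := by group
    _ = (b ^ 3)⁻¹ * (a * b ^ 3 * a ^ 2 * b * a) * (a ^ 3)⁻¹ := by rw [key]
    _ = _ := by group

theorem mul_eq_of_conj {G : Type*} [Group G] {x a b : G} (h : b = x * a * x⁻¹) :
    x * a = b * x := by rw [h]; group

section Example

variable {d : ℕ} (hd : 3 ≤ d)

/-- The half-twist `σ₂⁻² σ₁ σ₂²`. -/
def A1 : BraidGroup d := (s2 hd ^ 2)⁻¹ * s1 hd * s2 hd ^ 2

/-- The half-twist `σ₁³ σ₂ σ₁⁻³`. -/
def A2 : BraidGroup d := s1 hd ^ 3 * s2 hd * (s1 hd ^ 3)⁻¹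

/-- The half-twist `σ₂⁻³ σ₁ σ₂³`. -/
def A3 : BraidGroup d := (s2 hd ^ 3)⁻¹ * s1 hd * s2 hd ^ 3

/-- The half-twist `σ₁² σ₂ σ₁⁻²`. -/
def A4 : BraidGroup d := s1 hd ^ 2 * s2 hd * (s1 hd ^ 2)⁻¹

theorem s_braid : s1 hd * s2 hd * s1 hd = s2 hd * s1 hd * s2 hd :=
  sig_braid _ _ rfl

theorem A_prod : A1 hd * A2 hd = A3 hd * A4 hd := braid_identity _ _ (s_braid hd)

theorem rep_s1 : rep d (s1 hd) = tv 0 := by simp [s1]

theorem rep_s2 : rep d (s2 hd) = tv 1 := by simp [s2]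

theorem isTv_A1 : IsTv 1 2 (rep d (A1 hd)) := by
  have := isTv_conj1 2 isTv_tv0
  norm_num at this
  simpa only [A1, map_mul, map_inv, map_pow, rep_s1, rep_s2] using this

theorem isTv_A3 : IsTv 1 3 (rep d (A3 hd)) := by
  have := isTv_conj1 3 isTv_tv0
  norm_num at this
  simpa only [A3, map_mul, map_inv, map_pow, rep_s1, rep_s2] using this

theorem isTv_A2 : IsTv 3 1 (rep d (A2 hd)) := by
  have := isTv_conj0 3 isTv_tv1
  norm_num at this
  simpa only [A2, map_mul, map_inv, map_pow, rep_s1, rep_s2] using this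

theorem isTv_A4 : IsTv 2 1 (rep d (A4 hd)) := by
  have := isTv_conj0 2 isTv_tv1
  norm_num at this
  simpa only [A4, map_mul, map_inv, map_pow, rep_s1, rep_s2] using this

/-- No simultaneous conjugation. -/
theorem no_conj_one (x : BraidGroup d) (h1 : A3 hd = x * A1 hd * x⁻¹)
    (h2 : A4 hd = x * A2 hd * x⁻¹) : False := by
  have e1 : rep d x * rep d (A1 hd) = rep d (A3 hd) * rep d x := by
    rw [← map_mul, ← map_mul, mul_eq_of_conj h1]
  have e2 : rep d x * rep d (A2 hd) = rep d (A4 hd) * rep d x := by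
    rw [← map_mul, ← map_mul, mul_eq_of_conj h2]
  obtain ⟨c, hc, hcu, hcz⟩ := conj_vec (r := 0) (s := 1) (r' := 0) (s' := 1) (isTv_A1 hd)
    (isTv_A3 hd) e1 (by norm_num) (by norm_num)
  obtain ⟨e, he, heu, hez⟩ := conj_vec (r := -1) (s := 0) (r' := -1) (s' := 0) (isTv_A2 hd)
    (isTv_A4 hd) e2 (by norm_num) (by norm_num)
  have h3 := hcz (vec 3 1)
  rw [heu, om_smul, om_vec, om_vec] at h3
  have h4 : vec 3 1 = (3 : ℤ) • vec 1 2 + (5 : ℤ) • vec 0 (-1) := by
    funext j; by_cases h1 : j = 1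
    · subst h1; simp [vec]
    · by_cases h2 : j = 2
      · subst h2; simp [vec]
      · simp [vec, h1, h2]
  rw [h4, map_add, map_smul, map_smul, hcu] at heu
  have h5 := congrFun heu 1
  simp [vec] at h5
  omega

/-- No simultaneous conjugation after a swap. -/
theorem no_conj_two (x : BraidGroup d) (h1 : A3 hd = x * A2 hd * x⁻¹)
    (h2 : A4 hd = x * ((A2 hd)⁻¹ * A1 hd * A2 hd) * x⁻¹) : False := by
  have t5 : IsTv (-14) (-3) (rep d ((A2 hd)⁻¹ * A1 hd * A2 hd)) := by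
    have hA2 := isTv_A2 hd
    have k1 : ∀ z, (rep d (A2 hd))⁻¹ z = z - om 3 1 z • vec 3 1 := by
      intro z
      have : z = (rep d (A2 hd)) (z - om 3 1 z • vec 3 1) := by
        rw [hA2, sub_eq_add_neg, om_add, ← neg_smul, om_smul, om_vec]
        norm_num
      conv_lhs => rw [this]
      rw [← LinearEquiv.mul_apply, inv_mul_cancel]; rfl
    have := isTv_conj (g := (rep d (A2 hd))⁻¹) (p' := -14) (q' := -3) (isTv_A1 hd) ?_ ?_
    · rw [inv_inv] at this
      rwa [map_mul, map_mul, map_inv]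
    · rw [k1, om_vec]
      funext j; by_cases h1 : j = 1
      · subst h1; simp [vec]
      · by_cases h2 : j = 2
        · subst h2; simp [vec]
        · simp [vec, h1, h2]
    · intro z
      rw [k1, sub_eq_add_neg, om_add, ← neg_smul, om_smul, om_vec]
      simp only [om]; ring
  have e1 : rep d x * rep d (A2 hd) = rep d (A3 hd) * rep d x := by
    rw [← map_mul, ← map_mul, mul_eq_of_conj h1]
  have e2 : rep d x * rep d ((A2 hd)⁻¹ * A1 hd * A2 hd) = rep d (A4 hd) * rep d x := by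
    rw [← map_mul, ← map_mul, mul_eq_of_conj h2]
  obtain ⟨c, hc, hcu, hcz⟩ := conj_vec (r := -1) (s := 0) (r' := 0) (s' := 1) (isTv_A2 hd)
    (isTv_A3 hd) e1 (by norm_num) (by norm_num)
  obtain ⟨e, he, heu, hez⟩ := conj_vec (r := 5) (s := 1) (r' := -1) (s' := 0) t5
    (isTv_A4 hd) e2 (by norm_num) (by norm_num)
  have h3 := hcz (vec (-14) (-3))
  rw [heu, om_smul, om_vec, om_vec] at h3
  have h4 : vec (-14) (-3) = (2 : ℤ) • vec 3 1 + (5 : ℤ) • vec (-4) (-1) := by
    funext j; by_cases h1 : j = 1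
    · subst h1; simp [vec]
    · by_cases h2 : j = 2
      · subst h2; simp [vec]
      · simp [vec, h1, h2]
  rw [h4, map_add, map_smul, map_smul, hcu] at heu
  have h5 := congrFun heu 1
  simp [vec] at h5
  omega

theorem conj_s1_s2 : IsConj (s1 hd) (s2 hd) := by
  rw [isConj_iff]
  refine ⟨s1 hd * s2 hd, ?_⟩
  rw [s_braid hd]; group

theorem conj_A1 : IsConj (s1 hd) (A1 hd) := by
  rw [isConj_iff]
  exact ⟨(s2 hd ^ 2)⁻¹, by simp [A1]⟩

theorem conj_A2 : IsConj (s1 hd) (A2 hd) := by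
  refine (conj_s1_s2 hd).trans ?_
  rw [isConj_iff]
  exact ⟨s1 hd ^ 3, by simp [A2]⟩

theorem conj_A3 : IsConj (s1 hd) (A3 hd) := by
  rw [isConj_iff]
  exact ⟨(s2 hd ^ 3)⁻¹, by simp [A3]⟩

theorem conj_A4 : IsConj (s1 hd) (A4 hd) := by
  refine (conj_s1_s2 hd).trans ?_
  rw [isConj_iff]
  exact ⟨s1 hd ^ 2, by simp [A4]⟩

theorem not_reachable_half (H : Subgroup (BraidGroup d)) :
    ¬ Reachable H [A1 hd, A2 hd] [A3 hd, A4 hd] := by
  intro h
  rcases two_factors h with ⟨x, h1, h2⟩ | ⟨x, h1, h2⟩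
  · exact no_conj_one hd x h1 h2
  · exact no_conj_two hd x h1 h2

end Example

end Pool.Agent.Helper496.BraidFact
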