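import Mathlib

set_option autoImplicit false

/-!
# Matroid perspectives and their Tutte polynomial: definitions
-/

namespace Pool.Agent.Helper496.MP321

open Set

universe u
variable {α : Type u}

/-- `M → M'` is a matroid perspective: finite matroids on a common ground set such that every flat
of `M'` is a flat of `M`. -/
structure IsPerspective (M M' : Matroid α) : Prop where
  finite : M.E.Finite
  ground : M'.E = M.E
  flat : ∀ F : Set α, M'.IsFlat F → M.IsFlat F

/-- The rank `r_M(X)` as a natural number. -/
noncomputable def rk (M : Matroid α) (X : Set α) : ℕ := (M.eRk X).toNat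

/-- The Tutte polynomial `T(M,M';x,y,z)` of a matroid perspective, evaluated at integers:
the sum over all subsets `X` of the ground set. -/
noncomputable def tutte (M M' : Matroid α) (x y z : ℤ) : ℤ :=
  ∑ᶠ X ∈ 𝒫 M.E, (x - 1) ^ (rk M' M.E - rk M' X) * (y - 1) ^ (X.ncard - rk M X) *
    z ^ ((rk M M.E - rk M' M.E) - (rk M X - rk M' X))

theorem disjoint_restrict_delete (M : Matroid α) (A : Set α) :
    Disjoint (M.restrict A).E (M.delete A).E := by
  rw [Matroid.restrict_ground_eq, Matroid.delete_ground]
  exact disjoint_sdiff_right

/-- `A` is a factor of `M → M'`: `M = M|A ⊕ M\A` and `M' = M'|A ⊕ M'\A`. -/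
def IsFactor (M M' : Matroid α) (A : Set α) : Prop :=
  A ⊆ M.E ∧
  M = (M.restrict A).disjointSum (M.delete A) (disjoint_restrict_delete M A) ∧
  M' = (M'.restrict A).disjointSum (M'.delete A) (disjoint_restrict_delete M' A)

/-- `M → M'` is connected: the ground set is nonempty and is the only nonempty factor. -/
def IsConnected (M M' : Matroid α) : Prop :=
  M.E.Nonempty ∧ ∀ A : Set α, A.Nonempty → IsFactor M M' A → A = M.E

/-- The difference of the ranks `r(M) - r(M')`. -/
noncomputable def rkDiff (M M' : Matroid α) : ℕ := rk M M.E - rk M' M'.E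

/-- The class of perspectives generated from
* `U_{1,1} → U_{0,1}` (a coloop over a loop),
* `U_{n-1,n} → U_{0,n}` for `n ≥ 2` (a circuit over loops),
* `U_{n,n} → U_{1,n}` for `n ≥ 2` (a free matroid over a single cocircuit of parallel elements)

by parallel extension in `M` (add `f` so that `{e,f}` becomes a circuit of `M`) and series extension
in `M'` (add `f` so that `{e,f}` becomes a cocircuit of `M'`), staying among perspectives. -/
inductive SP : Matroid α → Matroid α → Prop
  | point (e : α) : SP (Matroid.freeOn {e}) (Matroid.loopyOn {e})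
  | circuit (M : Matroid α) (hfin : M.E.Finite) (hnt : M.E.Nontrivial) (h : M.IsCircuit M.E) :
      SP M (Matroid.loopyOn M.E)
  | cocircuit (M' : Matroid α) (hfin : M'.E.Finite) (hnt : M'.E.Nontrivial)
      (h : M'.IsCocircuit M'.E) : SP (Matroid.freeOn M'.E) M'
  | parallel (M M' : Matroid α) (e f : α) (hP : IsPerspective M M') (hne : e ≠ f)
      (h : M.IsCircuit {e, f}) (hs : SP (M.delete {f}) (M'.delete {f})) : SP M M'
  | series (M M' : Matroid α) (e f : α) (hP : IsPerspective M M') (hne : e ≠ f)
      (h : M'.IsCocircuit {e, f}) (hs : SP (M.contract {f}) (M'.contract {f})) : SP M M'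

end Pool.Agent.Helper496.MP321
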