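import Pool.Agent.Helper496.PerspTrans

set_option autoImplicit false

namespace Pool.Agent.Helper496.MP321

open Set

universe u
variable {α : Type u}

section rank

variable [DecidableEq α] {r q : Finset α → ℤ} {S : Finset α}

/-- converse of the parallel reduction -/
theorem conn_of_par (hr : PT.IsRk r) (hq : PT.IsRk q) (hp : PT.Persp r q) {a e : α} (haS : a ∈ S)
    (heS : e ∈ S) (hae : a ≠ e) (hra : r {a} = 1) (hre : r {e} = 1) (hpar : r {a, e} = 1)
    (hc : PT.Conn r q (S.erase e)) : PT.Conn r q S := by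
  have e0 : insert e ({a} : Finset α) = {a, e} := by
    ext x; simp only [Finset.mem_insert, Finset.mem_singleton]; tauto
  have hr1 : ∀ W : Finset α, a ∈ W → r (insert e W) = r W := by
    intro W hW
    have h1 := hr.marg (Finset.singleton_subset_iff.mpr hW) e
    rw [e0, hpar, hra] at h1
    have h2 := hr.mono (Finset.subset_insert e W)
    linarith
  have hq1 : ∀ W : Finset α, a ∈ W → q (insert e W) = q W := by
    intro W hW
    have h1 := hp W (insert e W) (Finset.subset_insert e W)
    rw [hr1 W hW] at h1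
    have h2 := hq.mono (Finset.subset_insert e W)
    linarith
  have key : ∀ A, PT.Fac r q S A → a ∈ A → A = S := by
    intro A hA haA
    have heA : e ∈ A := by
      by_contra heA
      have h1 := hr.fac_split hA.1 hA.2.1 (X := {a, e}) (by
        intro x hx
        simp only [Finset.mem_insert, Finset.mem_singleton] at hx
        rcases hx with rfl | rfl
        exacts [haS, heS])
      have h2 : ({a, e} : Finset α) ∩ A = {a} := by
        ext x; simp only [Finset.mem_inter, Finset.mem_insert, Finset.mem_singleton]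
        constructor
        · rintro ⟨rfl | rfl, hx⟩
          · rfl
          · exact absurd hx heA
        · rintro rfl; exact ⟨Or.inl rfl, haA⟩
      have h3 : ({a, e} : Finset α) \ A = {e} := by
        ext x; simp only [Finset.mem_sdiff, Finset.mem_insert, Finset.mem_singleton]
        constructor
        · rintro ⟨rfl | rfl, hx⟩
          · exact absurd haA hx
          · rfl
        · rintro rfl; exact ⟨Or.inr rfl, heA⟩
      rw [h2, h3, hpar, hra, hre] at h1
      norm_num at h1
    have haA' : a ∈ A.erase e := Finset.mem_erase.mpr ⟨hae, haA⟩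
    have haS' : a ∈ S.erase e := Finset.mem_erase.mpr ⟨hae, haS⟩
    have hsd : S.erase e \ A.erase e = S \ A := by
      ext x; simp only [Finset.mem_sdiff, Finset.mem_erase]
      constructor
      · rintro ⟨⟨h1, h2⟩, h3⟩; exact ⟨h2, fun h => h3 ⟨h1, h⟩⟩
      · rintro ⟨h1, h2⟩; exact ⟨⟨fun h => h2 (h ▸ heA), h1⟩, fun h => h2 h.2⟩
    have hfac : PT.Fac r q (S.erase e) (A.erase e) := by
      refine ⟨Finset.erase_subset_erase e hA.1, ?_, ?_⟩
      · have h1 := hA.2.1
        unfold PT.Fac1 at h1 ⊢
        have h2 := hr1 _ haA'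
        have h3 := hr1 _ haS'
        rw [Finset.insert_erase heA] at h2
        rw [Finset.insert_erase heS] at h3
        rw [hsd, ← h2, ← h3]; exact h1
      · have h1 := hA.2.2
        unfold PT.Fac1 at h1 ⊢
        have h2 := hq1 _ haA'
        have h3 := hq1 _ haS'
        rw [Finset.insert_erase heA] at h2
        rw [Finset.insert_erase heS] at h3
        rw [hsd, ← h2, ← h3]; exact h1
    rcases hc _ hfac with h | h
    · rw [h] at haA'; exact absurd haA' (Finset.notMem_empty a)
    · rw [← Finset.insert_erase heA, ← Finset.insert_erase heS, h]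
  intro A hA
  by_cases haA : a ∈ A
  · exact Or.inr (key A hA haA)
  · left
    have h1 := key (S \ A) (PT.Fac.symm hA) (Finset.mem_sdiff.mpr ⟨haS, haA⟩)
    rw [Finset.sdiff_eq_self_iff_disjoint] at h1
    rw [Finset.eq_empty_iff_forall_notMem]
    intro x hx
    exact Finset.disjoint_left.mp h1 (hA.1 hx) hx

/-- converse of the series reduction -/
theorem conn_of_ser (hr : PT.IsRk r) (hq : PT.IsRk q) {a e : α} (haS : a ∈ S)
    (heS : e ∈ S) (hae : a ≠ e) (hqa : q (S.erase a) = q S) (hqe : q (S.erase e) = q S)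
    (hser : q ((S.erase e).erase a) < q S)
    (hc : PT.Conn (PT.con r e) (PT.con q e) (S.erase e)) : PT.Conn r q S := by
  have key : ∀ A, PT.Fac r q S A → a ∈ A → A = S := by
    intro A hA haA
    have hsplit : ∀ X, X ⊆ S → q X = q (X ∩ A) + q (X \ A) :=
      fun X hX => hq.fac_split hA.1 hA.2.2 hX
    have hSq : q A + q (S \ A) = q S := hA.2.2
    have heA : e ∈ A := by
      by_contra heA
      have h1 := hsplit (S.erase e) (Finset.erase_subset e S)
      have h2 := hsplit (S.erase a) (Finset.erase_subset a S)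
      have h3 := hsplit ((S.erase e).erase a)
        ((Finset.erase_subset a _).trans (Finset.erase_subset e S))
      have v1 : S.erase e ∩ A = A := by
        ext x; simp only [Finset.mem_inter, Finset.mem_erase]
        constructor
        · rintro ⟨_, h⟩; exact h
        · intro h; exact ⟨⟨fun h' => heA (h' ▸ h), hA.1 h⟩, h⟩
      have v2 : S.erase e \ A = (S \ A).erase e := by
        ext x; simp only [Finset.mem_sdiff, Finset.mem_erase]; tauto
      have v3 : S.erase a ∩ A = A.erase a := by
        ext x; simp only [Finset.mem_inter, Finset.mem_erase]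
        constructor
        · rintro ⟨⟨h1, _⟩, h⟩; exact ⟨h1, h⟩
        · rintro ⟨h1, h⟩; exact ⟨⟨h1, hA.1 h⟩, h⟩
      have v4 : S.erase a \ A = S \ A := by
        ext x; simp only [Finset.mem_sdiff, Finset.mem_erase]
        constructor
        · rintro ⟨⟨_, h1⟩, h⟩; exact ⟨h1, h⟩
        · rintro ⟨h1, h⟩; exact ⟨⟨fun h' => h (h' ▸ haA), h1⟩, h⟩
      have v5 : (S.erase e).erase a ∩ A = A.erase a := by
        ext x; simp only [Finset.mem_inter, Finset.mem_erase]
        constructor
        · rintro ⟨⟨h1, _⟩, h⟩; exact ⟨h1, h⟩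
        · rintro ⟨h1, h⟩; exact ⟨⟨h1, fun h' => heA (h' ▸ h), hA.1 h⟩, h⟩
      have v6 : (S.erase e).erase a \ A = (S \ A).erase e := by
        ext x; simp only [Finset.mem_sdiff, Finset.mem_erase]
        constructor
        · rintro ⟨⟨_, h1, h2⟩, h⟩; exact ⟨h1, h2, h⟩
        · rintro ⟨h1, h2, h⟩; exact ⟨⟨fun h' => h (h' ▸ haA), h1, h2⟩, h⟩
      rw [v1, v2, hqe] at h1
      rw [v3, v4, hqa] at h2
      rw [v5, v6] at h3
      linarith
    have haA' : a ∈ A.erase e := Finset.mem_erase.mpr ⟨hae, haA⟩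
    have hsd : S.erase e \ A.erase e = S \ A := by
      ext x; simp only [Finset.mem_sdiff, Finset.mem_erase]
      constructor
      · rintro ⟨⟨h1, h2⟩, h3⟩; exact ⟨h2, fun h => h3 ⟨h1, h⟩⟩
      · rintro ⟨h1, h2⟩; exact ⟨⟨fun h => h2 (h ▸ heA), h1⟩, fun h => h2 h.2⟩
    have gen : ∀ f : Finset α → ℤ, PT.IsRk f → PT.Fac1 f S A →
        PT.Fac1 (PT.con f e) (S.erase e) (A.erase e) := by
      intro f hf hfA
      unfold PT.Fac1
      simp only [PT.con]
      rw [hsd, Finset.insert_erase heA, Finset.insert_erase heS]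
      have h1 := hf.fac_split hA.1 hfA (X := insert e (S \ A)) (Finset.insert_subset heS
        Finset.sdiff_subset)
      have v1 : insert e (S \ A) ∩ A = {e} := by
        ext x; simp only [Finset.mem_inter, Finset.mem_insert, Finset.mem_sdiff,
          Finset.mem_singleton]
        constructor
        · rintro ⟨rfl | h, h2⟩
          · rfl
          · exact absurd h2 h.2
        · rintro rfl; exact ⟨Or.inl rfl, heA⟩
      have v2 : insert e (S \ A) \ A = S \ A := by
        ext x; simp only [Finset.mem_insert, Finset.mem_sdiff]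
        constructor
        · rintro ⟨rfl | h, h2⟩
          · exact absurd heA h2
          · exact h
        · rintro h; exact ⟨Or.inr h, h.2⟩
      rw [v1, v2] at h1
      unfold PT.Fac1 at hfA
      rw [h1]; linarith
    have hfac : PT.Fac (PT.con r e) (PT.con q e) (S.erase e) (A.erase e) :=
      ⟨Finset.erase_subset_erase e hA.1, gen r hr hA.2.1, gen q hq hA.2.2⟩
    rcases hc _ hfac with h | h
    · rw [h] at haA'; exact absurd haA' (Finset.notMem_empty a)
    · rw [← Finset.insert_erase heA, ← Finset.insert_erase heS, h]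
  intro A hA
  by_cases haA : a ∈ A
  · exact Or.inr (key A hA haA)
  · left
    have h1 := key (S \ A) (PT.Fac.symm hA) (Finset.mem_sdiff.mpr ⟨haS, haA⟩)
    rw [Finset.sdiff_eq_self_iff_disjoint] at h1
    rw [Finset.eq_empty_iff_forall_notMem]
    intro x hx
    exact Finset.disjoint_left.mp h1 (hA.1 hx) hx

/-- value of `f` for `U_{n-1,n} → U_{0,n}` -/
theorem f_circuit (hr1 : ∀ X, X ⊆ S → X ≠ S → r X = X.card) (hr2 : r S = S.card - 1)
    (hq : ∀ X, X ⊆ S → q X = 0) : PT.f r q S = 2 ^ S.card - 2 := by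
  unfold PT.f
  have h1 : ∀ X ∈ S.powerset, PT.sg (q S - q X + X.card - r X) =
      1 - (if X = S then 2 else 0) := by
    intro X hX
    rw [Finset.mem_powerset] at hX
    rw [hq X hX, hq S (Finset.Subset.refl S)]
    by_cases hXS : X = S
    · rw [if_pos hXS, hXS, hr2]
      have : (0 - 0 + (S.card : ℤ) - (S.card - 1)) = 1 := by ring
      rw [this]; rfl
    · rw [if_neg hXS, hr1 X hX hXS]
      have : (0 - 0 + (X.card : ℤ) - X.card) = 0 := by ring
      rw [this]; rfl
  rw [Finset.sum_congr rfl h1, Finset.sum_sub_distrib, Finset.sum_ite_eq']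
  simp

/-- value of `f` for `U_{n,n} → U_{1,n}` -/
theorem f_cocircuit (hr : ∀ X, X ⊆ S → r X = X.card) (hq0 : q ∅ = 0)
    (hq : ∀ X, X ⊆ S → X.Nonempty → q X = 1) (hS : S.Nonempty) :
    PT.f r q S = 2 ^ S.card - 2 := by
  unfold PT.f
  have h1 : ∀ X ∈ S.powerset, PT.sg (q S - q X + X.card - r X) =
      1 - (if X = ∅ then 2 else 0) := by
    intro X hX
    rw [Finset.mem_powerset] at hX
    rw [hr X hX, hq S (Finset.Subset.refl S) hS]
    by_cases hXS : X = ∅
    · rw [if_pos hXS, hXS, hq0]
      have : ((1 : ℤ) - 0 + ((∅ : Finset α).card : ℤ) - (∅ : Finset α).card) = 1 := by ring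
      rw [this]; rfl
    · rw [if_neg hXS, hq X hX (Finset.nonempty_iff_ne_empty.mpr hXS)]
      have : ((1 : ℤ) - 1 + (X.card : ℤ) - X.card) = 0 := by ring
      rw [this]; rfl
  rw [Finset.sum_congr rfl h1, Finset.sum_sub_distrib, Finset.sum_ite_eq']
  simp

theorem conn_circuit (hr1 : ∀ X, X ⊆ S → X ≠ S → r X = X.card) (hr2 : r S = S.card - 1) :
    PT.Conn r q S := by
  intro A hA
  by_contra hcon
  push Not at hcon
  have h1 : S \ A ≠ S := by
    intro h
    rw [Finset.sdiff_eq_self_iff_disjoint] at h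
    obtain ⟨x, hx⟩ := hcon.1
    exact Finset.disjoint_left.mp h (hA.1 hx) hx
  have h2 := hA.2.1
  unfold PT.Fac1 at h2
  rw [hr1 A hA.1 hcon.2, hr1 _ Finset.sdiff_subset h1, hr2, Finset.card_sdiff_of_subset hA.1] at h2
  have := Finset.card_le_card hA.1
  push_cast [Nat.cast_sub this] at h2
  linarith

theorem conn_cocircuit (hq : ∀ X, X ⊆ S → X.Nonempty → q X = 1) : PT.Conn r q S := by
  intro A hA
  by_contra hcon
  push Not at hcon
  have hA1 : A.Nonempty := hcon.1
  have hA2 : (S \ A).Nonempty := by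
    rw [Finset.sdiff_nonempty]
    intro h
    exact hcon.2 (Finset.Subset.antisymm hA.1 h)
  have h2 := hA.2.2
  unfold PT.Fac1 at h2
  rw [hq A hA.1 hA1, hq _ Finset.sdiff_subset hA2,
    hq S (Finset.Subset.refl S) (hA1.mono hA.1)] at h2
  norm_num at h2

end rank

section matroid

theorem indep_iff_zr (M : Matroid α) (X : Finset α) :
    M.Indep (X : Set α) ↔ zr M X = X.card := by
  rw [Matroid.indep_iff_eRk_eq_encard_of_finite X.finite_toSet, eRk_coe M X.finite_toSet,
    encard_coe_eq_coe_finsetCard]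
  unfold zr
  constructor
  · intro h; exact_mod_cast h
  · intro h; exact_mod_cast h

theorem circuit_iff_zr [DecidableEq α] (M : Matroid α) (C : Finset α)
    (hC : (C : Set α) ⊆ M.E) :
    M.IsCircuit (C : Set α) ↔ zr M C ≠ C.card ∧ ∀ e ∈ C, zr M (C.erase e) = (C.erase e).card := by
  rw [Matroid.isCircuit_iff_dep_forall_sdiff_singleton_indep]
  constructor
  · rintro ⟨h1, h2⟩
    refine ⟨fun h => h1.not_indep ((indep_iff_zr M C).mpr h), fun e he => ?_⟩
    have := h2 e (by exact_mod_cast he)
    rw [← Finset.coe_erase] at this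
    exact (indep_iff_zr M _).mp this
  · rintro ⟨h1, h2⟩
    refine ⟨⟨fun h => h1 ((indep_iff_zr M C).mp h), hC⟩, fun e he => ?_⟩
    rw [← Finset.coe_erase]
    exact (indep_iff_zr M _).mpr (h2 e (by exact_mod_cast he))

theorem rkDiff_cast {M M' : Matroid α} (h : IsPerspective M M') {E0 : Finset α}
    (hE : (E0 : Set α) = M.E) : (rkDiff M M' : ℤ) = zr M E0 - zr M' E0 := by
  classical
  have h1 := (zr_persp h).d_nonneg (zr_isRk M) (zr_isRk M') E0
  unfold rkDiff
  rw [h.ground]
  unfold zr at *
  rw [hE] at *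
  omega

/-- the lower bound -/
theorem lower_bound {M M' : Matroid α} (h : IsPerspective M M') (hc : IsConnected M M') :
    (2 : ℤ) ^ (rkDiff M M' + 1) - 2 ≤ tutte M M' 0 0 1 := by
  classical
  obtain ⟨E0, hE⟩ : ∃ E0 : Finset α, (E0 : Set α) = M.E := ⟨h.finite.toFinset, by simp⟩
  have hr := zr_isRk M
  have hq := zr_isRk M'
  have hp := zr_persp h
  have hk := rkDiff_cast h hE
  obtain ⟨_, hconn⟩ := (isConnected_iff h.ground hE).mp hc
  rw [tutte_eq_f h hE]
  by_cases hk0 : rkDiff M M' = 0
  · rw [hk0]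
    have := (PT.T12 (α := α) E0.card).1.nonneg hr hq hp rfl
    norm_num
    exact this
  · exact (PT.T12 (α := α) E0.card).2 (zr M) (zr M') E0 hr hq hp rfl hconn (rkDiff M M')
      (by omega) (by linarith)

/-- the case of rank difference zero -/
theorem eq_of_rkDiff_zero {M M' : Matroid α} (h : IsPerspective M M') (h0 : rkDiff M M' = 0) :
    M = M' := by
  classical
  obtain ⟨E0, hE⟩ : ∃ E0 : Finset α, (E0 : Set α) = M.E := ⟨h.finite.toFinset, by simp⟩
  have hk := rkDiff_cast h hE
  have hp := zr_persp h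
  apply Matroid.ext_indep h.ground.symm
  intro I hI
  obtain ⟨J, rfl⟩ : ∃ J : Finset α, (J : Set α) = I := ⟨(h.finite.subset hI).toFinset, by simp⟩
  have hJE : J ⊆ E0 := by rw [← hE] at hI; exact Finset.coe_subset.mp hI
  have h1 := hp J E0 hJE
  have h2 := hp.d_nonneg (zr_isRk M) (zr_isRk M') J
  have h3 : zr M J = zr M' J := by
    rw [h0] at hk
    push_cast at hk
    linarith
  rw [indep_iff_zr, indep_iff_zr, h3]

theorem tutte_of_eq {M : Matroid α} (hfin : M.E.Finite) (hc : IsConnected M M) :
    IsPerspective M M ∧ rkDiff M M = 0 ∧ tutte M M 0 0 1 = 0 := by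
  classical
  have h : IsPerspective M M := ⟨hfin, rfl, fun _ hF => hF⟩
  obtain ⟨E0, hE⟩ : ∃ E0 : Finset α, (E0 : Set α) = M.E := ⟨h.finite.toFinset, by simp⟩
  obtain ⟨hne, _⟩ := (isConnected_iff h.ground hE).mp hc
  refine ⟨h, by unfold rkDiff; omega, ?_⟩
  rw [tutte_eq_f h hE]
  exact PT.f_deg (zr_isRk M) (zr_isRk M) (zr_persp h)
    ⟨E0, PT.fac_self (zr_isRk M) (zr_isRk M), hne, rfl⟩

end matroid

end Pool.Agent.Helper496.MP321
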