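import Pool.Agent.Helper496.PerspMain

set_option autoImplicit false

/-!
# The extremal perspectives are exactly the class `SP`
-/

namespace Pool.Agent.Helper496.MP321

open Set

universe u
variable {α : Type u}

theorem delete_data [DecidableEq α] {M M' : Matroid α} (h : IsPerspective M M') {E0 : Finset α}
    (hE : (E0 : Set α) = M.E) {e : α} (hne : (E0.erase e).Nonempty) :
    (((E0.erase e : Finset α) : Set α) = (M.delete {e}).E) ∧
    (IsConnected (M.delete {e}) (M'.delete {e}) ↔ PT.Conn (zr M) (zr M') (E0.erase e)) ∧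
    ((rkDiff (M.delete {e}) (M'.delete {e}) : ℤ) = zr M (E0.erase e) - zr M' (E0.erase e)) ∧
    tutte (M.delete {e}) (M'.delete {e}) 0 0 1 = PT.f (zr M) (zr M') (E0.erase e) := by
  have hE' : (((E0.erase e : Finset α) : Set α) = (M.delete {e}).E) := by
    rw [Matroid.delete_ground, Finset.coe_erase, hE]
  have hr : ∀ X, X ⊆ E0.erase e → zr (M.delete {e}) X = zr M X := fun X hX =>
    zr_delete M (fun hx => Finset.notMem_erase e E0 (hX hx))
  have hq : ∀ X, X ⊆ E0.erase e → zr (M'.delete {e}) X = zr M' X := fun X hX =>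
    zr_delete M' (fun hx => Finset.notMem_erase e E0 (hX hx))
  refine ⟨hE', ?_, ?_, ?_⟩
  · rw [isConnected_iff (h.delete e).ground hE']
    constructor
    · rintro ⟨_, h1⟩; exact conn_congr hr hq h1
    · intro h1
      exact ⟨hne, conn_congr (fun X hX => (hr X hX).symm) (fun X hX => (hq X hX).symm) h1⟩
  · rw [rkDiff_cast (h.delete e) hE', hr _ (Finset.Subset.refl _), hq _ (Finset.Subset.refl _)]
  · rw [tutte_eq_f (h.delete e) hE']
    exact f_congr hr hq

theorem contract_data [DecidableEq α] {M M' : Matroid α} (h : IsPerspective M M') {E0 : Finset α}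
    (hE : (E0 : Set α) = M.E) {e : α} (he : e ∈ E0) (hne : (E0.erase e).Nonempty) :
    (((E0.erase e : Finset α) : Set α) = (M.contract {e}).E) ∧
    (IsConnected (M.contract {e}) (M'.contract {e}) ↔
      PT.Conn (PT.con (zr M) e) (PT.con (zr M') e) (E0.erase e)) ∧
    ((rkDiff (M.contract {e}) (M'.contract {e}) : ℤ) =
      PT.con (zr M) e (E0.erase e) - PT.con (zr M') e (E0.erase e)) ∧
    tutte (M.contract {e}) (M'.contract {e}) 0 0 1 =
      PT.f (PT.con (zr M) e) (PT.con (zr M') e) (E0.erase e) := by
  have hE' : (((E0.erase e : Finset α) : Set α) = (M.contract {e}).E) := by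
    rw [Matroid.contract_ground, Finset.coe_erase, hE]
  have hr : ∀ X, X ⊆ E0.erase e → zr (M.contract {e}) X = PT.con (zr M) e X := fun X hX =>
    zr_contract M hE he hX
  have hq : ∀ X, X ⊆ E0.erase e → zr (M'.contract {e}) X = PT.con (zr M') e X := fun X hX =>
    zr_contract M' (hE.trans h.ground.symm) he hX
  refine ⟨hE', ?_, ?_, ?_⟩
  · rw [isConnected_iff (h.contract e).ground hE']
    constructor
    · rintro ⟨_, h1⟩; exact conn_congr hr hq h1
    · intro h1
      exact ⟨hne, conn_congr (fun X hX => (hr X hX).symm) (fun X hX => (hq X hX).symm) h1⟩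
  · rw [rkDiff_cast (h.contract e) hE', hr _ (Finset.Subset.refl _), hq _ (Finset.Subset.refl _)]
  · rw [tutte_eq_f (h.contract e) hE']
    exact f_congr hr hq

theorem circuit_pair [DecidableEq α] (M : Matroid α) {a e : α} (hae : a ≠ e)
    (ha : a ∈ M.E) (he : e ∈ M.E) :
    M.IsCircuit {a, e} ↔ zr M {a} = 1 ∧ zr M {e} = 1 ∧ zr M {a, e} = 1 := by
  have hC : (({a, e} : Finset α) : Set α) = {a, e} := by simp
  have hsub : (({a, e} : Finset α) : Set α) ⊆ M.E := by
    rw [hC]; intro x hx
    rcases hx with rfl | hx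
    · exact ha
    · rw [mem_singleton_iff] at hx; rw [hx]; exact he
  rw [← hC, circuit_iff_zr M _ hsub]
  have hr := zr_isRk M
  have e1 : ({a, e} : Finset α).erase a = {e} := by
    ext x; simp only [Finset.mem_erase, Finset.mem_insert, Finset.mem_singleton]
    constructor
    · rintro ⟨h1, h2 | h2⟩
      · exact absurd h2 h1
      · exact h2
    · rintro rfl; exact ⟨fun h => hae h.symm, Or.inr rfl⟩
  have e2 : ({a, e} : Finset α).erase e = {a} := by
    ext x; simp only [Finset.mem_erase, Finset.mem_insert, Finset.mem_singleton]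
    constructor
    · rintro ⟨h1, h2 | h2⟩
      · exact h2
      · exact absurd h2 h1
    · rintro rfl; exact ⟨hae, Or.inl rfl⟩
  have hcard : ({a, e} : Finset α).card = 2 := Finset.card_pair hae
  constructor
  · rintro ⟨h1, h2⟩
    have h3 := h2 a (by simp)
    have h4 := h2 e (by simp)
    rw [e1, Finset.card_singleton] at h3
    rw [e2, Finset.card_singleton] at h4
    rw [hcard] at h1
    have h5 := PT.rk_le_card hr {a, e}
    rw [hcard] at h5
    have h6 := hr.mono (show ({a} : Finset α) ⊆ {a, e} by simp)
    push_cast at *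
    refine ⟨h4, h3, ?_⟩
    omega
  · rintro ⟨h1, h2, h3⟩
    refine ⟨by rw [h3, hcard]; norm_num, ?_⟩
    intro x hx
    simp only [Finset.mem_insert, Finset.mem_singleton] at hx
    rcases hx with rfl | rfl
    · rw [e1, h2]; simp
    · rw [e2, h1]; simp

theorem cocircuit_pair [DecidableEq α] (M : Matroid α) {E0 : Finset α}
    (hE : (E0 : Set α) = M.E) {a e : α} (hae : a ≠ e)
    (ha : a ∈ E0) (he : e ∈ E0) :
    M.IsCocircuit {a, e} ↔ zr M (E0.erase a) = zr M E0 ∧ zr M (E0.erase e) = zr M E0 ∧
      zr M ((E0.erase e).erase a) = zr M E0 - 1 := by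
  have haE : a ∈ (Matroid.dual M).E := by rw [Matroid.dual_ground, ← hE]; exact_mod_cast ha
  have heE : e ∈ (Matroid.dual M).E := by rw [Matroid.dual_ground, ← hE]; exact_mod_cast he
  have e1 : E0 \ {a} = E0.erase a := Finset.sdiff_singleton_eq_erase a E0
  have e2 : E0 \ {e} = E0.erase e := Finset.sdiff_singleton_eq_erase e E0
  have e3 : E0 \ {a, e} = (E0.erase e).erase a := by
    ext x; simp only [Finset.mem_sdiff, Finset.mem_erase, Finset.mem_insert, Finset.mem_singleton]
    tauto
  have hcard : ({a, e} : Finset α).card = 2 := Finset.card_pair hae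
  rw [Matroid.isCocircuit_def, circuit_pair _ hae haE heE,
    zr_dual M hE (Finset.singleton_subset_iff.mpr ha),
    zr_dual M hE (Finset.singleton_subset_iff.mpr he),
    zr_dual M hE (Finset.insert_subset ha (Finset.singleton_subset_iff.mpr he)), e1, e2, e3, hcard]
  simp only [Finset.card_singleton]
  push_cast
  constructor
  · rintro ⟨h1, h2, h3⟩; refine ⟨by linarith, by linarith, by linarith⟩
  · rintro ⟨h1, h2, h3⟩; refine ⟨by linarith, by linarith, by linarith⟩

theorem sp_of_extremal_aux (n : ℕ) : ∀ (M M' : Matroid α), M.E.ncard = n → IsPerspective M M' →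
    IsConnected M M' → 1 ≤ rkDiff M M' →
    tutte M M' 0 0 1 = 2 ^ (rkDiff M M' + 1) - 2 → SP M M' := by
  classical
  induction n using Nat.strong_induction_on with
  | _ n ih =>
    intro M M' hn h hc hk1 hT
    obtain ⟨E0, hE⟩ : ∃ E0 : Finset α, (E0 : Set α) = M.E := ⟨h.finite.toFinset, by simp⟩
    have hE' : (E0 : Set α) = M'.E := hE.trans h.ground.symm
    have hr := zr_isRk M
    have hq := zr_isRk M'
    have hp := zr_persp h
    have hk := rkDiff_cast h hE
    obtain ⟨hne, hconn⟩ := (isConnected_iff h.ground hE).mp hc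
    have hcardn : E0.card = n := by rw [← hn, ← hE, ncard_coe_finset]
    rw [tutte_eq_f h hE] at hT
    have hkS : zr M E0 = zr M' E0 + (rkDiff M M' : ℕ) := by linarith
    have hpos : 0 < E0.card := Finset.card_pos.mpr hne
    by_cases h1 : E0.card = 1
    · -- a single element
      obtain ⟨e, rfl⟩ := Finset.card_eq_one.mp h1
      have a1 := hr.sing_le e
      have a2 := hq.nonneg {e}
      have a3 : (1 : ℤ) ≤ rkDiff M M' := by exact_mod_cast hk1
      have a4 : zr M {e} = 1 := by linarith
      have a5 : zr M' {e} = 0 := by linarith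
      have hM : M = Matroid.freeOn {e} := by
        rw [Matroid.eq_freeOn_iff]
        refine ⟨by rw [← hE]; simp, ?_⟩
        have := (indep_iff_zr M {e}).mpr (by rw [a4]; simp)
        simpa using this
      have hM' : M' = Matroid.loopyOn {e} := by
        rw [Matroid.eq_loopyOn_iff]
        refine ⟨by rw [← hE']; simp, ?_⟩
        intro X hX hi
        rw [← hE', Finset.coe_singleton] at hX
        rcases subset_singleton_iff_eq.mp hX with h2 | h2
        · exact h2
        · exfalso
          rw [h2] at hi
          have := (indep_iff_zr M' {e}).mp (by simpa using hi)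
          rw [a5] at this
          simp at this
      rw [hM, hM']
      exact SP.point e
    · have h2 : 2 ≤ E0.card := by omega
      have hne' : ∀ e ∈ E0, (E0.erase e).Nonempty := by
        intro e he
        rw [← Finset.card_pos, Finset.card_erase_of_mem he]; omega
      have hncard : ∀ e ∈ E0, ∀ N : Matroid α, ((E0.erase e : Finset α) : Set α) = N.E →
          N.E.ncard < n := by
        intro e he N hN
        rw [← hN, ncard_coe_finset, Finset.card_erase_of_mem he]; omega
      rcases PT.equality hr hq hp hconn h2 hk1 hkS hT with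
        ⟨a, haS, e, heS, hae, hpar⟩ | ⟨a, haS, e, heS, hae, hser⟩ | ⟨hq0, hcirc⟩ | ⟨hrf, hq1, hcoc⟩
      · -- parallel pair
        obtain ⟨b1, b2, b3, b4⟩ := PT.par_lemma hr hq hp hconn h2 haS heS hae hpar
        have c1 := hconn.nonloop hr hq hp h2 haS
        have c2 := hconn.nonloop hr hq hp h2 heS
        obtain ⟨d0, d1, d2, d3⟩ := delete_data h hE (hne' e heS)
        have haE : a ∈ M.E := by rw [← hE]; exact_mod_cast haS
        have heE : e ∈ M.E := by rw [← hE]; exact_mod_cast heS
        have d4 : rkDiff (M.delete {e}) (M'.delete {e}) = rkDiff M M' := by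
          have : (rkDiff (M.delete {e}) (M'.delete {e}) : ℤ) = rkDiff M M' := by
            rw [d2, b3, b4, hk]
          exact_mod_cast this
        refine SP.parallel M M' a e h hae ((circuit_pair M hae haE heE).mpr ⟨c1, c2, hpar⟩) ?_
        exact ih _ (hncard e heS _ d0) _ _ rfl (h.delete e) (d1.mpr b2) (by rw [d4]; exact hk1)
          (by rw [d3, d4, ← b1]; exact hT)
      · -- series pair
        obtain ⟨b1, b2, b3, b4⟩ := PT.ser_lemma hr hq hp hconn h2 haS heS hae hser
        have c1 := hconn.noncoloop hr hq hp h2 haS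
        have c2 := hconn.noncoloop hr hq hp h2 heS
        obtain ⟨d0, d1, d2, d3⟩ := contract_data h hE heS (hne' e heS)
        have d4 : rkDiff (M.contract {e}) (M'.contract {e}) = rkDiff M M' := by
          have : (rkDiff (M.contract {e}) (M'.contract {e}) : ℤ) = rkDiff M M' := by
            rw [d2]
            simp only [PT.con]
            rw [Finset.insert_erase heS, b3, b4, hk]; ring
          exact_mod_cast this
        have c3 := hq.unit ((E0.erase e).erase a) a
        rw [Finset.insert_erase (Finset.mem_erase.mpr ⟨hae, haS⟩), c2] at c3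
        refine SP.series M M' a e h hae ((cocircuit_pair M' hE' hae haS heS).mpr
          ⟨c1, c2, by omega⟩) ?_
        exact ih _ (hncard e heS _ d0) _ _ rfl (h.contract e) (d1.mpr b2) (by rw [d4]; exact hk1)
          (by rw [d3, d4, ← b1]; exact hT)
      · -- circuit over loops
        have hM' : M' = Matroid.loopyOn M.E := by
          rw [Matroid.eq_loopyOn_iff]
          refine ⟨h.ground, ?_⟩
          intro X hX hi
          obtain ⟨Y, rfl⟩ : ∃ Y : Finset α, (Y : Set α) = X :=
            ⟨((h.ground ▸ h.finite : M'.E.Finite).subset hX).toFinset, by simp⟩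
          have hYE : Y ⊆ E0 := by rw [← hE'] at hX; exact Finset.coe_subset.mp hX
          have g1 := (indep_iff_zr M' Y).mp hi
          have g2 := hq.mono hYE
          have g3 : Y.card = 0 := by
            have : (Y.card : ℤ) ≤ 0 := by linarith
            exact_mod_cast le_antisymm this (Int.natCast_nonneg _)
          rw [Finset.card_eq_zero] at g3
          rw [g3]; simp
        obtain ⟨e, he⟩ := hne
        have g1 := hcirc e he
        have hcircuit : M.IsCircuit M.E := by
          rw [← hE, circuit_iff_zr M E0 hE.subset]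
          refine ⟨?_, fun x hx => (hcirc x hx).1⟩
          rw [g1.2, g1.1, Finset.card_erase_of_mem he]
          intro hcon
          have : E0.card - 1 = E0.card := by exact_mod_cast hcon
          omega
        rw [hM']
        refine SP.circuit M h.finite ?_ hcircuit
        rw [← hE]
        exact_mod_cast Finset.one_lt_card_iff_nontrivial.mp (by omega)
      · -- free over a cocircuit
        have hM : M = Matroid.freeOn M'.E := by
          rw [Matroid.eq_freeOn_iff]
          refine ⟨h.ground.symm, ?_⟩
          rw [← hE']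
          exact (indep_iff_zr M E0).mpr hrf
        rw [hM]
        refine SP.cocircuit M' (h.ground ▸ h.finite) ?_ ?_
        · rw [← hE']
          exact_mod_cast Finset.one_lt_card_iff_nontrivial.mp (by omega)
        · have hEd : (E0 : Set α) = (Matroid.dual M').E := by rw [Matroid.dual_ground, hE']
          rw [Matroid.isCocircuit_def, ← hE', circuit_iff_zr _ E0 hEd.subset]
          refine ⟨?_, ?_⟩
          · rw [zr_dual M' hE' (Finset.Subset.refl _), Finset.sdiff_self, hq.empty, hq1]
            intro hcon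
            linarith
          · intro e he
            rw [zr_dual M' hE' (Finset.erase_subset e E0)]
            have e2 : E0 \ E0.erase e = {e} := by
              ext x; simp only [Finset.mem_sdiff, Finset.mem_erase, Finset.mem_singleton]
              constructor
              · rintro ⟨h1, h2⟩; by_contra hxe; exact h2 ⟨hxe, h1⟩
              · rintro rfl; exact ⟨he, fun h => h.1 rfl⟩
            rw [e2, hcoc e he, hq1]; ring

theorem sp_of_extremal {M M' : Matroid α} (h : IsPerspective M M')
    (hc : IsConnected M M') (hk1 : 1 ≤ rkDiff M M')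
    (hT : tutte M M' 0 0 1 = 2 ^ (rkDiff M M' + 1) - 2) : SP M M' :=
  sp_of_extremal_aux _ M M' rfl h hc hk1 hT

theorem extremal_of_sp {M M' : Matroid α} (h : SP M M') : IsPerspective M M' ∧ IsConnected M M' ∧
    1 ≤ rkDiff M M' ∧ tutte M M' 0 0 1 = 2 ^ (rkDiff M M' + 1) - 2 := by
  classical
  induction h with
  | point e =>
    have hP : IsPerspective (Matroid.freeOn {e}) (Matroid.loopyOn {e}) := by
      refine isPerspective_of_closure (finite_singleton e) rfl ?_
      intro X _
      rw [Matroid.loopyOn_closure_eq]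
      exact Matroid.closure_subset_ground _ _
    have hE : (({e} : Finset α) : Set α) = (Matroid.freeOn ({e} : Set α)).E := by simp
    have hr := zr_isRk (Matroid.freeOn ({e} : Set α))
    have hq := zr_isRk (Matroid.loopyOn ({e} : Set α))
    have hp := zr_persp hP
    have a1 : zr (Matroid.freeOn ({e} : Set α)) {e} = 1 := by
      have := (indep_iff_zr (Matroid.freeOn ({e} : Set α)) {e}).mp (by simp)
      rw [this]; simp
    have a2 : zr (Matroid.loopyOn ({e} : Set α)) {e} = 0 := by
      unfold zr rk
      rw [Matroid.eRk_loopyOn]; simp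
    have hk := rkDiff_cast hP hE
    rw [a1, a2] at hk
    have hk1 : rkDiff (Matroid.freeOn ({e} : Set α)) (Matroid.loopyOn {e}) = 1 := by
      have : (rkDiff (Matroid.freeOn ({e} : Set α)) (Matroid.loopyOn {e}) : ℤ) = 1 := by
        rw [hk]; norm_num
      exact_mod_cast this
    refine ⟨hP, ?_, hk1.ge, ?_⟩
    · rw [isConnected_iff hP.ground hE]
      refine ⟨Finset.singleton_nonempty e, ?_⟩
      intro A hA
      rcases Finset.subset_singleton_iff.mp hA.1 with h | h
      · exact Or.inl h
      · exact Or.inr h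
    · rw [tutte_eq_f hP hE, hk1]
      have := (PT.one_case hr hq hp (S := {e}) (by simp) (k := 1) le_rfl
        (by rw [a1, a2]; norm_num)).2
      rw [this]; norm_num
  | circuit M hfin hnt h =>
    have hP : IsPerspective M (Matroid.loopyOn M.E) := by
      refine isPerspective_of_closure hfin rfl ?_
      intro X _
      rw [Matroid.loopyOn_closure_eq]
      exact Matroid.closure_subset_ground _ _
    obtain ⟨E0, hE⟩ : ∃ E0 : Finset α, (E0 : Set α) = M.E := ⟨hP.finite.toFinset, by simp⟩
    have hr := zr_isRk M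
    have hq0 : ∀ X : Finset α, zr (Matroid.loopyOn M.E) X = 0 := by
      intro X
      unfold zr rk
      rw [Matroid.eRk_loopyOn]; simp
    rw [← hE, circuit_iff_zr M E0 hE.subset] at h
    obtain ⟨hd, hi⟩ := h
    have hnt' : E0.Nontrivial := by rw [← hE] at hnt; exact_mod_cast hnt
    have h2 : 2 ≤ E0.card := Finset.one_lt_card_iff_nontrivial.mpr hnt'
    obtain ⟨e, he⟩ := hnt'.nonempty
    have hrS : zr M E0 = E0.card - 1 := by
      have h1 := hi e he
      have h3 := hr.mono (Finset.erase_subset e E0)
      have h4 := PT.rk_le_card hr E0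
      rw [h1, Finset.card_erase_of_mem he] at h3
      push_cast [show 1 ≤ E0.card by omega] at h3
      omega
    have hproper : ∀ X, X ⊆ E0 → X ≠ E0 → zr M X = X.card := by
      intro X hX hne
      obtain ⟨x, hx, hxX⟩ : ∃ x ∈ E0, x ∉ X := by
        by_contra hcon
        push Not at hcon
        exact hne (Finset.Subset.antisymm hX hcon)
      have hXx : X ⊆ E0.erase x := by
        intro y hy
        exact Finset.mem_erase.mpr ⟨fun h => hxX (h ▸ hy), hX hy⟩
      exact PT.r_sub_card hr (hi x hx) hXx
    have hk := rkDiff_cast hP hE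
    rw [hq0, hrS] at hk
    have hk' : rkDiff M (Matroid.loopyOn M.E) + 1 = E0.card := by
      have : ((rkDiff M (Matroid.loopyOn M.E) + 1 : ℕ) : ℤ) = E0.card := by
        push_cast; rw [hk]; ring
      exact_mod_cast this
    refine ⟨hP, ?_, by omega, ?_⟩
    · rw [isConnected_iff hP.ground hE]
      exact ⟨⟨e, he⟩, conn_circuit hproper hrS⟩
    · rw [tutte_eq_f hP hE, hk']
      exact f_circuit hproper hrS (fun X _ => hq0 X)
  | cocircuit M' hfin hnt h =>
    have hP : IsPerspective (Matroid.freeOn M'.E) M' := by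
      refine isPerspective_of_closure hfin rfl ?_
      intro X hX
      have hX' : X ⊆ M'.E := hX
      have : (Matroid.freeOn M'.E).closure X = X := by
        simp [Set.inter_eq_left.mpr hX']
      rw [this]
      exact M'.subset_closure X hX'
    obtain ⟨E0, hE'⟩ : ∃ E0 : Finset α, (E0 : Set α) = M'.E := ⟨hfin.toFinset, by simp⟩
    have hE : (E0 : Set α) = (Matroid.freeOn M'.E).E := hE'
    have hq := zr_isRk M'
    have hr0 : ∀ X, X ⊆ E0 → zr (Matroid.freeOn M'.E) X = X.card := by
      intro X hX
      rw [← indep_iff_zr, Matroid.freeOn_indep_iff, ← hE']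
      exact_mod_cast hX
    have hEd : (E0 : Set α) = (Matroid.dual M').E := by rw [Matroid.dual_ground, hE']
    rw [Matroid.isCocircuit_def, ← hE', circuit_iff_zr _ E0 hEd.subset] at h
    obtain ⟨hd, hi⟩ := h
    rw [zr_dual M' hE' (Finset.Subset.refl _), Finset.sdiff_self, hq.empty] at hd
    have hsing : ∀ e ∈ E0, zr M' {e} = zr M' E0 := by
      intro e he
      have := hi e he
      rw [zr_dual M' hE' (Finset.erase_subset e E0)] at this
      have e2 : E0 \ E0.erase e = {e} := by
        ext x; simp only [Finset.mem_sdiff, Finset.mem_erase, Finset.mem_singleton]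
        constructor
        · rintro ⟨h1, h2⟩; by_contra hxe; exact h2 ⟨hxe, h1⟩
        · rintro rfl; exact ⟨he, fun h => h.1 rfl⟩
      rw [e2] at this
      linarith
    have hnt' : E0.Nontrivial := by rw [← hE'] at hnt; exact_mod_cast hnt
    have h2 : 2 ≤ E0.card := Finset.one_lt_card_iff_nontrivial.mpr hnt'
    obtain ⟨e, he⟩ := hnt'.nonempty
    have hq1 : zr M' E0 = 1 := by
      have h1 := hq.sing_le e
      have h3 := hq.nonneg E0
      rw [hsing e he] at h1
      have h4 : zr M' E0 ≠ 0 := by
        intro h0; apply hd; rw [h0]; ring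
      omega
    have hq' : ∀ X, X ⊆ E0 → X.Nonempty → zr M' X = 1 := by
      intro X hX hXne
      obtain ⟨x, hx⟩ := hXne
      have h3 := hq.mono hX
      have h4 := hq.mono (Finset.singleton_subset_iff.mpr hx)
      rw [hsing x (hX hx), hq1] at h4
      rw [hq1] at h3
      linarith
    have hk := rkDiff_cast hP hE
    rw [hr0 E0 (Finset.Subset.refl _), hq1] at hk
    have hk' : rkDiff (Matroid.freeOn M'.E) M' + 1 = E0.card := by
      have : ((rkDiff (Matroid.freeOn M'.E) M' + 1 : ℕ) : ℤ) = E0.card := by
        push_cast; rw [hk]; ring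
      exact_mod_cast this
    refine ⟨hP, ?_, by omega, ?_⟩
    · rw [isConnected_iff hP.ground hE]
      exact ⟨⟨e, he⟩, conn_cocircuit hq'⟩
    · rw [tutte_eq_f hP hE, hk']
      exact f_cocircuit hr0 hq.empty hq' ⟨e, he⟩
  | parallel M M' e f hP hne h _ ih =>
    obtain ⟨_, ihC, ihk, ihT⟩ := ih
    obtain ⟨E0, hE⟩ : ∃ E0 : Finset α, (E0 : Set α) = M.E := ⟨hP.finite.toFinset, by simp⟩
    have hr := zr_isRk M
    have hq := zr_isRk M'
    have hp := zr_persp hP
    have heE : e ∈ M.E := h.subset_ground (by simp)
    have hfE : f ∈ M.E := h.subset_ground (by simp)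
    have heS : e ∈ E0 := by rw [← hE] at heE; exact_mod_cast heE
    have hfS : f ∈ E0 := by rw [← hE] at hfE; exact_mod_cast hfE
    obtain ⟨c1, c2, c3⟩ := (circuit_pair M hne heE hfE).mp h
    obtain ⟨d0, d1, d2, d3⟩ := delete_data hP hE (e := f) ⟨e, Finset.mem_erase.mpr ⟨hne, heS⟩⟩
    have hconn := conn_of_par hr hq hp heS hfS hne c1 c2 c3 (d1.mp ihC)
    have h2 : 2 ≤ E0.card := Finset.one_lt_card.mpr ⟨e, heS, f, hfS, hne⟩
    obtain ⟨b1, b2, b3, b4⟩ := PT.par_lemma hr hq hp hconn h2 heS hfS hne c3
    have d4 : rkDiff (M.delete {f}) (M'.delete {f}) = rkDiff M M' := by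
      have : (rkDiff (M.delete {f}) (M'.delete {f}) : ℤ) = rkDiff M M' := by
        rw [d2, b3, b4, rkDiff_cast hP hE]
      exact_mod_cast this
    refine ⟨hP, (isConnected_iff hP.ground hE).mpr ⟨⟨e, heS⟩, hconn⟩, by rw [← d4]; exact ihk, ?_⟩
    rw [tutte_eq_f hP hE, b1, ← d3, ihT, d4]
  | series M M' e f hP hne h _ ih =>
    obtain ⟨_, ihC, ihk, ihT⟩ := ih
    obtain ⟨E0, hE⟩ : ∃ E0 : Finset α, (E0 : Set α) = M.E := ⟨hP.finite.toFinset, by simp⟩
    have hE' : (E0 : Set α) = M'.E := hE.trans hP.ground.symm
    have hr := zr_isRk M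
    have hq := zr_isRk M'
    have hp := zr_persp hP
    have heE : e ∈ M'.E := h.subset_ground (by simp)
    have hfE : f ∈ M'.E := h.subset_ground (by simp)
    have heS : e ∈ E0 := by rw [← hE'] at heE; exact_mod_cast heE
    have hfS : f ∈ E0 := by rw [← hE'] at hfE; exact_mod_cast hfE
    obtain ⟨c1, c2, c3⟩ := (cocircuit_pair M' hE' hne heS hfS).mp h
    obtain ⟨d0, d1, d2, d3⟩ := contract_data hP hE hfS ⟨e, Finset.mem_erase.mpr ⟨hne, heS⟩⟩
    have hconn := conn_of_ser hr hq heS hfS hne c1 c2 (by linarith) (d1.mp ihC)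
    have h2 : 2 ≤ E0.card := Finset.one_lt_card.mpr ⟨e, heS, f, hfS, hne⟩
    obtain ⟨b1, b2, b3, b4⟩ := PT.ser_lemma hr hq hp hconn h2 heS hfS hne (by linarith)
    have d4 : rkDiff (M.contract {f}) (M'.contract {f}) = rkDiff M M' := by
      have : (rkDiff (M.contract {f}) (M'.contract {f}) : ℤ) = rkDiff M M' := by
        rw [d2]
        simp only [PT.con]
        rw [Finset.insert_erase hfS, b3, b4, rkDiff_cast hP hE]; ring
      exact_mod_cast this
    refine ⟨hP, (isConnected_iff hP.ground hE).mpr ⟨⟨e, heS⟩, hconn⟩, by rw [← d4]; exact ihk, ?_⟩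
    rw [tutte_eq_f hP hE, b1, ← d3, ihT, d4]

end Pool.Agent.Helper496.MP321
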