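import Pool.Agent.Helper496.PtBound

open Finset

namespace Pool.Agent.Helper496.PT

variable {α : Type*} [DecidableEq α]

def T1 (α : Type*) [DecidableEq α] (n : ℕ) : Prop :=
  ∀ (r q : Finset α → ℤ) (S : Finset α), IsRk r → IsRk q → Persp r q → S.card = n →
    ¬ Deg r q S → ∀ k : ℕ, r S = q S + k → (2 : ℤ) ^ k ≤ f r q S

def T2 (α : Type*) [DecidableEq α] (n : ℕ) : Prop :=
  ∀ (r q : Finset α → ℤ) (S : Finset α), IsRk r → IsRk q → Persp r q → S.card = n →
    Conn r q S → ∀ k : ℕ, 1 ≤ k → r S = q S + k → (2 : ℤ) ^ (k + 1) - 2 ≤ f r q S

variable {r q : Finset α → ℤ} {S : Finset α}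

lemma fac_self (hr : IsRk r) (hq : IsRk q) : Fac r q S S := by
  refine ⟨le_refl S, ?_, ?_⟩
  · unfold Fac1; rw [Finset.sdiff_self, hr.empty]; ring
  · unfold Fac1; rw [Finset.sdiff_self, hq.empty]; ring

lemma exists_k (hr : IsRk r) (hq : IsRk q) (hp : Persp r q) (S : Finset α) :
    ∃ k : ℕ, r S = q S + k := by
  refine ⟨(r S - q S).toNat, ?_⟩
  have := hp.d_nonneg hr hq S
  rw [Int.toNat_of_nonneg (by linarith)]; ring

lemma two_pow_pos (k : ℕ) : (1 : ℤ) ≤ 2 ^ k := one_le_pow₀ (by norm_num)

lemma T1.nonneg {n : ℕ} (h : T1 α n) (hr : IsRk r) (hq : IsRk q) (hp : Persp r q)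
    (hS : S.card = n) : 0 ≤ f r q S := by
  by_cases hd : Deg r q S
  · rw [f_deg hr hq hp hd]
  · obtain ⟨k, hk⟩ := exists_k hr hq hp S
    have := h r q S hr hq hp hS hd k hk
    have := two_pow_pos k
    linarith

lemma T1_of_T2 {n : ℕ} (hT2 : T2 α n) (ih : ∀ m < n, T1 α m) : T1 α n := by
  intro r q S hr hq hp hS hd k hk
  by_cases hS0 : S = ∅
  · subst hS0
    rw [hr.empty, hq.empty] at hk
    have : k = 0 := by
      have : (k : ℤ) = 0 := by linarith
      exact_mod_cast this
    rw [f_empty hr, this]; norm_num
  by_cases hc : Conn r q S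
  · by_cases hk0 : k = 0
    · exfalso
      apply hd
      refine ⟨S, fac_self hr hq, Finset.nonempty_iff_ne_empty.2 hS0, ?_⟩
      rw [hk, hk0]; simp
    · have := hT2 r q S hr hq hp hS hc k (by omega) hk
      obtain ⟨j, rfl⟩ : ∃ j, k = j + 1 := ⟨k - 1, by omega⟩
      have h2 := two_pow_pos j
      rw [pow_succ, pow_succ] at this
      rw [pow_succ]
      linarith
  · unfold Conn at hc
    push Not at hc
    obtain ⟨A, hA, hA1, hA2⟩ := hc
    have hc1 : A.card < n := by
      rw [← hS]
      exact Finset.card_lt_card (hA.1.ssubset_of_ne hA2)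
    have hc2 : (S \ A).card < n := by
      rw [← hS]
      apply Finset.card_lt_card
      refine ⟨Finset.sdiff_subset, fun h => ?_⟩
      obtain ⟨x, hx⟩ : A.Nonempty := hA1
      exact (Finset.mem_sdiff.1 (h (hA.1 hx))).2 hx
    obtain ⟨k1, hk1⟩ := exists_k hr hq hp A
    obtain ⟨k2, hk2⟩ := exists_k hr hq hp (S \ A)
    have hd1 : ¬ Deg r q A := fun h => hd (h.of_fac hr hq hA)
    have hd2 : ¬ Deg r q (S \ A) := fun h => hd (h.of_fac hr hq hA.symm)
    have b1 := ih _ hc1 r q A hr hq hp rfl hd1 k1 hk1
    have b2 := ih _ hc2 r q (S \ A) hr hq hp rfl hd2 k2 hk2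
    have hkk : k = k1 + k2 := by
      have h1 := hA.2.1
      have h2 := hA.2.2
      unfold Fac1 at h1 h2
      have : (k : ℤ) = k1 + k2 := by linarith
      exact_mod_cast this
    rw [f_prod hr hq hA, hkk, pow_add]
    apply mul_le_mul b1 b2 (by positivity)
    have := two_pow_pos k1
    linarith

/-- trichotomy -/
lemma tri {n : ℕ} (ih : ∀ m < n, T1 α m) (hr : IsRk r) (hq : IsRk q) (hp : Persp r q)
    (hS : S.card = n) (hc : Conn r q S) (h2 : 2 ≤ S.card) {k : ℕ} (hk1 : 1 ≤ k)
    (hk : r S = q S + k) :
    (2 : ℤ) ^ (k + 1) ≤ f r q S ∨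
      (∃ a ∈ S, ∃ e ∈ S, a ≠ e ∧ r {a, e} = 1) ∨
      (∃ a ∈ S, ∃ e ∈ S, a ≠ e ∧ q ((S.erase e).erase a) < q S) ∨ q S = 0 ∨ r S = S.card := by
  have both : (∃ e, TypeI r q S e ∧ ¬ Deg r q (S.erase e) ∧
      ¬ Deg (con r e) (con q e) (S.erase e)) → (2 : ℤ) ^ (k + 1) ≤ f r q S := by
    rintro ⟨e, heT, hd1, hd2⟩
    have heS := heT.1
    have hre := hc.nonloop hr hq hp h2 heS
    have hqS := hc.noncoloop hr hq hp h2 heS
    have hcard : (S.erase e).card < n := by
      rw [← hS]; exact Finset.card_erase_lt_of_mem heS
    have b1 := ih _ hcard r q (S.erase e) hr hq hp rfl hd1 k (by rw [heT.2.1, hqS, hk])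
    have b2 := ih _ hcard (con r e) (con q e) (S.erase e) (hr.con e) (hq.con e) (hp.con e) rfl hd2
      k (by simp only [con]; rw [Finset.insert_erase heS, hre, heT.2.2, hk]; ring)
    rw [f_rec heS hre hqS, pow_succ]
    linarith
  have hlt : q S < r S := by
    have : (1 : ℤ) ≤ k := by exact_mod_cast hk1
    linarith
  by_cases hT : ∃ e, TypeI r q S e
  · obtain ⟨e, heT⟩ := hT
    by_cases hd1 : Deg r q (S.erase e)
    · obtain ⟨A, hA⟩ := hd1
      rcases ML hr hq hp hc h2 hlt A.card e A rfl heT (Or.inl hA) with h | h | h
      · exact Or.inl (both h)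
      · exact Or.inr (Or.inl h)
      · exact Or.inr (Or.inr (Or.inl h))
    · by_cases hd2 : Deg (con r e) (con q e) (S.erase e)
      · obtain ⟨A, hA⟩ := hd2
        rcases ML hr hq hp hc h2 hlt A.card e A rfl heT (Or.inr hA) with h | h | h
        · exact Or.inl (both h)
        · exact Or.inr (Or.inl h)
        · exact Or.inr (Or.inr (Or.inl h))
      · exact Or.inl (both ⟨e, heT, hd1, hd2⟩)
  · push Not at hT
    rcases no_typeI hr hq hc hT with h | h
    · exact Or.inr (Or.inr (Or.inr (Or.inl h)))
    · exact Or.inr (Or.inr (Or.inr (Or.inr h)))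

lemma con_zero {e : α} (hq : IsRk q) (heS : e ∈ S) (h0 : q S = 0) :
    con q e (S.erase e) = 0 := by
  simp only [con]
  have h1 := hq.mono (Finset.singleton_subset_iff.2 heS)
  have h2 := hq.nonneg {e}
  rw [Finset.insert_erase heS]; linarith

lemma q_sub_zero (hq : IsRk q) (h0 : q S = 0) {X : Finset α} (hX : X ⊆ S) : q X = 0 := by
  have h1 := hq.mono hX
  have h2 := hq.nonneg X
  linarith

lemma Conn1.toConn_left (h : Conn1 r S) : Conn r q S := fun A hA => h A hA.1 hA.2.1

lemma Conn1.toConn_right (h : Conn1 q S) : Conn r q S := fun A hA => h A hA.1 hA.2.2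

/-- data for the case `M' = loops` -/
lemma case_loops (hr : IsRk r) (hq : IsRk q) (hp : Persp r q) (hc : Conn r q S)
    (h2 : 2 ≤ S.card) (h0 : q S = 0) {e : α} (heS : e ∈ S) :
    f r q S = f r q (S.erase e) + f (con r e) (con q e) (S.erase e) ∧
    r (S.erase e) = r S ∧ r {e} = 1 ∧ q (S.erase e) = 0 ∧
    (Conn r q (S.erase e) ∨ Conn (con r e) (con q e) (S.erase e)) ∧ ¬ Deg r q (S.erase e) := by
  have hre := hc.nonloop hr hq hp h2 heS
  have hqS := hc.noncoloop hr hq hp h2 heS
  have hc1 : Conn1 r S := by
    intro A hA hf
    refine hc A ⟨hA, hf, ?_⟩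
    unfold Fac1
    rw [q_sub_zero hq h0 hA, q_sub_zero hq h0 Finset.sdiff_subset, h0]; ring
  refine ⟨f_rec heS hre hqS, ?_, hre, q_sub_zero hq h0 (Finset.erase_subset e S), ?_, ?_⟩
  · by_contra hne
    have h3 := hr.mono (Finset.erase_subset e S)
    have h4 := hr.unit (S.erase e) e
    rw [Finset.insert_erase heS] at h4
    have h5 : r (S.erase e) = r S - 1 := by omega
    rcases hc1 {e} (Finset.singleton_subset_iff.2 heS) (by
      unfold Fac1; rw [Finset.sdiff_singleton_eq_erase]; linarith) with h | h
    · exact absurd h (Finset.singleton_ne_empty e)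
    · rw [← h] at h2; simp at h2
  · rcases tutte hr heS hc1 with h | h
    · exact Or.inl h.toConn_left
    · exact Or.inr h.toConn_left
  · rintro ⟨A, hF, ⟨x, hx⟩, hd⟩
    have hxS := Finset.mem_of_mem_erase (hF.1 hx)
    have h3 := hc.nonloop hr hq hp h2 hxS
    have h4 := hr.mono (Finset.singleton_subset_iff.2 hx)
    have h5 := q_sub_zero hq h0 (hF.1.trans (Finset.erase_subset e S))
    linarith

lemma r_sub_card (hr : IsRk r) (h0 : r S = S.card) {X : Finset α} (hX : X ⊆ S) :
    r X = X.card := by
  have h1 := rk_le_card hr X
  have h2 := rk_le_card hr (S \ X)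
  have h3 := hr.subadd X (S \ X)
  rw [Finset.union_sdiff_of_subset hX] at h3
  have h4 : ((S \ X).card : ℤ) = S.card - X.card := by
    have := Finset.card_sdiff_add_card_eq_card hX
    have : ((S \ X).card : ℤ) + X.card = S.card := by exact_mod_cast this
    linarith
  linarith

lemma con_card (hr : IsRk r) (h0 : r S = S.card) {e : α} (heS : e ∈ S) {X : Finset α}
    (hX : X ⊆ S.erase e) : con r e X = X.card := by
  simp only [con]
  have heX : e ∉ X := fun h => (Finset.mem_erase.1 (hX h)).1 rfl
  rw [r_sub_card hr h0 (Finset.insert_subset heS (hX.trans (Finset.erase_subset e S))),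
    r_sub_card hr h0 (Finset.singleton_subset_iff.2 heS), Finset.card_insert_of_notMem heX]
  simp

/-- data for the case `M` free -/
lemma case_free (hr : IsRk r) (hq : IsRk q) (hp : Persp r q) (hc : Conn r q S)
    (h2 : 2 ≤ S.card) (h0 : r S = S.card) {e : α} (heS : e ∈ S) :
    f r q S = f r q (S.erase e) + f (con r e) (con q e) (S.erase e) ∧
    r (S.erase e) = r S - 1 ∧ r {e} = 1 ∧ q (S.erase e) = q S ∧ q {e} = 1 ∧
    (Conn r q (S.erase e) ∨ Conn (con r e) (con q e) (S.erase e)) ∧
      ¬ Deg (con r e) (con q e) (S.erase e) := by
  have hre := hc.nonloop hr hq hp h2 heS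
  have hqS := hc.noncoloop hr hq hp h2 heS
  have hc1 : Conn1 q S := by
    intro A hA hf
    refine hc A ⟨hA, ?_, hf⟩
    unfold Fac1
    rw [r_sub_card hr h0 hA, r_sub_card hr h0 Finset.sdiff_subset, h0]
    have := Finset.card_sdiff_add_card_eq_card hA
    have : ((S \ A).card : ℤ) + A.card = S.card := by exact_mod_cast this
    linarith
  have hrS : r (S.erase e) = r S - 1 := by
    rw [r_sub_card hr h0 (Finset.erase_subset e S), h0, Finset.card_erase_of_mem heS]
    push_cast [show 1 ≤ S.card by omega]; ring
  have hqe : q {e} = 1 := by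
    by_contra hne
    have h3 : q {e} = 0 := by
      have := hq.sing_le e
      have := hq.nonneg {e}
      omega
    rcases hc1 {e} (Finset.singleton_subset_iff.2 heS) (by
      unfold Fac1; rw [Finset.sdiff_singleton_eq_erase]; linarith) with h | h
    · exact absurd h (Finset.singleton_ne_empty e)
    · rw [← h] at h2; simp at h2
  refine ⟨f_rec heS hre hqS, hrS, hre, hqS, hqe, ?_, ?_⟩
  · rcases tutte hq heS hc1 with h | h
    · exact Or.inl h.toConn_right
    · exact Or.inr h.toConn_right
  · rintro ⟨A, hF, ⟨x, hx⟩, hd⟩
    have hxS := Finset.mem_of_mem_erase (hF.1 hx)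
    have hxe : x ≠ e := (Finset.mem_erase.1 (hF.1 hx)).1
    have h3 := hc.noncoloop hr hq hp h2 hxS
    rw [con_card hr h0 heS hF.1] at hd
    have h4 := rk_le_card (hq.con e) (A.erase x)
    have h5 : ((A.erase x).card : ℤ) = A.card - 1 := by
      rw [Finset.card_erase_of_mem hx]
      have : 1 ≤ A.card := Finset.card_pos.2 ⟨x, hx⟩
      push_cast [this]; ring
    have h6 := (hq.con e).fac_add hF.1 hF.2.2 (Finset.erase_subset x A)
      (le_refl (S.erase e \ A))
    have e1 : A.erase x ∪ (S.erase e \ A) = (S.erase e).erase x := by
      ext y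
      simp only [mem_union, mem_erase, mem_sdiff]
      constructor
      · rintro (h | h)
        · exact ⟨h.1, Finset.mem_erase.1 (hF.1 h.2)⟩
        · exact ⟨fun h' => h.2 (h' ▸ hx), h.1⟩
      · rintro ⟨h, h'⟩
        by_cases hy : y ∈ A
        · exact Or.inl ⟨h, hy⟩
        · exact Or.inr ⟨h', hy⟩
    have e2 : insert e ((S.erase e).erase x) = S.erase x := by
      ext y; simp only [mem_insert, mem_erase]
      constructor
      · rintro (h | h)
        · rw [h]; exact ⟨hxe.symm, heS⟩
        · exact ⟨h.1, h.2.2⟩
      · rintro ⟨h, h'⟩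
        by_cases hy : y = e
        · exact Or.inl hy
        · exact Or.inr ⟨h, hy, h'⟩
    have h7 := hF.2.2
    unfold Fac1 at h7
    rw [e1] at h6
    have h8 : con q e ((S.erase e).erase x) = q S - q {e} := by
      simp only [con]; rw [e2, h3]
    have h9 : con q e (S.erase e) = q S - q {e} := by
      simp only [con]; rw [Finset.insert_erase heS]
    linarith

lemma one_case (hr : IsRk r) (hq : IsRk q) (hp : Persp r q) (hS : S.card = 1) {k : ℕ}
    (hk1 : 1 ≤ k) (hk : r S = q S + k) : k = 1 ∧ f r q S = 2 := by
  obtain ⟨e, rfl⟩ := Finset.card_eq_one.1 hS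
  have h1 := hr.sing_le e
  have h2 := hq.nonneg {e}
  have hk' : (1 : ℤ) ≤ k := by exact_mod_cast hk1
  have h3 : (k : ℤ) = 1 := by omega
  have h4 : k = 1 := by exact_mod_cast h3
  have h5 : r {e} = 1 := by linarith
  have h6 : q {e} = 0 := by linarith
  have e1 : ({e} : Finset α).erase e = ∅ := by simp
  refine ⟨h4, ?_⟩
  rw [f_rec (Finset.mem_singleton_self e) h5 (by rw [e1, hq.empty, h6]), e1, f_empty hr,
    f_empty (hr.con e)]
  norm_num

lemma T2_step {n : ℕ} (ih : ∀ m < n, T1 α m) (ih2 : ∀ m < n, T2 α m) : T2 α n := by
  intro r q S hr hq hp hS hc k hk1 hk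
  have hpos : (0 : ℤ) < k := by exact_mod_cast hk1
  have hS0 : S.card ≠ 0 := by
    intro h
    rw [Finset.card_eq_zero] at h
    rw [h, hr.empty, hq.empty] at hk
    linarith
  by_cases h1 : S.card = 1
  · obtain ⟨h3, h4⟩ := one_case hr hq hp h1 hk1 hk
    rw [h3, h4]; norm_num
  have h2 : 2 ≤ S.card := by omega
  rcases tri ih hr hq hp hS hc h2 hk1 hk with h | ⟨a, haS, e, heS, hae, h⟩ |
      ⟨a, haS, e, heS, hae, h⟩ | h | h
  · linarith
  · obtain ⟨p1, p2, p3, p4⟩ := par_lemma hr hq hp hc h2 haS heS hae h
    rw [p1]
    exact ih2 _ (by rw [← hS]; exact Finset.card_erase_lt_of_mem heS) r q (S.erase e) hr hq hp rfl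
      p2 k hk1 (by rw [p3, p4, hk])
  · obtain ⟨p1, p2, p3, p4⟩ := ser_lemma hr hq hp hc h2 haS heS hae h
    rw [p1]
    exact ih2 _ (by rw [← hS]; exact Finset.card_erase_lt_of_mem heS) (con r e) (con q e)
      (S.erase e) (hr.con e) (hq.con e) (hp.con e) rfl p2 k hk1
      (by simp only [con]; rw [Finset.insert_erase heS, p3, p4, hk]; ring)
  · obtain ⟨e, heS⟩ : S.Nonempty := Finset.card_pos.1 (by omega)
    obtain ⟨c1, c2, c3, c4, c5, c6⟩ := case_loops hr hq hp hc h2 h heS
    have hcard : (S.erase e).card < n := by
      rw [← hS]; exact Finset.card_erase_lt_of_mem heS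
    rw [c1]
    have hcq : con q e (S.erase e) = 0 := con_zero hq heS h
    rcases c5 with c5 | c5
    · have b1 := ih2 _ hcard r q (S.erase e) hr hq hp rfl c5 k hk1 (by rw [c2, c4, hk, h])
      have b2 := (ih _ hcard).nonneg (hr.con e) (hq.con e) (hp.con e) (S := S.erase e) rfl
      linarith
    · have b1 := ih _ hcard r q (S.erase e) hr hq hp rfl c6 k (by rw [c2, c4, hk, h])
      obtain ⟨j, rfl⟩ : ∃ j, k = j + 1 := ⟨k - 1, by omega⟩
      by_cases hj : j = 0
      · subst hj
        have b2 := (ih _ hcard).nonneg (hr.con e) (hq.con e) (hp.con e) (S := S.erase e) rfl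
        norm_num at b1 ⊢
        linarith
      · have b2 := ih2 _ hcard (con r e) (con q e) (S.erase e) (hr.con e) (hq.con e) (hp.con e)
          rfl c5 j (by omega) (by
            rw [hcq]; simp only [con]; rw [Finset.insert_erase heS, c3, hk, h]; push_cast; ring)
        rw [pow_succ]
        linarith
  · obtain ⟨e, heS⟩ : S.Nonempty := Finset.card_pos.1 (by omega)
    obtain ⟨c1, c2, c3, c4, c4', c5, c6⟩ := case_free hr hq hp hc h2 h heS
    have hcard : (S.erase e).card < n := by
      rw [← hS]; exact Finset.card_erase_lt_of_mem heS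
    rw [c1]
    have hkc : con r e (S.erase e) = con q e (S.erase e) + k := by
      simp only [con]; rw [Finset.insert_erase heS, c3, c4', hk]; ring
    rcases c5 with c5 | c5
    · have b1 := ih _ hcard (con r e) (con q e) (S.erase e) (hr.con e) (hq.con e) (hp.con e)
        rfl c6 k hkc
      obtain ⟨j, rfl⟩ : ∃ j, k = j + 1 := ⟨k - 1, by omega⟩
      by_cases hj : j = 0
      · subst hj
        have b2 := (ih _ hcard).nonneg hr hq hp (S := S.erase e) rfl
        norm_num at b1 ⊢
        linarith
      · have b2 := ih2 _ hcard r q (S.erase e) hr hq hp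
          rfl c5 j (by omega) (by rw [c2, c4, hk]; push_cast; ring)
        rw [pow_succ]
        linarith
    · have b1 := ih2 _ hcard (con r e) (con q e) (S.erase e) (hr.con e) (hq.con e) (hp.con e)
        rfl c5 k hk1 hkc
      have b2 := (ih _ hcard).nonneg hr hq hp (S := S.erase e) rfl
      linarith

theorem T12 (n : ℕ) : T1 α n ∧ T2 α n := by
  induction n using Nat.strong_induction_on with
  | _ n ih =>
    have h2 := T2_step (fun m hm => (ih m hm).1) (fun m hm => (ih m hm).2)
    exact ⟨T1_of_T2 h2 (fun m hm => (ih m hm).1), h2⟩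

/-- Equality analysis -/
theorem equality (hr : IsRk r) (hq : IsRk q) (hp : Persp r q)
    (hc : Conn r q S) (h2 : 2 ≤ S.card) {k : ℕ} (hk1 : 1 ≤ k)
    (hk : r S = q S + k) (hf : f r q S = 2 ^ (k + 1) - 2) :
      (∃ a ∈ S, ∃ e ∈ S, a ≠ e ∧ r {a, e} = 1) ∨
      (∃ a ∈ S, ∃ e ∈ S, a ≠ e ∧ q ((S.erase e).erase a) < q S) ∨
      (q S = 0 ∧ ∀ e ∈ S, r (S.erase e) = (S.erase e).card ∧ r S = r (S.erase e)) ∨
      (r S = S.card ∧ q S = 1 ∧ ∀ e ∈ S, q {e} = 1) := by
  have t1 : ∀ m, T1 α m := fun m => (T12 m).1
  have t2 : ∀ m, T2 α m := fun m => (T12 m).2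
  by_cases hpar : ∃ a ∈ S, ∃ e ∈ S, a ≠ e ∧ r {a, e} = 1
  · exact Or.inl hpar
  by_cases hser : ∃ a ∈ S, ∃ e ∈ S, a ≠ e ∧ q ((S.erase e).erase a) < q S
  · exact Or.inr (Or.inl hser)
  right; right
  push Not at hpar hser
  rcases tri (fun m _ => t1 m) hr hq hp rfl hc h2 hk1 hk with h | ⟨a, haS, e, heS, hae, h⟩ |
      ⟨a, haS, e, heS, hae, h⟩ | h | h
  · linarith
  · exact absurd h (hpar a haS e heS hae)
  · exact absurd h (not_lt.2 (hser a haS e heS hae))
  · left
    refine ⟨h, fun e heS => ?_⟩
    obtain ⟨c1, c2, c3, c4, c5, c6⟩ := case_loops hr hq hp hc h2 h heS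
    have hcq : con q e (S.erase e) = 0 := con_zero hq heS h
    have hd2 : ¬ Deg (con r e) (con q e) (S.erase e) := by
      rintro ⟨A, hF, ⟨x, hx⟩, hd⟩
      have hxS := Finset.mem_of_mem_erase (hF.1 hx)
      have hxe : x ≠ e := (Finset.mem_erase.1 (hF.1 hx)).1
      have h3 := (hq.con e).mono hF.1
      have h4 := (hq.con e).nonneg A
      have h5 := (hr.con e).mono (Finset.singleton_subset_iff.2 hx)
      have h6 := (hr.con e).nonneg {x}
      have h7 : con r e {x} = 0 := by linarith
      simp only [con] at h7
      apply hpar x hxS e heS hxe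
      have : ({x, e} : Finset α) = insert e {x} := by
        ext y; simp only [mem_insert, mem_singleton]; tauto
      rw [this]; linarith
    have b1 := t1 _ r q (S.erase e) hr hq hp rfl c6 k (by rw [c2, c4, hk, h])
    obtain ⟨j, rfl⟩ : ∃ j, k = j + 1 := ⟨k - 1, by omega⟩
    have hkj : con r e (S.erase e) = con q e (S.erase e) + (j : ℤ) := by
      rw [hcq]; simp only [con]; rw [Finset.insert_erase heS, c3, hk, h]; push_cast; ring
    have b2 := t1 _ (con r e) (con q e) (S.erase e) (hr.con e) (hq.con e) (hp.con e) rfl hd2 j hkj
    have hj1 := two_pow_pos j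
    rcases c5 with c5 | c5
    · have b3 := t2 _ r q (S.erase e) hr hq hp rfl c5 (j + 1) (by omega) (by rw [c2, c4, hk, h])
      linarith
    · by_cases hj : j = 0
      · subst hj
        norm_num at b1 b2 hf
        linarith
      · have b3 := t2 _ (con r e) (con q e) (S.erase e) (hr.con e) (hq.con e) (hp.con e)
          rfl c5 j (by omega) hkj
        have hle : f r q (S.erase e) ≤ 2 ^ (j + 1) := by
          rw [pow_succ 2 (j + 1)] at hf
          linarith
        refine ⟨?_, c2.symm⟩
        -- every element of `S \ e` is a coloop of `M \ e`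
        have hcol : ∀ x ∈ S.erase e, r ((S.erase e).erase x) < r (S.erase e) := by
          intro x hx
          by_contra hne
          have hxS := Finset.mem_of_mem_erase hx
          have hrx : r ((S.erase e).erase x) = r (S.erase e) :=
            le_antisymm (hr.mono (Finset.erase_subset _ _)) (not_lt.1 hne)
          have hx1 := hc.nonloop hr hq hp h2 hxS
          have hq0 := q_sub_zero hq h
            ((Finset.erase_subset x (S.erase e)).trans (Finset.erase_subset e S))
          have d1 : ¬ Deg r q ((S.erase e).erase x) := by
            rintro ⟨A, hF, ⟨y, hy⟩, hd⟩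
            have hyS := Finset.mem_of_mem_erase (Finset.mem_of_mem_erase (hF.1 hy))
            have h3 := hc.nonloop hr hq hp h2 hyS
            have h4 := hr.mono (Finset.singleton_subset_iff.2 hy)
            have h5 := hq.mono hF.1
            have h6 := hq.nonneg A
            linarith
          have hq0' : con q x ((S.erase e).erase x) = 0 := by
            simp only [con]
            rw [Finset.insert_erase hx, c4]
            have := q_sub_zero hq h (Finset.singleton_subset_iff.2 hxS)
            linarith
          have d2 : ¬ Deg (con r x) (con q x) ((S.erase e).erase x) := by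
            rintro ⟨A, hF, ⟨y, hy⟩, hd⟩
            have hyS := Finset.mem_of_mem_erase (Finset.mem_of_mem_erase (hF.1 hy))
            have hyx : y ≠ x := (Finset.mem_erase.1 (hF.1 hy)).1
            have h3 := (hq.con x).mono hF.1
            have h4 := (hq.con x).nonneg A
            have h5 := (hr.con x).mono (Finset.singleton_subset_iff.2 hy)
            have h6 := (hr.con x).nonneg {y}
            have h7 : con r x {y} = 0 := by linarith
            simp only [con] at h7
            apply hpar y hyS x hxS hyx
            have : ({y, x} : Finset α) = insert x {y} := by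
              ext z; simp only [mem_insert, mem_singleton]; tauto
            rw [this]; linarith
          have b4 := t1 _ r q ((S.erase e).erase x) hr hq hp rfl d1 (j + 1) (by
            rw [hrx, c2, hq0, hk, h])
          have b5 := t1 _ (con r x) (con q x) ((S.erase e).erase x) (hr.con x) (hq.con x)
            (hp.con x) rfl d2 j (by
              rw [hq0']; simp only [con]; rw [Finset.insert_erase hx, hx1, c2, hk, h]
              push_cast; ring)
          have b6 := f_rec (r := r) (q := q) hx hx1 (by rw [hq0, c4])
          linarith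
        have h8 := rk_coloops hr (S := S.erase e) (S.erase e) (le_refl _) hcol
        rw [Finset.sdiff_self, hr.empty] at h8
        have h9 := rk_le_card hr (S.erase e)
        linarith
  · right
    refine ⟨h, ?_⟩
    have hall : ∀ e ∈ S, q S = 1 ∧ q {e} = 1 := by
      intro e heS
      obtain ⟨c1, c2, c3, c4, c4', c5, c6⟩ := case_free hr hq hp hc h2 h heS
      have hkc : con r e (S.erase e) = con q e (S.erase e) + k := by
        simp only [con]; rw [Finset.insert_erase heS, c3, c4', hk]; ring
      have hd1 : ¬ Deg r q (S.erase e) := by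
        rintro ⟨A, hF, ⟨x, hx⟩, hd⟩
        have hxS := Finset.mem_of_mem_erase (hF.1 hx)
        have hxe : x ≠ e := (Finset.mem_erase.1 (hF.1 hx)).1
        rw [r_sub_card hr h (hF.1.trans (Finset.erase_subset e S))] at hd
        have h4 := rk_le_card hq (A.erase x)
        have h5 : ((A.erase x).card : ℤ) = A.card - 1 := by
          rw [Finset.card_erase_of_mem hx]
          have : 1 ≤ A.card := Finset.card_pos.2 ⟨x, hx⟩
          push_cast [this]; ring
        have h6 := hq.fac_add hF.1 hF.2.2 (Finset.erase_subset x A) (le_refl (S.erase e \ A))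
        have e1 : A.erase x ∪ (S.erase e \ A) = (S.erase e).erase x := by
          ext y
          simp only [mem_union, mem_erase, mem_sdiff]
          constructor
          · rintro (h | h)
            · exact ⟨h.1, Finset.mem_erase.1 (hF.1 h.2)⟩
            · exact ⟨fun h' => h.2 (h' ▸ hx), h.1⟩
          · rintro ⟨h, h'⟩
            by_cases hy : y ∈ A
            · exact Or.inl ⟨h, hy⟩
            · exact Or.inr ⟨h', hy⟩
        rw [e1] at h6
        have h7 := hF.2.2
        unfold Fac1 at h7
        have h8 := hser x hxS e heS hxe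
        linarith
      have b1 := t1 _ (con r e) (con q e) (S.erase e) (hr.con e) (hq.con e) (hp.con e)
        rfl c6 k hkc
      obtain ⟨j, rfl⟩ : ∃ j, k = j + 1 := ⟨k - 1, by omega⟩
      have hkj : r (S.erase e) = q (S.erase e) + (j : ℤ) := by
        rw [c2, c4, hk]; push_cast; ring
      have b2 := t1 _ r q (S.erase e) hr hq hp rfl hd1 j hkj
      have hj1 := two_pow_pos j
      rcases c5 with c5 | c5
      · by_cases hj : j = 0
        · subst hj
          norm_num at b1 b2 hf
          linarith
        · have b3 := t2 _ r q (S.erase e) hr hq hp rfl c5 j (by omega) hkj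
          have hle : f (con r e) (con q e) (S.erase e) ≤ 2 ^ (j + 1) := by
            rw [pow_succ 2 (j + 1)] at hf
            linarith
          have hlo : ∀ x ∈ S.erase e, con q e {x} = 0 := by
            intro x hx
            by_contra hne
            have hxS := Finset.mem_of_mem_erase hx
            have hxe := (Finset.mem_erase.1 hx).1
            have hqx : con q e {x} = 1 := by
              have := (hq.con e).sing_le x
              have := (hq.con e).nonneg {x}
              omega
            have hrx : con r e {x} = 1 := by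
              have h3 := (hp.con e).d_nonneg (hr.con e) (hq.con e) {x}
              have h4 := (hr.con e).sing_le x
              linarith
            have e2 : insert e ((S.erase e).erase x) = S.erase x := by
              ext y; simp only [mem_insert, mem_erase]
              constructor
              · rintro (h | h)
                · rw [h]; exact ⟨hxe.symm, heS⟩
                · exact ⟨h.1, h.2.2⟩
              · rintro ⟨h, h'⟩
                by_cases hy : y = e
                · exact Or.inl hy
                · exact Or.inr ⟨h, hy, h'⟩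
            have hqxS := hc.noncoloop hr hq hp h2 hxS
            have hcol : con q e ((S.erase e).erase x) = con q e (S.erase e) := by
              simp only [con]
              rw [e2, Finset.insert_erase heS, hqxS]
            have hrec := f_rec (r := con r e) (q := con q e) hx hrx hcol
            -- P/e\x
            have hcr : con r e (S.erase e) = (S.erase e).card := con_card hr h heS (le_refl _)
            have d1 : ¬ Deg (con r e) (con q e) ((S.erase e).erase x) := by
              rintro ⟨A, hF, ⟨y, hy⟩, hd⟩
              have hyS' := Finset.mem_of_mem_erase (hF.1 hy)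
              have hyS := Finset.mem_of_mem_erase hyS'
              have hye : y ≠ e := (Finset.mem_erase.1 hyS').1
              have hyx : y ≠ x := (Finset.mem_erase.1 (hF.1 hy)).1
              rw [con_card hr h heS (hF.1.trans (Finset.erase_subset _ _))] at hd
              have h4 := rk_le_card (hq.con e) (A.erase y)
              have h5 : ((A.erase y).card : ℤ) = A.card - 1 := by
                rw [Finset.card_erase_of_mem hy]
                have : 1 ≤ A.card := Finset.card_pos.2 ⟨y, hy⟩
                push_cast [this]; ring
              have h6 := (hq.con e).fac_add hF.1 hF.2.2 (Finset.erase_subset y A)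
                (le_refl ((S.erase e).erase x \ A))
              have e1 : A.erase y ∪ ((S.erase e).erase x \ A) =
                  ((S.erase e).erase x).erase y := by
                ext z
                simp only [mem_union, mem_erase, mem_sdiff]
                constructor
                · rintro (h | h)
                  · have := hF.1 h.2
                    simp only [mem_erase] at this
                    exact ⟨h.1, this⟩
                  · exact ⟨fun h' => h.2 (h' ▸ hy), h.1⟩
                · rintro ⟨h, h'⟩
                  by_cases hz : z ∈ A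
                  · exact Or.inl ⟨h, hz⟩
                  · exact Or.inr ⟨h', hz⟩
              rw [e1] at h6
              have h7 := hF.2.2
              unfold Fac1 at h7
              have e3 : insert e (((S.erase e).erase x).erase y) = (S.erase x).erase y := by
                ext z; simp only [mem_insert, mem_erase]
                constructor
                · rintro (h | h)
                  · rw [h]; exact ⟨hye.symm, hxe.symm, heS⟩
                  · exact ⟨h.1, h.2.1, h.2.2.2⟩
                · rintro ⟨h, h', h''⟩
                  by_cases hz : z = e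
                  · exact Or.inl hz
                  · exact Or.inr ⟨h, h', hz, h''⟩
              have h8 := hser y hyS x hxS hyx
              have h9 : con q e (((S.erase e).erase x).erase y) =
                  q ((S.erase x).erase y) - q {e} := by
                simp only [con]; rw [e3]
              have h10 : con q e ((S.erase e).erase x) = q S - q {e} := by
                rw [hcol]; simp only [con]; rw [Finset.insert_erase heS]
              linarith
            have hcr2 : con r e ((S.erase e).erase x) = (S.erase e).card - 1 := by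
              rw [con_card hr h heS (Finset.erase_subset _ _), Finset.card_erase_of_mem hx]
              have : 1 ≤ (S.erase e).card := Finset.card_pos.2 ⟨x, hx⟩
              push_cast [this]; ring
            have b4 := t1 _ (con r e) (con q e) ((S.erase e).erase x) (hr.con e) (hq.con e)
              (hp.con e) rfl d1 j (by
                rw [hcr2, hcol, ← hcr, hkc]; push_cast; ring)
            -- P/e/x
            have d2 : ¬ Deg (con (con r e) x) (con (con q e) x) ((S.erase e).erase x) := by
              rintro ⟨A, hF, ⟨y, hy⟩, hd⟩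
              have hyS' := Finset.mem_of_mem_erase (hF.1 hy)
              have hyS := Finset.mem_of_mem_erase hyS'
              have hye : y ≠ e := (Finset.mem_erase.1 hyS').1
              have hyx : y ≠ x := (Finset.mem_erase.1 (hF.1 hy)).1
              rw [con_card (hr.con e) hcr hx hF.1] at hd
              have h4 := rk_le_card ((hq.con e).con x) (A.erase y)
              have h5 : ((A.erase y).card : ℤ) = A.card - 1 := by
                rw [Finset.card_erase_of_mem hy]
                have : 1 ≤ A.card := Finset.card_pos.2 ⟨y, hy⟩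
                push_cast [this]; ring
              have h6 := ((hq.con e).con x).fac_add hF.1 hF.2.2 (Finset.erase_subset y A)
                (le_refl ((S.erase e).erase x \ A))
              have e1 : A.erase y ∪ ((S.erase e).erase x \ A) =
                  ((S.erase e).erase x).erase y := by
                ext z
                simp only [mem_union, mem_erase, mem_sdiff]
                constructor
                · rintro (h | h)
                  · have := hF.1 h.2
                    simp only [mem_erase] at this
                    exact ⟨h.1, this⟩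
                  · exact ⟨fun h' => h.2 (h' ▸ hy), h.1⟩
                · rintro ⟨h, h'⟩
                  by_cases hz : z ∈ A
                  · exact Or.inl ⟨h, hz⟩
                  · exact Or.inr ⟨h', hz⟩
              rw [e1] at h6
              have h7 := hF.2.2
              unfold Fac1 at h7
              have e3 : insert e (insert x (((S.erase e).erase x).erase y)) = S.erase y := by
                ext z; simp only [mem_insert, mem_erase]
                constructor
                · rintro (h | h | h)
                  · rw [h]; exact ⟨hye.symm, heS⟩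
                  · rw [h]; exact ⟨hyx.symm, hxS⟩
                  · exact ⟨h.1, h.2.2.2⟩
                · rintro ⟨h, h'⟩
                  by_cases hz : z = e
                  · exact Or.inl hz
                  · by_cases hz' : z = x
                    · exact Or.inr (Or.inl hz')
                    · exact Or.inr (Or.inr ⟨h, hz', hz, h'⟩)
              have h8 := hc.noncoloop hr hq hp h2 hyS
              have h9 : con (con q e) x (((S.erase e).erase x).erase y) =
                  q (S.erase y) - q {e} - con q e {x} := by
                simp only [con]; rw [e3]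
              have h10 : con (con q e) x ((S.erase e).erase x) = q S - q {e} - con q e {x} := by
                simp only [con]; rw [Finset.insert_erase hx, Finset.insert_erase heS]
              linarith
            have b5 := t1 _ (con (con r e) x) (con (con q e) x) ((S.erase e).erase x)
              ((hr.con e).con x) ((hq.con e).con x) ((hp.con e).con x) rfl d2 (j + 1) (by
                have g1 : con (con r e) x ((S.erase e).erase x) =
                    con r e (S.erase e) - con r e {x} := by
                  show con r e (insert x ((S.erase e).erase x)) - con r e {x} = _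
                  rw [Finset.insert_erase hx]
                have g2 : con (con q e) x ((S.erase e).erase x) =
                    con q e (S.erase e) - con q e {x} := by
                  show con q e (insert x ((S.erase e).erase x)) - con q e {x} = _
                  rw [Finset.insert_erase hx]
                rw [g1, g2, hkc, hrx, hqx]; ring)
            linarith
          have h8 := rk_loops (hq.con e) (S.erase e) hlo
          simp only [con] at h8
          rw [Finset.insert_erase heS] at h8
          exact ⟨by linarith, c4'⟩
      · have b3 := t2 _ (con r e) (con q e) (S.erase e) (hr.con e) (hq.con e) (hp.con e)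
          rfl c5 (j + 1) (by omega) hkc
        linarith
    obtain ⟨e, heS⟩ : S.Nonempty := Finset.card_pos.1 (by omega)
    exact ⟨(hall e heS).1, fun x hx => (hall x hx).2⟩

end Pool.Agent.Helper496.PT
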