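import Pool.Agent.Helper496.PerspDefs
import Pool.Agent.Helper496.PtMain

set_option autoImplicit false

/-!
# Translation between Mathlib matroids and rank functions on finite sets
-/

namespace Pool.Agent.Helper496.MP321

open Set

universe u
variable {α : Type u}

/-- integer valued rank function on finsets -/
noncomputable def zr (M : Matroid α) (X : Finset α) : ℤ := (rk M (X : Set α) : ℤ)

theorem eRk_coe (M : Matroid α) {X : Set α} (hX : X.Finite) : M.eRk X = (rk M X : ℕ∞) := by
  have h : M.eRk X ≠ ⊤ :=
    ne_top_of_le_ne_top (encard_ne_top_iff.mpr hX) (M.eRk_le_encard X)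
  unfold rk; rw [ENat.natCast_toNat h]

theorem rk_inter_ground (M : Matroid α) (X : Set α) : rk M (X ∩ M.E) = rk M X := by
  unfold rk; rw [M.eRk_inter_ground]

theorem zr_isRk [DecidableEq α] (M : Matroid α) : PT.IsRk (zr M) where
  empty := by simp [zr, rk]
  mono := by
    intro X Y hXY
    have h := M.eRk_mono (Finset.coe_subset.mpr hXY)
    rw [eRk_coe M X.finite_toSet, eRk_coe M Y.finite_toSet] at h
    unfold zr; exact_mod_cast h
  unit := by
    intro X e
    have h := M.eRk_insert_le_add_one e (X : Set α)
    rw [← Finset.coe_insert, eRk_coe M (Finset.finite_toSet _), eRk_coe M X.finite_toSet] at h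
    unfold zr; exact_mod_cast h
  sub := by
    intro X Y
    have h := M.eRk_inter_add_eRk_union_le (X : Set α) (Y : Set α)
    rw [← Finset.coe_inter, ← Finset.coe_union, eRk_coe M (Finset.finite_toSet _),
      eRk_coe M (Finset.finite_toSet _), eRk_coe M (Finset.finite_toSet _),
      eRk_coe M (Finset.finite_toSet _)] at h
    have h' : rk M ((X ∩ Y : Finset α) : Set α) + rk M ((X ∪ Y : Finset α) : Set α) ≤
        rk M (X : Set α) + rk M (Y : Set α) := by exact_mod_cast h
    unfold zr
    omega

/-- closures -/
theorem IsPerspective.closure_subset {M M' : Matroid α} (h : IsPerspective M M') (X : Set α) :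
    M.closure X ⊆ M'.closure X := by
  have h1 : X ∩ M.E ⊆ M'.closure X := by
    rw [← h.ground, ← Matroid.closure_inter_ground]
    exact M'.subset_closure _ inter_subset_right
  rw [← Matroid.closure_inter_ground]
  have h2 := M.closure_subset_closure h1
  rwa [(h.flat _ (Matroid.isFlat_closure X)).closure] at h2

theorem isPerspective_of_closure {M M' : Matroid α} (hfin : M.E.Finite) (hE : M'.E = M.E)
    (h : ∀ X, X ⊆ M.E → M.closure X ⊆ M'.closure X) : IsPerspective M M' where
  finite := hfin
  ground := hE
  flat F hF := by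
    have hFE : F ⊆ M.E := hE ▸ hF.subset_ground
    rw [Matroid.isFlat_iff_closure_eq]
    apply Subset.antisymm
    · exact (h F hFE).trans hF.closure.subset
    · exact M.subset_closure F hFE

theorem IsPerspective.delete {M M' : Matroid α} (h : IsPerspective M M') (f : α) :
    IsPerspective (M.delete {f}) (M'.delete {f}) := by
  refine isPerspective_of_closure (h.finite.subset sdiff_subset) ?_ ?_
  · rw [Matroid.delete_ground, Matroid.delete_ground, h.ground]
  · intro X _
    rw [Matroid.delete_closure_eq, Matroid.delete_closure_eq]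
    exact sdiff_subset_sdiff_left (h.closure_subset _)

theorem IsPerspective.contract {M M' : Matroid α} (h : IsPerspective M M') (f : α) :
    IsPerspective (M.contract {f}) (M'.contract {f}) := by
  refine isPerspective_of_closure (h.finite.subset sdiff_subset) ?_ ?_
  · rw [Matroid.contract_ground, Matroid.contract_ground, h.ground]
  · intro X _
    rw [Matroid.contract_closure_eq, Matroid.contract_closure_eq]
    exact sdiff_subset_sdiff_left (h.closure_subset _)

theorem zr_insert_le [DecidableEq α] {M M' : Matroid α} (h : IsPerspective M M') (X : Finset α)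
    (e : α) : zr M' (insert e X) - zr M' X ≤ zr M (insert e X) - zr M X := by
  have hr := zr_isRk M
  have hq := zr_isRk M'
  by_cases heE : e ∈ M.E
  · by_cases hcl : e ∈ M.closure (X : Set α)
    · have hcl' := h.closure_subset _ hcl
      have e1 : zr M' (insert e X) = zr M' X := by
        unfold zr rk
        rw [Finset.coe_insert]
        congr 2
        rw [← M'.eRk_closure_eq (insert e (X : Set α)), ← M'.eRk_closure_eq (X : Set α)]
        congr 1
        exact Matroid.closure_insert_eq_of_mem_closure hcl'
      have := hr.mono (Finset.subset_insert e X)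
      linarith
    · have e1 : zr M (insert e X) = zr M X + 1 := by
        have := M.eRk_insert_eq_add_one (X := (X : Set α)) ⟨heE, hcl⟩
        rw [← Finset.coe_insert, eRk_coe M (Finset.finite_toSet _),
          eRk_coe M (Finset.finite_toSet _)] at this
        unfold zr; exact_mod_cast this
      have := hq.unit X e
      linarith
  · have e1 : zr M' (insert e X) = zr M' X := by
      unfold zr rk
      rw [Finset.coe_insert, M'.eRk_insert_of_notMem_ground _ (by rw [h.ground]; exact heE)]
    have := hr.mono (Finset.subset_insert e X)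
    linarith

theorem zr_persp [DecidableEq α] {M M' : Matroid α} (h : IsPerspective M M') :
    PT.Persp (zr M) (zr M') := by
  intro X Y hXY
  have key : ∀ Z : Finset α, zr M' (X ∪ Z) - zr M' X ≤ zr M (X ∪ Z) - zr M X := by
    intro Z
    induction Z using Finset.induction_on with
    | empty => simp
    | insert a Z _ ih =>
      have := zr_insert_le h (X ∪ Z) a
      rw [Finset.union_insert]
      linarith
  have := key Y
  rwa [Finset.union_eq_right.mpr hXY] at this

theorem zr_delete (M : Matroid α) {X : Finset α} {e : α} (he : e ∉ X) :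
    zr (M.delete {e}) X = zr M X := by
  unfold zr rk
  rw [Matroid.delete_eq_restrict, Matroid.restrict_eRk_eq']
  congr 2
  rw [← M.eRk_inter_ground (X : Set α)]
  congr 1
  ext x
  simp only [mem_inter_iff, Finset.mem_coe, mem_sdiff, mem_singleton_iff]
  constructor
  · rintro ⟨h1, h2, _⟩; exact ⟨h1, h2⟩
  · rintro ⟨h1, h2⟩; exact ⟨h1, h2, fun h => he (h ▸ h1)⟩

theorem zr_dual [DecidableEq α] (M : Matroid α) {E0 X : Finset α} (hE : (E0 : Set α) = M.E)
    (hX : X ⊆ E0) : zr (Matroid.dual M) X = zr M (E0 \ X) + X.card - zr M E0 := by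
  have hXE : (X : Set α) ⊆ M.E := hE ▸ Finset.coe_subset.mpr hX
  have h := M.eRk_dual_add_eRank (X : Set α) hXE
  have hrank : M.eRank = (rk M (E0 : Set α) : ℕ∞) := by
    rw [← eRk_coe M E0.finite_toSet, hE, M.eRk_ground]
  rw [hrank, eRk_coe _ X.finite_toSet, ← hE, ← Finset.coe_sdiff, eRk_coe _ (Finset.finite_toSet _),
    encard_coe_eq_coe_finsetCard] at h
  have h' : rk (Matroid.dual M) (X : Set α) + rk M (E0 : Set α) =
      rk M ((E0 \ X : Finset α) : Set α) + X.card := by exact_mod_cast h
  unfold zr
  omega

theorem zr_contract [DecidableEq α] (M : Matroid α) {E0 X : Finset α} {e : α}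
    (hE : (E0 : Set α) = M.E) (he : e ∈ E0) (hX : X ⊆ E0.erase e) :
    zr (M.contract {e}) X = PT.con (zr M) e X := by
  have heX : e ∉ X := fun h => Finset.notMem_erase e E0 (hX h)
  have h0 : M.contract {e} = Matroid.dual ((Matroid.dual M).delete {e}) := rfl
  have hE' : ((E0.erase e : Finset α) : Set α) = ((Matroid.dual M).delete {e}).E := by
    rw [Matroid.delete_ground, Matroid.dual_ground, ← hE, Finset.coe_erase]
  rw [h0, zr_dual _ hE' hX, zr_delete _ (fun h => Finset.notMem_erase e E0 (Finset.mem_sdiff.mp h).1),
    zr_delete _ (Finset.notMem_erase e E0),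
    zr_dual M hE (Finset.sdiff_subset.trans (Finset.erase_subset e E0)),
    zr_dual M hE (Finset.erase_subset e E0)]
  have e1 : E0 \ (E0.erase e \ X) = insert e X := by
    ext x; simp only [Finset.mem_sdiff, Finset.mem_erase, Finset.mem_insert]
    constructor
    · rintro ⟨h1, h2⟩
      by_cases hxe : x = e
      · exact Or.inl hxe
      · right; by_contra hxX; exact h2 ⟨⟨hxe, h1⟩, hxX⟩
    · rintro (rfl | h1)
      · exact ⟨he, fun h => h.1.1 rfl⟩
      · exact ⟨Finset.mem_of_mem_erase (hX h1), fun h => h.2 h1⟩
  have e2 : E0 \ E0.erase e = {e} := by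
    ext x; simp only [Finset.mem_sdiff, Finset.mem_erase, Finset.mem_singleton]
    constructor
    · rintro ⟨h1, h2⟩; by_contra hxe; exact h2 ⟨hxe, h1⟩
    · rintro rfl; exact ⟨he, fun h => h.1 rfl⟩
  have e3 : ((E0.erase e \ X).card : ℤ) = (E0.erase e).card - X.card := by
    rw [Finset.card_sdiff_of_subset hX]
    have := Finset.card_le_card hX
    push_cast [Nat.cast_sub this]
    ring
  rw [e1, e2, e3]
  simp only [PT.con]
  ring

/-- the Tutte polynomial at `(0,0,1)` -/
theorem tutte_eq_f [DecidableEq α] {M M' : Matroid α} (h : IsPerspective M M') {E0 : Finset α}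
    (hE : (E0 : Set α) = M.E) : tutte M M' 0 0 1 = PT.f (zr M) (zr M') E0 := by
  have hr := zr_isRk M
  have hq := zr_isRk M'
  have hset : 𝒫 M.E = (fun X : Finset α => (X : Set α)) '' (E0.powerset : Set (Finset α)) := by
    ext X
    simp only [mem_powerset_iff, Finset.coe_powerset, mem_image, mem_preimage]
    constructor
    · intro hX
      have hfin : X.Finite := h.finite.subset hX
      refine ⟨hfin.toFinset, ?_, by simp⟩
      rw [← hE] at hX
      simpa using hX
    · rintro ⟨Y, hY, rfl⟩
      rw [← hE]
      exact hY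
  unfold tutte
  rw [hset, finsum_mem_image (Finset.coe_injective.injOn), finsum_mem_coe_finset]
  unfold PT.f
  refine Finset.sum_congr rfl fun X hX => ?_
  rw [Finset.mem_powerset] at hX
  have h1 : rk M' (X : Set α) ≤ rk M' M.E := by
    have := hq.mono hX
    unfold zr at this
    rw [hE] at this
    exact_mod_cast this
  have h2 : rk M (X : Set α) ≤ X.card := by
    have := PT.rk_le_card hr X
    unfold zr at this
    exact_mod_cast this
  rw [ncard_coe_finset]
  have e1 : zr M' E0 - zr M' X + (X.card : ℤ) - zr M X =
      (((rk M' M.E - rk M' (X : Set α)) + (X.card - rk M (X : Set α)) : ℕ) : ℤ) := by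
    unfold zr
    rw [hE]
    omega
  rw [e1]
  unfold PT.sg
  rw [Int.coe_negOnePow_natCast]
  simp only [zero_sub, one_pow, mul_one, pow_add]

theorem f_congr [DecidableEq α] {r q r' q' : Finset α → ℤ} {S : Finset α}
    (hr : ∀ X, X ⊆ S → r X = r' X) (hq : ∀ X, X ⊆ S → q X = q' X) :
    PT.f r q S = PT.f r' q' S := by
  unfold PT.f
  refine Finset.sum_congr rfl fun X hX => ?_
  rw [Finset.mem_powerset] at hX
  rw [hr X hX, hq X hX, hq S (Finset.Subset.refl S)]

theorem fac_congr [DecidableEq α] {r q r' q' : Finset α → ℤ} {S A : Finset α}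
    (hr : ∀ X, X ⊆ S → r X = r' X) (hq : ∀ X, X ⊆ S → q X = q' X) (h : PT.Fac r q S A) :
    PT.Fac r' q' S A := by
  obtain ⟨h1, h2, h3⟩ := h
  refine ⟨h1, ?_, ?_⟩
  · unfold PT.Fac1 at h2 ⊢
    rw [← hr A h1, ← hr _ Finset.sdiff_subset, ← hr S (Finset.Subset.refl S)]
    exact h2
  · unfold PT.Fac1 at h3 ⊢
    rw [← hq A h1, ← hq _ Finset.sdiff_subset, ← hq S (Finset.Subset.refl S)]
    exact h3

theorem conn_congr [DecidableEq α] {r q r' q' : Finset α → ℤ} {S : Finset α}
    (hr : ∀ X, X ⊆ S → r X = r' X) (hq : ∀ X, X ⊆ S → q X = q' X) (h : PT.Conn r q S) :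
    PT.Conn r' q' S := fun A hA =>
  h A (fac_congr (fun X hX => (hr X hX).symm) (fun X hX => (hq X hX).symm) hA)

/-- direct sums and ranks -/
theorem directSum_iff [DecidableEq α] (M : Matroid α) {E0 A : Finset α} (hE : (E0 : Set α) = M.E)
    (hA : A ⊆ E0) :
    M = (M.restrict (A : Set α)).disjointSum (M.delete (A : Set α))
      (disjoint_restrict_delete M A) ↔
      PT.Fac1 (zr M) E0 A := by
  have hr := zr_isRk M
  have hAE : (A : Set α) ⊆ M.E := hE ▸ Finset.coe_subset.mpr hA
  constructor
  · intro h
    -- take a base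
    obtain ⟨B, hB⟩ := M.exists_isBase
    have hB' := hB
    rw [h, Matroid.disjointSum_isBase_iff] at hB'
    obtain ⟨hB1, hB2, _⟩ := hB'
    have hBE : B ⊆ M.E := hB.subset_ground
    have hBfin : B.Finite := (hE ▸ E0.finite_toSet : M.E.Finite).subset hBE
    have e1 : (B ∩ (A : Set α)).encard = M.eRk (A : Set α) := by
      have := hB1.encard_eq_eRank
      rwa [Matroid.eRank_restrict] at this
    have e2 : (B ∩ (M.E \ (A : Set α))).encard = M.eRk (M.E \ (A : Set α)) := by
      have := hB2.encard_eq_eRank
      rw [Matroid.delete_eq_restrict, Matroid.eRank_restrict] at this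
      exact this
    have e3 : B.encard = M.eRank := hB.encard_eq_eRank
    have e4 : (B ∩ (A : Set α)).encard + (B ∩ (M.E \ (A : Set α))).encard = B.encard := by
      have : B ∩ (M.E \ (A : Set α)) = B \ (A : Set α) := by
        ext x; simp only [mem_inter_iff, mem_sdiff]
        constructor
        · rintro ⟨h1, _, h3⟩; exact ⟨h1, h3⟩
        · rintro ⟨h1, h3⟩; exact ⟨h1, hBE h1, h3⟩
      rw [this, add_comm]
      exact encard_sdiff_add_encard_inter B (A : Set α)
    rw [e1, e2, e3, ← M.eRk_ground, ← hE, ← Finset.coe_sdiff, eRk_coe M (Finset.finite_toSet _),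
      eRk_coe M (Finset.finite_toSet _), eRk_coe M (Finset.finite_toSet _)] at e4
    unfold PT.Fac1 zr
    exact_mod_cast e4
  · intro h
    apply Matroid.ext_indep
    · rw [Matroid.disjointSum_ground_eq]
      change M.E = (A : Set α) ∪ (M.E \ (A : Set α))
      rw [union_sdiff_cancel hAE]
    · intro I hI
      rw [Matroid.disjointSum_indep_iff]
      have hg1 : (M.restrict (A : Set α)).E = (A : Set α) := rfl
      have hg2 : (M.delete (A : Set α)).E = M.E \ (A : Set α) := rfl
      rw [hg1, hg2]
      have hIfin : I.Finite := (hE ▸ E0.finite_toSet : M.E.Finite).subset hI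
      constructor
      · intro hi
        refine ⟨?_, ?_, ?_⟩
        · rw [Matroid.restrict_indep_iff]
          exact ⟨hi.subset inter_subset_left, inter_subset_right⟩
        · rw [Matroid.delete_indep_iff]
          refine ⟨hi.subset inter_subset_left, ?_⟩
          rw [disjoint_left]
          rintro x ⟨_, _, hx⟩ hx2
          exact hx hx2
        · intro x hx
          by_cases hxA : x ∈ (A : Set α)
          · exact Or.inl hxA
          · exact Or.inr ⟨hI hx, hxA⟩
      · rintro ⟨h1, h2, _⟩
        rw [Matroid.restrict_indep_iff] at h1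
        rw [Matroid.delete_indep_iff] at h2
        obtain ⟨J, rfl⟩ : ∃ J : Finset α, (J : Set α) = I := ⟨hIfin.toFinset, by simp⟩
        have hJE : J ⊆ E0 := by
          rw [← hE] at hI
          exact Finset.coe_subset.mp hI
        have s1 : (J : Set α) ∩ (A : Set α) = ((J ∩ A : Finset α) : Set α) := by simp
        have s2 : (J : Set α) ∩ (M.E \ (A : Set α)) = ((J \ A : Finset α) : Set α) := by
          ext x; simp only [mem_inter_iff, mem_sdiff, Finset.mem_coe, Finset.mem_sdiff]
          constructor
          · rintro ⟨h1, _, h3⟩; exact ⟨h1, h3⟩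
          · rintro ⟨h1, h3⟩; exact ⟨h1, hI h1, h3⟩
        rw [s1] at h1
        rw [s2] at h2
        have r1 : zr M (J ∩ A) = (J ∩ A).card := by
          have := h1.1.eRk_eq_encard
          rw [eRk_coe M (Finset.finite_toSet _), encard_coe_eq_coe_finsetCard] at this
          unfold zr; exact_mod_cast this
        have r2 : zr M (J \ A) = (J \ A).card := by
          have := h2.1.eRk_eq_encard
          rw [eRk_coe M (Finset.finite_toSet _), encard_coe_eq_coe_finsetCard] at this
          unfold zr; exact_mod_cast this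
        have hsplit := hr.fac_split hA h hJE
        rw [Matroid.indep_iff_eRk_eq_encard_of_finite hIfin, eRk_coe M (Finset.finite_toSet _),
          encard_coe_eq_coe_finsetCard]
        have hcard : (J ∩ A).card + (J \ A).card = J.card := by
          rw [add_comm]; exact Finset.card_sdiff_add_card_inter J A
        have : (rk M (J : Set α) : ℤ) = J.card := by
          change zr M J = _
          rw [hsplit, r1, r2]
          exact_mod_cast hcard
        exact_mod_cast this

theorem isFactor_iff [DecidableEq α] {M M' : Matroid α} (hG : M'.E = M.E) {E0 A : Finset α}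
    (hE : (E0 : Set α) = M.E) (hA : A ⊆ E0) :
    IsFactor M M' (A : Set α) ↔ PT.Fac (zr M) (zr M') E0 A := by
  unfold IsFactor PT.Fac
  rw [directSum_iff M hE hA, directSum_iff M' (hE.trans hG.symm) hA]
  have : (A : Set α) ⊆ M.E := hE ▸ Finset.coe_subset.mpr hA
  simp [this, hA]

theorem isConnected_iff [DecidableEq α] {M M' : Matroid α} (hG : M'.E = M.E) {E0 : Finset α}
    (hE : (E0 : Set α) = M.E) :
    IsConnected M M' ↔ E0.Nonempty ∧ PT.Conn (zr M) (zr M') E0 := by
  unfold IsConnected PT.Conn
  constructor
  · rintro ⟨h1, h2⟩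
    refine ⟨by rw [← hE] at h1; exact_mod_cast h1, ?_⟩
    intro A hA
    by_cases hne : A.Nonempty
    · right
      have := h2 (A : Set α) (by exact_mod_cast hne) ((isFactor_iff hG hE hA.1).mpr hA)
      rw [← hE] at this
      exact_mod_cast this
    · left; exact Finset.not_nonempty_iff_eq_empty.mp hne
  · rintro ⟨h1, h2⟩
    refine ⟨by rw [← hE]; exact_mod_cast h1, ?_⟩
    intro A hne hA
    have hAE : A ⊆ (E0 : Set α) := by rw [hE]; exact hA.1
    obtain ⟨A0, rfl⟩ : ∃ A0 : Finset α, (A0 : Set α) = A :=
      ⟨(E0.finite_toSet.subset hAE).toFinset, by simp⟩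
    have hA0 : A0 ⊆ E0 := Finset.coe_subset.mp hAE
    rcases h2 A0 ((isFactor_iff hG hE hA0).mp hA) with h3 | h3
    · rw [h3] at hne; simp at hne
    · rw [h3, hE]

end Pool.Agent.Helper496.MP321
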