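import Pool.Agent.Helper496.PtStep

open Finset

namespace Pool.Agent.Helper496.PT

variable {α : Type*} [DecidableEq α] {r q : Finset α → ℤ} {S : Finset α}

lemma Fac1.del (hr : IsRk r) {A : Finset α} (hA : A ⊆ S) (h : Fac1 r S A) {e : α} (he : e ∈ A) :
    Fac1 r (S.erase e) (A.erase e) := by
  have h1 := hr.fac_split hA h (Finset.erase_subset e S)
  have e1 : S.erase e ∩ A = A.erase e := by
    ext x; simp only [mem_inter, mem_erase]
    constructor
    · rintro ⟨h, h'⟩; exact ⟨h.1, h'⟩
    · rintro ⟨h, h'⟩; exact ⟨⟨h, hA h'⟩, h'⟩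
  have e2 : S.erase e \ A = S.erase e \ A.erase e := by
    ext x; simp only [mem_sdiff, mem_erase]
    constructor
    · rintro ⟨h, h'⟩; exact ⟨h, fun h'' => h' h''.2⟩
    · rintro ⟨h, h'⟩; exact ⟨h, fun h'' => h' ⟨h.1, h''⟩⟩
  rw [e1, e2] at h1
  exact h1.symm

lemma Fac1.con' (hr : IsRk r) {A : Finset α} (hA : A ⊆ S) (h : Fac1 r S A) {e : α} (he : e ∈ A) :
    Fac1 (con r e) (S.erase e) (A.erase e) := by
  have h1 := hr.fac_add hA h (Finset.singleton_subset_iff.2 he) (le_refl (S \ A))
  have e2 : S.erase e \ A.erase e = S \ A := by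
    ext x; simp only [mem_sdiff, mem_erase]
    constructor
    · rintro ⟨h, h'⟩; exact ⟨h.2, fun h'' => h' ⟨h.1, h''⟩⟩
    · rintro ⟨h, h'⟩; exact ⟨⟨fun h'' => h' (h'' ▸ he), h⟩, fun h'' => h' h''.2⟩
  unfold Fac1 at h ⊢
  simp only [con]
  rw [Finset.insert_erase he, e2, Finset.insert_erase (hA he)]
  rw [← Finset.insert_eq] at h1
  linarith

lemma f_deg_aux : ∀ n, ∀ (r q : Finset α → ℤ) (S A : Finset α), IsRk r → IsRk q → Persp r q →
    A.card = n → Fac r q S A → A.Nonempty → r A = q A → f r q S = 0 := by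
  intro n
  induction n with
  | zero =>
    intro r q S A hr hq hp hn hF hne hd
    rw [Finset.card_eq_zero] at hn
    exact absurd hn hne.ne_empty
  | succ n ih =>
    intro r q S A hr hq hp hn hF hne hd
    obtain ⟨e, he⟩ := hne
    have heS := hF.1 he
    have hd' : ∀ Z ⊆ A, r Z = q Z := by
      intro Z hZ
      have h1 := hp.d_mono hZ
      have h2 := hp.d_nonneg hr hq Z
      linarith
    by_cases h0 : r {e} = 0
    · exact f_loop hr hq hp heS h0
    by_cases h1 : q (S.erase e) < q S
    · exact f_coloop hr hq hp heS h1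
    have hre : r {e} = 1 := by
      have := hr.sing_le e
      have := hr.nonneg {e}
      omega
    have hqe : q {e} = 1 := by
      rw [← hd' {e} (Finset.singleton_subset_iff.2 he), hre]
    have hqS : q (S.erase e) = q S := le_antisymm (hq.mono (Finset.erase_subset e S)) (not_lt.1 h1)
    have hne2 : (A.erase e).Nonempty := by
      rw [Finset.nonempty_iff_ne_empty]
      intro h
      have : A = {e} := by
        rcases (Finset.erase_eq_empty_iff A e).1 h with h | h
        · rw [h] at he; exact absurd he (Finset.notMem_empty e)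
        · exact h
      have h2 := hF.2.2
      unfold Fac1 at h2
      rw [this, Finset.sdiff_singleton_eq_erase] at h2
      linarith
    have hcard : (A.erase e).card = n := by
      rw [Finset.card_erase_of_mem he, hn]; rfl
    rw [f_rec heS hre hqS,
      ih r q (S.erase e) (A.erase e) hr hq hp hcard ⟨Finset.erase_subset_erase e hF.1,
        hF.2.1.del hr hF.1 he, hF.2.2.del hq hF.1 he⟩ hne2 (hd' _ (Finset.erase_subset e A)),
      ih (con r e) (con q e) (S.erase e) (A.erase e) (hr.con e) (hq.con e) (hp.con e) hcard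
        ⟨Finset.erase_subset_erase e hF.1, hF.2.1.con' hr hF.1 he, hF.2.2.con' hq hF.1 he⟩ hne2 ?_]
    · ring
    · simp only [con]
      rw [Finset.insert_erase he, hd, hre, hqe]

lemma f_deg (hr : IsRk r) (hq : IsRk q) (hp : Persp r q) (h : Deg r q S) : f r q S = 0 := by
  obtain ⟨A, hF, hne, hd⟩ := h
  exact f_deg_aux _ r q S A hr hq hp rfl hF hne hd

lemma Fac1.trans (hr : IsRk r) {A B : Finset α} (hA : A ⊆ S) (hB : B ⊆ A) (h : Fac1 r S A)
    (h' : Fac1 r A B) : Fac1 r S B := by
  have h1 := hr.fac_add hA h (Finset.sdiff_subset : A \ B ⊆ A) (le_refl (S \ A))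
  have e1 : (A \ B) ∪ (S \ A) = S \ B := by
    ext x; simp only [mem_union, mem_sdiff]
    constructor
    · rintro (h | h)
      · exact ⟨hA h.1, h.2⟩
      · exact ⟨h.1, fun h'' => h.2 (hB h'')⟩
    · rintro ⟨h, h'⟩
      by_cases hx : x ∈ A
      · exact Or.inl ⟨hx, h'⟩
      · exact Or.inr ⟨h, hx⟩
  rw [e1] at h1
  unfold Fac1 at *
  linarith

lemma Fac.trans (hr : IsRk r) (hq : IsRk q) {A B : Finset α} (h : Fac r q S A)
    (h' : Fac r q A B) : Fac r q S B :=
  ⟨h'.1.trans h.1, h.2.1.trans hr h.1 h'.1 h'.2.1, h.2.2.trans hq h.1 h'.1 h'.2.2⟩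

lemma Deg.of_fac (hr : IsRk r) (hq : IsRk q) {A : Finset α} (h : Fac r q S A)
    (h' : Deg r q A) : Deg r q S := by
  obtain ⟨B, hB, hne, hd⟩ := h'
  exact ⟨B, h.trans hr hq hB, hne, hd⟩

/-- parallel pairs -/
lemma par_lemma (hr : IsRk r) (hq : IsRk q) (hp : Persp r q) (hc : Conn r q S)
    (h2 : 2 ≤ S.card) {a e : α} (haS : a ∈ S) (heS : e ∈ S) (hae : a ≠ e) (hpar : r {a, e} = 1) :
    f r q S = f r q (S.erase e) ∧ Conn r q (S.erase e) ∧ r (S.erase e) = r S ∧
      q (S.erase e) = q S := by
  have hre := hc.nonloop hr hq hp h2 heS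
  have hra := hc.nonloop hr hq hp h2 haS
  have hqS := hc.noncoloop hr hq hp h2 heS
  have e0 : insert e ({a} : Finset α) = {a, e} := by
    ext x; simp only [mem_insert, mem_singleton]; tauto
  have h3 : r (insert e {a}) ≤ r {a} := by rw [e0, hpar, hra]
  have h4 : q (insert e {a}) ≤ q {a} := by
    have := hp {a} (insert e {a}) (Finset.subset_insert e {a})
    linarith
  have hr' : ∀ W, a ∈ W → r (insert e W) = r W := fun W hW =>
    ins_eq_of_le hr (Finset.singleton_subset_iff.2 hW) h3
  have hq' : ∀ W, a ∈ W → q (insert e W) = q W := fun W hW =>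
    ins_eq_of_le hq (Finset.singleton_subset_iff.2 hW) h4
  have haS' : a ∈ S.erase e := Finset.mem_erase.2 ⟨hae, haS⟩
  have hrS : r (S.erase e) = r S := by
    have := hr' _ haS'
    rw [Finset.insert_erase heS] at this
    exact this.symm
  refine ⟨?_, ?_, hrS, hqS⟩
  · rw [f_rec heS hre hqS, f_loop (hr.con e) (hq.con e) (hp.con e) haS', add_zero]
    simp only [con]
    rw [e0, hpar, hre]; ring
  · intro A hA
    have heA : e ∉ A := fun h => (Finset.mem_erase.1 (hA.1 h)).1 rfl
    by_cases haA : a ∈ A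
    · right
      have e1 : S \ insert e A = S.erase e \ A := by
        ext x; simp only [mem_sdiff, mem_insert, mem_erase]; tauto
      have : Fac r q S (insert e A) := by
        refine ⟨Finset.insert_subset heS (hA.1.trans (Finset.erase_subset e S)), ?_, ?_⟩
        · have h1 := hA.2.1
          unfold Fac1 at h1 ⊢
          rw [e1, hr' A haA, h1, hrS]
        · have h1 := hA.2.2
          unfold Fac1 at h1 ⊢
          rw [e1, hq' A haA, h1, hqS]
      rcases hc _ this with h | h
      · exact absurd h (Finset.insert_ne_empty e A)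
      · rw [← h, Finset.erase_insert heA]
    · left
      have e1 : S \ A = insert e (S.erase e \ A) := by
        ext x; simp only [mem_sdiff, mem_insert, mem_erase]
        constructor
        · rintro ⟨h, h'⟩
          by_cases hx : x = e
          · exact Or.inl hx
          · exact Or.inr ⟨⟨hx, h⟩, h'⟩
        · rintro (h | h)
          · rw [h]; exact ⟨heS, heA⟩
          · exact ⟨h.1.2, h.2⟩
      have haB : a ∈ S.erase e \ A := Finset.mem_sdiff.2 ⟨haS', haA⟩
      have : Fac r q S A := by
        refine ⟨hA.1.trans (Finset.erase_subset e S), ?_, ?_⟩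
        · have h1 := hA.2.1
          unfold Fac1 at h1 ⊢
          rw [e1, hr' _ haB, h1, hrS]
        · have h1 := hA.2.2
          unfold Fac1 at h1 ⊢
          rw [e1, hq' _ haB, h1, hqS]
      rcases hc _ this with h | h
      · exact h
      · exact absurd (h ▸ heS) heA

/-- series pairs -/
lemma ser_lemma (hr : IsRk r) (hq : IsRk q) (hp : Persp r q) (hc : Conn r q S)
    (h2 : 2 ≤ S.card) {a e : α} (haS : a ∈ S) (heS : e ∈ S) (hae : a ≠ e)
    (hser : q ((S.erase e).erase a) < q S) :
    f r q S = f (con r e) (con q e) (S.erase e) ∧ Conn (con r e) (con q e) (S.erase e) ∧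
      r {e} = 1 ∧ q {e} = 1 := by
  have hre := hc.nonloop hr hq hp h2 heS
  have hqSe := hc.noncoloop hr hq hp h2 heS
  have hqSa := hc.noncoloop hr hq hp h2 haS
  have haS' : a ∈ S.erase e := Finset.mem_erase.2 ⟨hae, haS⟩
  have e0 : insert e ((S.erase e).erase a) = S.erase a := by
    ext x; simp only [mem_insert, mem_erase]
    constructor
    · rintro (h | h)
      · rw [h]; exact ⟨hae.symm, heS⟩
      · exact ⟨h.1, h.2.2⟩
    · rintro ⟨h, h'⟩
      by_cases hx : x = e
      · exact Or.inl hx
      · exact Or.inr ⟨h, hx, h'⟩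
  have hq1 : ∀ W, W ⊆ (S.erase e).erase a → q (insert e W) = q W + 1 := by
    intro W hW
    have h3 := hq.marg hW e
    have h4 := hq.unit W e
    rw [e0, hqSa] at h3
    omega
  have hr1 : ∀ W, W ⊆ (S.erase e).erase a → r (insert e W) = r W + 1 := by
    intro W hW
    have h3 := hq1 W hW
    have h4 := hp W (insert e W) (Finset.subset_insert e W)
    have h5 := hr.unit W e
    linarith
  have hqe : q {e} = 1 := by
    have := hq1 ∅ (Finset.empty_subset _)
    rw [hq.empty] at this
    simpa using this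
  refine ⟨?_, ?_, hre, hqe⟩
  · rw [f_rec heS hre hqSe, f_coloop hr hq hp haS' (by rw [hqSe]; exact hser), zero_add]
  · intro A hA
    have heA : e ∉ A := fun h => (Finset.mem_erase.1 (hA.1 h)).1 rfl
    have hAS : A ⊆ S := hA.1.trans (Finset.erase_subset e S)
    by_cases haA : a ∈ A
    · right
      have e1 : S \ insert e A = S.erase e \ A := by
        ext x; simp only [mem_sdiff, mem_insert, mem_erase]; tauto
      have hB : S.erase e \ A ⊆ (S.erase e).erase a := by
        intro x hx
        rw [Finset.mem_sdiff] at hx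
        exact Finset.mem_erase.2 ⟨fun h => hx.2 (h ▸ haA), hx.1⟩
      have : Fac r q S (insert e A) := by
        refine ⟨Finset.insert_subset heS hAS, ?_, ?_⟩
        · have h1 := hA.2.1
          have h3 := hr1 _ hB
          unfold Fac1 at h1 ⊢
          simp only [con] at h1
          rw [Finset.insert_erase heS] at h1
          rw [e1]
          linarith
        · have h1 := hA.2.2
          have h3 := hq1 _ hB
          unfold Fac1 at h1 ⊢
          simp only [con] at h1
          rw [Finset.insert_erase heS] at h1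
          rw [e1]
          linarith
      rcases hc _ this with h | h
      · exact absurd h (Finset.insert_ne_empty e A)
      · rw [← h, Finset.erase_insert heA]
    · left
      have e1 : S \ A = insert e (S.erase e \ A) := by
        ext x; simp only [mem_sdiff, mem_insert, mem_erase]
        constructor
        · rintro ⟨h, h'⟩
          by_cases hx : x = e
          · exact Or.inl hx
          · exact Or.inr ⟨⟨hx, h⟩, h'⟩
        · rintro (h | h)
          · rw [h]; exact ⟨heS, heA⟩
          · exact ⟨h.1.2, h.2⟩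
      have hA' : A ⊆ (S.erase e).erase a := fun x hx =>
        Finset.mem_erase.2 ⟨fun h => haA (h ▸ hx), hA.1 hx⟩
      have : Fac r q S A := by
        refine ⟨hAS, ?_, ?_⟩
        · have h1 := hA.2.1
          have h3 := hr1 _ hA'
          unfold Fac1 at h1 ⊢
          simp only [con] at h1
          rw [Finset.insert_erase heS] at h1
          rw [e1]
          linarith
        · have h1 := hA.2.2
          have h3 := hq1 _ hA'
          unfold Fac1 at h1 ⊢
          simp only [con] at h1
          rw [Finset.insert_erase heS] at h1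
          rw [e1]
          linarith
      rcases hc _ this with h | h
      · exact h
      · exact absurd (h ▸ heS) heA

lemma rk_le_card (hr : IsRk r) (X : Finset α) : r X ≤ X.card := by
  induction X using Finset.induction_on with
  | empty => simp [hr.empty]
  | insert a X ha ih =>
    have := hr.unit X a
    rw [Finset.card_insert_of_notMem ha]
    push_cast; linarith

lemma rk_loops (hr : IsRk r) (X : Finset α) (h : ∀ e ∈ X, r {e} = 0) : r X = 0 := by
  induction X using Finset.induction_on with
  | empty => exact hr.empty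
  | insert a X ha ih =>
    have h1 := hr.ins_le X a
    have h2 := hr.nonneg (insert a X)
    have h3 := ih (fun e he => h e (Finset.mem_insert_of_mem he))
    have h4 := h a (Finset.mem_insert_self a X)
    linarith

lemma rk_coloops (hr : IsRk r) (X : Finset α) (hX : X ⊆ S) (h : ∀ e ∈ X, r (S.erase e) < r S) :
    r (S \ X) + X.card ≤ r S := by
  induction X using Finset.induction_on with
  | empty => simp
  | insert a X ha ih =>
    have h3 := ih ((Finset.subset_insert a X).trans hX)
      (fun e he => h e (Finset.mem_insert_of_mem he))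
    have h4 := h a (Finset.mem_insert_self a X)
    have haS : a ∈ S := hX (Finset.mem_insert_self a X)
    have h5 := hr.sub (S \ X) (S.erase a)
    have e1 : (S \ X) ∪ S.erase a = S := by
      ext x; simp only [mem_union, mem_sdiff, mem_erase]
      constructor
      · rintro (h | h)
        · exact h.1
        · exact h.2
      · intro hx
        by_cases hxa : x = a
        · rw [hxa]; exact Or.inl ⟨haS, ha⟩
        · exact Or.inr ⟨hxa, hx⟩
    have e2 : (S \ X) ∩ S.erase a = S \ insert a X := by
      ext x; simp only [mem_inter, mem_sdiff, mem_erase, mem_insert]; tauto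
    rw [e1, e2] at h5
    rw [Finset.card_insert_of_notMem ha]
    push_cast
    linarith

/-- if no element is of type (i) then `M'` consists of loops or `M` is free -/
lemma no_typeI (hr : IsRk r) (hq : IsRk q) (hc : Conn r q S)
    (hT : ∀ e, ¬ TypeI r q S e) : q S = 0 ∨ r S = S.card := by
  classical
  set X := S.filter (fun e => r (S.erase e) < r S) with hX
  have hXS : X ⊆ S := Finset.filter_subset _ _
  have h1 := rk_coloops hr X hXS (fun e he => (Finset.mem_filter.1 he).2)
  have h2 := rk_le_card hr X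
  have h3 : q (S \ X) = 0 := by
    apply rk_loops hq
    intro e he
    rw [Finset.mem_sdiff] at he
    have heS := he.1
    by_contra hne
    apply hT e
    refine ⟨heS, ?_, ?_⟩
    · have := hr.mono (Finset.erase_subset e S)
      refine le_antisymm this (not_lt.1 (fun h => he.2 (Finset.mem_filter.2 ⟨heS, h⟩)))
    · have := hq.sing_le e
      have := hq.nonneg {e}
      omega
  have h4 := hr.subadd X (S \ X)
  have h5 := hq.subadd X (S \ X)
  rw [Finset.union_sdiff_of_subset hXS] at h4 h5
  have h6 := hq.mono hXS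
  have hF : Fac r q S X := by
    refine ⟨hXS, ?_, ?_⟩
    · unfold Fac1; linarith
    · unfold Fac1; linarith
  rcases hc X hF with h | h
  · left; rw [h, Finset.sdiff_empty] at h3; exact h3
  · right
    rw [h, Finset.sdiff_self, hr.empty] at h1
    have := rk_le_card hr S
    linarith

def Conn1 (r : Finset α → ℤ) (S : Finset α) : Prop :=
  ∀ A, A ⊆ S → Fac1 r S A → A = ∅ ∨ A = S

lemma tutte_aux (hr : IsRk r) {e : α} (heS : e ∈ S) (hc : Conn1 r S) {A C : Finset α}
    (hA : A ⊆ S.erase e) (hfA : Fac1 r (S.erase e) A) (hC : C ⊆ S.erase e)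
    (hfC : Fac1 (con r e) (S.erase e) C) :
    A ∩ C = ∅ ∨ (S.erase e \ A) ∩ (S.erase e \ C) = ∅ := by
  have heA : e ∉ A := fun h => (Finset.mem_erase.1 (hA h)).1 rfl
  have heC : e ∉ C := fun h => (Finset.mem_erase.1 (hC h)).1 rfl
  set B := S.erase e \ A with hB
  set D := S.erase e \ C with hD
  have h1 := hr.sub A (insert e C)
  have h2 := hr.sub B (insert e D)
  have e1 : A ∩ insert e C = A ∩ C := by
    ext x; simp only [mem_inter, mem_insert]
    constructor
    · rintro ⟨h, h' | h'⟩
      · exact absurd (h' ▸ h) heA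
      · exact ⟨h, h'⟩
    · rintro ⟨h, h'⟩; exact ⟨h, Or.inr h'⟩
  have e2 : B ∩ insert e D = B ∩ D := by
    ext x; simp only [hB, hD, mem_inter, mem_insert, mem_sdiff, mem_erase]; tauto
  have e3 : A ∪ insert e C = S \ (B ∩ D) := by
    ext x; simp only [hB, hD, mem_inter, mem_insert, mem_sdiff, mem_erase, mem_union]
    constructor
    · rintro (h | h | h)
      · exact ⟨Finset.mem_of_mem_erase (hA h), fun h' => h'.1.2 h⟩
      · rw [h]; exact ⟨heS, fun h' => h'.1.1.1 rfl⟩
      · exact ⟨Finset.mem_of_mem_erase (hC h), fun h' => h'.2.2 h⟩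
    · rintro ⟨h, h'⟩
      by_cases hxA : x ∈ A
      · exact Or.inl hxA
      · by_cases hxe : x = e
        · exact Or.inr (Or.inl hxe)
        · by_cases hxC : x ∈ C
          · exact Or.inr (Or.inr hxC)
          · exact absurd ⟨⟨⟨hxe, h⟩, hxA⟩, ⟨⟨hxe, h⟩, hxC⟩⟩ h'
  have e4 : B ∪ insert e D = S \ (A ∩ C) := by
    ext x; simp only [hB, hD, mem_inter, mem_insert, mem_sdiff, mem_erase, mem_union]
    constructor
    · rintro (h | h | h)
      · exact ⟨h.1.2, fun h' => h.2 h'.1⟩
      · rw [h]; exact ⟨heS, fun h' => heA h'.1⟩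
      · exact ⟨h.1.2, fun h' => h.2 h'.2⟩
    · rintro ⟨h, h'⟩
      by_cases hxe : x = e
      · exact Or.inr (Or.inl hxe)
      · by_cases hxA : x ∈ A
        · exact Or.inr (Or.inr ⟨⟨hxe, h⟩, fun hxC => h' ⟨hxA, hxC⟩⟩)
        · exact Or.inl ⟨⟨hxe, h⟩, hxA⟩
  rw [e1, e3] at h1
  rw [e2, e4] at h2
  have hre := hr.sing_le e
  have hS' := hr.mono (Finset.erase_subset e S)
  unfold Fac1 at hfA hfC
  simp only [con] at hfC
  rw [Finset.insert_erase heS] at hfC
  have hAC : A ∩ C ⊆ S := Finset.inter_subset_left.trans (hA.trans (Finset.erase_subset e S))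
  have hBD : B ∩ D ⊆ S := Finset.inter_subset_left.trans
    (Finset.sdiff_subset.trans (Finset.erase_subset e S))
  have h3 := hr.subadd (A ∩ C) (S \ (A ∩ C))
  have h4 := hr.subadd (B ∩ D) (S \ (B ∩ D))
  rw [Finset.union_sdiff_of_subset hAC] at h3
  rw [Finset.union_sdiff_of_subset hBD] at h4
  by_cases h5 : r (A ∩ C) + r (S \ (A ∩ C)) = r S
  · rcases hc _ hAC h5 with h | h
    · exact Or.inl h
    · exfalso
      have : e ∈ A ∩ C := by rw [h]; exact heS
      exact heA (Finset.mem_inter.1 this).1
  · have h6 : r (B ∩ D) + r (S \ (B ∩ D)) = r S := by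
      have h7 : r S + 1 ≤ r (A ∩ C) + r (S \ (A ∩ C)) := by
        have := lt_of_le_of_ne h3 (Ne.symm h5)
        omega
      linarith
    rcases hc _ hBD h6 with h | h
    · exact Or.inr h
    · exfalso
      have : e ∈ B ∩ D := by rw [h]; exact heS
      have := (Finset.mem_inter.1 this).1
      rw [hB, Finset.mem_sdiff] at this
      exact (Finset.mem_erase.1 this.1).1 rfl

/-- Tutte's lemma -/
lemma tutte (hr : IsRk r) {e : α} (heS : e ∈ S) (hc : Conn1 r S) :
    Conn1 r (S.erase e) ∨ Conn1 (con r e) (S.erase e) := by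
  by_contra hcon
  rw [not_or] at hcon
  obtain ⟨h1, h2⟩ := hcon
  unfold Conn1 at h1 h2
  push Not at h1 h2
  obtain ⟨A, hA, hfA, hA1, hA2⟩ := h1
  obtain ⟨C, hC, hfC, hC1, hC2⟩ := h2
  have k1 := tutte_aux hr heS hc hA hfA hC hfC
  have k2 := tutte_aux hr heS hc hA hfA (Finset.sdiff_subset : S.erase e \ C ⊆ _)
    (hfC.symm hC)
  rw [Finset.sdiff_sdiff_eq_self hC] at k2
  have hAn := hA1
  have hCn := hC1
  have hBn : (S.erase e \ A).Nonempty := by
    rw [Finset.nonempty_iff_ne_empty]
    intro h
    exact hA2 (le_antisymm hA (Finset.sdiff_eq_empty_iff_subset.1 h))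
  have hDn : (S.erase e \ C).Nonempty := by
    rw [Finset.nonempty_iff_ne_empty]
    intro h
    exact hC2 (le_antisymm hC (Finset.sdiff_eq_empty_iff_subset.1 h))
  have emp : ∀ {P : Finset α} {x : α}, P = ∅ → x ∈ P → False := by
    intro P x h hx; rw [h] at hx; exact absurd hx (Finset.notMem_empty x)
  rcases k1 with k1 | k1
  · rcases k2 with k2 | k2
    · obtain ⟨x, hx⟩ := hAn
      by_cases hxC : x ∈ C
      · exact emp k1 (Finset.mem_inter.2 ⟨hx, hxC⟩)
      · exact emp k2 (Finset.mem_inter.2 ⟨hx, Finset.mem_sdiff.2 ⟨hA hx, hxC⟩⟩)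
    · obtain ⟨x, hx⟩ := hCn
      by_cases hxA : x ∈ A
      · exact emp k1 (Finset.mem_inter.2 ⟨hxA, hx⟩)
      · exact emp k2 (Finset.mem_inter.2 ⟨Finset.mem_sdiff.2 ⟨hC hx, hxA⟩, hx⟩)
  · rcases k2 with k2 | k2
    · obtain ⟨x, hx⟩ := hDn
      by_cases hxA : x ∈ A
      · exact emp k2 (Finset.mem_inter.2 ⟨hxA, hx⟩)
      · exact emp k1 (Finset.mem_inter.2 ⟨Finset.mem_sdiff.2 ⟨(Finset.mem_sdiff.1 hx).1, hxA⟩, hx⟩)
    · obtain ⟨x, hx⟩ := hBn
      by_cases hxC : x ∈ C
      · exact emp k2 (Finset.mem_inter.2 ⟨hx, hxC⟩)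
      · exact emp k1 (Finset.mem_inter.2 ⟨hx, Finset.mem_sdiff.2 ⟨(Finset.mem_sdiff.1 hx).1, hxC⟩⟩)

end Pool.Agent.Helper496.PT
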