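import Pool.Agent.Helper496.PtRank

open Finset

namespace Pool.Agent.Helper496.PT

variable {α : Type*} [DecidableEq α]

/-- `A` witnesses that the deletion of `e` is degenerate -/
def DelDeg (r q : Finset α → ℤ) (S : Finset α) (e : α) (A : Finset α) : Prop :=
  Fac r q (S.erase e) A ∧ A.Nonempty ∧ r A = q A

/-- `A` witnesses that the contraction of `e` is degenerate -/
def ConDeg (r q : Finset α → ℤ) (S : Finset α) (e : α) (A : Finset α) : Prop :=
  Fac (con r e) (con q e) (S.erase e) A ∧ A.Nonempty ∧ con r e A = con q e A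

/-- neither coloop of `M` nor loop of `M'` -/
def TypeI (r q : Finset α → ℤ) (S : Finset α) (e : α) : Prop :=
  e ∈ S ∧ r (S.erase e) = r S ∧ q {e} = 1

section facts

variable {r q : Finset α → ℤ} {S : Finset α}

lemma Fac1.symm {r : Finset α → ℤ} {S A : Finset α} (hA : A ⊆ S) (h : Fac1 r S A) :
    Fac1 r S (S \ A) := by
  unfold Fac1 at *
  rw [Finset.sdiff_sdiff_eq_self hA]; linarith

lemma Fac.symm {A : Finset α} (h : Fac r q S A) : Fac r q S (S \ A) :=
  ⟨Finset.sdiff_subset, h.2.1.symm h.1, h.2.2.symm h.1⟩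

/-- in a connected perspective with at least two elements there is no loop in `M` -/
lemma Conn.nonloop (hr : IsRk r) (hq : IsRk q) (hp : Persp r q) (hc : Conn r q S)
    (h2 : 2 ≤ S.card) {e : α} (he : e ∈ S) : r {e} = 1 := by
  by_contra hne
  have h0 : r {e} = 0 := by
    have := hr.sing_le e
    have := hr.nonneg {e}
    omega
  have h0' : q {e} = 0 := by
    have := hp.d_nonneg hr hq {e}
    have := hq.nonneg {e}
    linarith
  have key : ∀ r : Finset α → ℤ, IsRk r → r {e} = 0 → Fac1 r S {e} := by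
    intro r hr h0
    unfold Fac1
    have h1 := hr.ins_le (S.erase e) e
    rw [Finset.insert_erase he] at h1
    have h3 := hr.mono (Finset.erase_subset e S)
    rw [Finset.sdiff_singleton_eq_erase]
    linarith
  rcases hc {e} ⟨Finset.singleton_subset_iff.2 he, key r hr h0, key q hq h0'⟩ with h | h
  · exact absurd h (Finset.singleton_ne_empty e)
  · rw [← h] at h2; simp at h2

lemma Conn.noncoloop (hr : IsRk r) (hq : IsRk q) (hp : Persp r q) (hc : Conn r q S)
    (h2 : 2 ≤ S.card) {e : α} (he : e ∈ S) : q (S.erase e) = q S := by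
  by_contra hne
  have h3 := hq.mono (Finset.erase_subset e S)
  have h4 := hq.unit (S.erase e) e
  rw [Finset.insert_erase he] at h4
  have h5 : q (S.erase e) = q S - 1 := by omega
  have h6 := hp _ _ (Finset.erase_subset e S)
  have h7 := hr.unit (S.erase e) e
  rw [Finset.insert_erase he] at h7
  have h8 : r (S.erase e) = r S - 1 := by omega
  have h9 := hr.ins_le (S.erase e) e
  have h10 := hq.ins_le (S.erase e) e
  rw [Finset.insert_erase he] at h9 h10
  have h11 := hr.sing_le e
  have h12 := hq.sing_le e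
  rcases hc {e} ⟨Finset.singleton_subset_iff.2 he, by
      unfold Fac1; rw [Finset.sdiff_singleton_eq_erase]; omega, by
      unfold Fac1; rw [Finset.sdiff_singleton_eq_erase]; omega⟩ with h | h
  · exact absurd h (Finset.singleton_ne_empty e)
  · rw [← h] at h2; simp at h2

end facts

section uncross

variable {r : Finset α → ℤ} {S : Finset α}

/-- uncrossing: `A` separator of `S \ e`, `X` separator of `S \ a` -/
lemma unc_dd (hr : IsRk r) {e a : α} {A X : Finset α}
    (he : r (S.erase e) = r S) (ha : r (S.erase a) = r S)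
    (hA : A ⊆ S.erase e) (hfA : Fac1 r (S.erase e) A) (haA : a ∈ A)
    (hX : X ⊆ S.erase a) (hfX : Fac1 r (S.erase a) X) (heX : e ∉ X) :
    Fac1 r (S.erase a) (X ∩ A) := by
  unfold Fac1 at hfX ⊢
  have hXe : X ⊆ S.erase e := fun x hx =>
    Finset.mem_erase.2 ⟨fun h => heX (h ▸ hx), Finset.mem_of_mem_erase (hX hx)⟩
  have h1 := hr.fac_split hA hfA hXe
  have h2 := hr.subadd (S.erase a \ X) (X \ A)
  have e1 : (S.erase a \ X) ∪ (X \ A) = S.erase a \ (X ∩ A) := by
    ext x; simp only [mem_union, mem_inter, mem_sdiff]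
    constructor
    · rintro (h | h)
      · exact ⟨h.1, fun h' => h.2 h'.1⟩
      · exact ⟨hX h.1, fun h' => h.2 h'.2⟩
    · rintro ⟨h, h'⟩
      by_cases hx : x ∈ X
      · exact Or.inr ⟨hx, fun h'' => h' ⟨hx, h''⟩⟩
      · exact Or.inl ⟨h, hx⟩
  rw [e1] at h2
  have h3 := hr.subadd (X ∩ A) (S.erase a \ (X ∩ A))
  have e2 : (X ∩ A) ∪ (S.erase a \ (X ∩ A)) = S.erase a :=
    Finset.union_sdiff_of_subset (Finset.inter_subset_left.trans hX)
  rw [e2] at h3
  linarith

/-- uncrossing: `A` separator of `S \ e`, `X` separator of `S / a` -/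
lemma unc_dc (hr : IsRk r) {e a : α} {A X : Finset α}
    (hA : A ⊆ S.erase e) (hfA : Fac1 r (S.erase e) A) (haA : a ∈ A)
    (hX : X ⊆ S.erase a) (hfX : Fac1 (con r a) (S.erase a) X) (heX : e ∉ X) :
    Fac1 (con r a) (S.erase a) (X ∩ A) := by
  have haS : a ∈ S.erase e := hA haA
  have hXe : insert a X ⊆ S.erase e := by
    intro x hx
    rcases Finset.mem_insert.1 hx with h | h
    · rw [h]; exact haS
    · exact Finset.mem_erase.2 ⟨fun h' => heX (h' ▸ h), Finset.mem_of_mem_erase (hX h)⟩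
  have h1 := hr.fac_split hA hfA hXe
  have e0 : insert a X ∩ A = insert a (X ∩ A) := by
    ext x; simp only [mem_inter, mem_insert]
    constructor
    · rintro ⟨h | h, h'⟩
      · exact Or.inl h
      · exact Or.inr ⟨h, h'⟩
    · rintro (h | h)
      · exact ⟨Or.inl h, h ▸ haA⟩
      · exact ⟨Or.inr h.1, h.2⟩
  have e0' : insert a X \ A = X \ A := by
    ext x; simp only [mem_sdiff, mem_insert]
    constructor
    · rintro ⟨h | h, h'⟩
      · exact absurd (h ▸ haA) h'
      · exact ⟨h, h'⟩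
    · rintro ⟨h, h'⟩; exact ⟨Or.inr h, h'⟩
  rw [e0, e0'] at h1
  have h2 := hr.subadd (insert a (S.erase a \ X)) (X \ A)
  have e1 : (insert a (S.erase a \ X)) ∪ (X \ A) = insert a (S.erase a \ (X ∩ A)) := by
    ext x; simp only [mem_union, mem_inter, mem_sdiff, mem_insert]
    constructor
    · rintro ((h | h) | h)
      · exact Or.inl h
      · exact Or.inr ⟨h.1, fun h' => h.2 h'.1⟩
      · exact Or.inr ⟨hX h.1, fun h' => h.2 h'.2⟩
    · rintro (h | ⟨h, h'⟩)
      · exact Or.inl (Or.inl h)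
      · by_cases hx : x ∈ X
        · exact Or.inr ⟨hx, fun h'' => h' ⟨hx, h''⟩⟩
        · exact Or.inl (Or.inr ⟨h, hx⟩)
  rw [e1] at h2
  have h3 := (hr.con a).subadd (X ∩ A) (S.erase a \ (X ∩ A))
  have e2 : (X ∩ A) ∪ (S.erase a \ (X ∩ A)) = S.erase a :=
    Finset.union_sdiff_of_subset (Finset.inter_subset_left.trans hX)
  rw [e2] at h3
  unfold Fac1 at hfX ⊢
  simp only [con] at hfX h3 ⊢
  linarith

/-- uncrossing: `A` separator of `S / e`, `X` separator of `S \ a` -/
lemma unc_cd (hr : IsRk r) {e a : α} {A X : Finset α} (heS : e ∈ S)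
    (ha : r (S.erase a) = r S)
    (hA : A ⊆ S.erase e) (hfA : Fac1 (con r e) (S.erase e) A) (haA : a ∈ A)
    (hX : X ⊆ S.erase a) (hfX : Fac1 r (S.erase a) X) (heX : e ∉ X) :
    Fac1 r (S.erase a) (X ∩ A) := by
  have heA : e ∉ A := fun h => (Finset.mem_erase.1 (hA h)).1 rfl
  have hae : a ≠ e := fun h => heA (h ▸ haA)
  set Y := S.erase a \ X with hY
  set B := S.erase e \ A with hB
  have h1 := hr.sub X (insert e A)
  have h2 := hr.sub Y (insert e B)
  have e1 : X ∩ insert e A = X ∩ A := by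
    ext x; simp only [mem_inter, mem_insert]
    constructor
    · rintro ⟨h, h' | h'⟩
      · exact absurd (h' ▸ h) heX
      · exact ⟨h, h'⟩
    · rintro ⟨h, h'⟩; exact ⟨h, Or.inr h'⟩
  have heY : e ∈ Y := by
    rw [hY, Finset.mem_sdiff]; exact ⟨Finset.mem_erase.2 ⟨hae.symm, heS⟩, heX⟩
  have e2 : Y ∪ insert e B = S.erase a \ (X ∩ A) := by
    ext x; simp only [hY, hB, mem_union, mem_inter, mem_sdiff, mem_insert]
    constructor
    · rintro (h | h | h)
      · exact ⟨h.1, fun h' => h.2 h'.1⟩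
      · rw [h]; exact ⟨Finset.mem_erase.2 ⟨hae.symm, heS⟩, fun h' => heX h'.1⟩
      · refine ⟨Finset.mem_erase.2 ⟨fun h' => h.2 (h' ▸ haA), Finset.mem_of_mem_erase h.1⟩,
          fun h' => h.2 h'.2⟩
    · rintro ⟨h, h'⟩
      by_cases hx : x ∈ X
      · have hxA : x ∉ A := fun h'' => h' ⟨hx, h''⟩
        exact Or.inr (Or.inr ⟨Finset.mem_erase.2 ⟨fun h'' => heX (h'' ▸ hx),
          Finset.mem_of_mem_erase h⟩, hxA⟩)
      · exact Or.inl ⟨h, hx⟩
  rw [e1] at h1
  rw [e2] at h2
  have h3 := hr.sub (X ∪ insert e A) (Y ∩ insert e B)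
  have e3 : (X ∪ insert e A) ∪ (Y ∩ insert e B) = S := by
    ext x
    simp only [hY, hB, mem_union, mem_inter, mem_sdiff, mem_insert, mem_erase]
    constructor
    · rintro ((h | h | h) | h)
      · exact Finset.mem_of_mem_erase (hX h)
      · rw [h]; exact heS
      · exact Finset.mem_of_mem_erase (hA h)
      · exact h.1.1.2
    · intro hx
      by_cases hxX : x ∈ X
      · exact Or.inl (Or.inl hxX)
      · by_cases hxe : x = e
        · exact Or.inl (Or.inr (Or.inl hxe))
        · by_cases hxA : x ∈ A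
          · exact Or.inl (Or.inr (Or.inr hxA))
          · exact Or.inr ⟨⟨⟨fun h => hxA (h ▸ haA), hx⟩, hxX⟩, Or.inr ⟨⟨hxe, hx⟩, hxA⟩⟩
  have e4 : (X ∪ insert e A) ∩ (Y ∩ insert e B) = {e} := by
    ext x
    simp only [hY, hB, mem_union, mem_inter, mem_sdiff, mem_insert, mem_erase, mem_singleton]
    constructor
    · rintro ⟨h1 | h1 | h1, ⟨h2, h4⟩, h3⟩
      · exact absurd h1 h4
      · exact h1
      · rcases h3 with h3 | h3
        · exact h3
        · exact absurd h1 h3.2
    · intro h; rw [h]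
      exact ⟨Or.inr (Or.inl rfl), ⟨⟨hae.symm, heS⟩, heX⟩, Or.inl rfl⟩
  rw [e3, e4] at h3
  have h4 := hr.subadd (X ∩ A) (S.erase a \ (X ∩ A))
  have e5 : (X ∩ A) ∪ (S.erase a \ (X ∩ A)) = S.erase a :=
    Finset.union_sdiff_of_subset (Finset.inter_subset_left.trans hX)
  rw [e5] at h4
  unfold Fac1 at hfX hfA ⊢
  simp only [con] at hfA
  rw [Finset.insert_erase heS] at hfA
  linarith

/-- uncrossing: `A` separator of `S / e`, `X` separator of `S / a` -/
lemma unc_cc (hr : IsRk r) {e a : α} {A X : Finset α} (heS : e ∈ S)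
    (hA : A ⊆ S.erase e) (hfA : Fac1 (con r e) (S.erase e) A) (haA : a ∈ A)
    (hX : X ⊆ S.erase a) (hfX : Fac1 (con r a) (S.erase a) X) (heX : e ∉ X) :
    Fac1 (con r a) (S.erase a) (X ∩ A) := by
  have heA : e ∉ A := fun h => (Finset.mem_erase.1 (hA h)).1 rfl
  have hae : a ≠ e := fun h => heA (h ▸ haA)
  have haS : a ∈ S := Finset.mem_of_mem_erase (hA haA)
  set Y := S.erase a \ X with hY
  set B := S.erase e \ A with hB
  have haX : a ∉ X := fun h => (Finset.mem_erase.1 (hX h)).1 rfl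
  have h1 := hr.sub (insert a X) (insert e A)
  have h2 := hr.sub (insert a Y) (insert e B)
  have e1 : insert a X ∩ insert e A = insert a (X ∩ A) := by
    ext x; simp only [mem_inter, mem_insert]
    constructor
    · rintro ⟨h | h, h' | h'⟩
      · exact Or.inl h
      · exact Or.inl h
      · exact absurd (h' ▸ h) heX
      · exact Or.inr ⟨h, h'⟩
    · rintro (h | ⟨h, h'⟩)
      · exact ⟨Or.inl h, Or.inr (h ▸ haA)⟩
      · exact ⟨Or.inr h, Or.inr h'⟩
  have e2 : insert a Y ∪ insert e B = insert a (S.erase a \ (X ∩ A)) := by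
    ext x; simp only [hY, hB, mem_union, mem_inter, mem_sdiff, mem_insert]
    constructor
    · rintro ((h | h) | h | h)
      · exact Or.inl h
      · exact Or.inr ⟨h.1, fun h' => h.2 h'.1⟩
      · rw [h]; exact Or.inr ⟨Finset.mem_erase.2 ⟨hae.symm, heS⟩, fun h' => heX h'.1⟩
      · refine Or.inr ⟨Finset.mem_erase.2 ⟨fun h' => h.2 (h' ▸ haA), Finset.mem_of_mem_erase h.1⟩,
          fun h' => h.2 h'.2⟩
    · rintro (h | ⟨h, h'⟩)
      · exact Or.inl (Or.inl h)
      by_cases hx : x ∈ X
      · have hxA : x ∉ A := fun h'' => h' ⟨hx, h''⟩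
        exact Or.inr (Or.inr ⟨Finset.mem_erase.2 ⟨fun h'' => heX (h'' ▸ hx),
          Finset.mem_of_mem_erase h⟩, hxA⟩)
      · exact Or.inl (Or.inr ⟨h, hx⟩)
  rw [e1] at h1
  rw [e2] at h2
  have h3 := hr.sub (insert a X ∪ insert e A) (insert a Y ∩ insert e B)
  have e3 : (insert a X ∪ insert e A) ∪ (insert a Y ∩ insert e B) = S := by
    ext x
    simp only [hY, hB, mem_union, mem_inter, mem_sdiff, mem_insert, mem_erase]
    constructor
    · rintro (((h | h) | h | h) | h)
      · rw [h]; exact haS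
      · exact Finset.mem_of_mem_erase (hX h)
      · rw [h]; exact heS
      · exact Finset.mem_of_mem_erase (hA h)
      · rcases h with ⟨h | h, h'⟩
        · rw [h]; exact haS
        · exact h.1.2
    · intro hx
      by_cases hxX : x ∈ X
      · exact Or.inl (Or.inl (Or.inr hxX))
      · by_cases hxe : x = e
        · exact Or.inl (Or.inr (Or.inl hxe))
        · by_cases hxA : x ∈ A
          · exact Or.inl (Or.inr (Or.inr hxA))
          · exact Or.inr ⟨Or.inr ⟨⟨fun h => hxA (h ▸ haA), hx⟩, hxX⟩, Or.inr ⟨⟨hxe, hx⟩, hxA⟩⟩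
  have e4 : (insert a X ∪ insert e A) ∩ (insert a Y ∩ insert e B) = {e} := by
    ext x
    simp only [hY, hB, mem_union, mem_inter, mem_sdiff, mem_insert, mem_erase, mem_singleton]
    constructor
    · rintro ⟨h1, h2, h3⟩
      rcases h3 with h3 | h3
      · exact h3
      · exfalso
        have hxa : x ≠ a := fun h => h3.2 (h ▸ haA)
        rcases h2 with h2 | h2
        · exact hxa h2
        · rcases h1 with (h1 | h1) | h1 | h1
          · exact hxa h1
          · exact h2.2 h1
          · exact h3.1.1 h1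
          · exact h3.2 h1
    · intro h; rw [h]
      exact ⟨Or.inr (Or.inl rfl), Or.inr ⟨⟨hae.symm, heS⟩, heX⟩, Or.inl rfl⟩
  rw [e3, e4] at h3
  have h4 := (hr.con a).subadd (X ∩ A) (S.erase a \ (X ∩ A))
  have e5 : (X ∩ A) ∪ (S.erase a \ (X ∩ A)) = S.erase a :=
    Finset.union_sdiff_of_subset (Finset.inter_subset_left.trans hX)
  rw [e5] at h4
  unfold Fac1 at hfX hfA ⊢
  simp only [con] at hfA hfX h4 ⊢
  rw [Finset.insert_erase heS] at hfA
  rw [Finset.insert_erase haS] at hfX h4 ⊢
  linarith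

end uncross

end Pool.Agent.Helper496.PT
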