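import Mathlib

open Finset

namespace Pool.Agent.Helper496.PT

variable {α : Type*} [DecidableEq α]

/-- integer-valued matroid rank functions on all finsets of `α` -/
structure IsRk (r : Finset α → ℤ) : Prop where
  empty : r ∅ = 0
  mono : ∀ {X Y : Finset α}, X ⊆ Y → r X ≤ r Y
  unit : ∀ X e, r (insert e X) ≤ r X + 1
  sub : ∀ X Y, r (X ∪ Y) + r (X ∩ Y) ≤ r X + r Y

/-- `r → q` is a perspective -/
def Persp (r q : Finset α → ℤ) : Prop := ∀ X Y : Finset α, X ⊆ Y → q Y - q X ≤ r Y - r X

def con (r : Finset α → ℤ) (e : α) (X : Finset α) : ℤ := r (insert e X) - r {e}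

def sg (n : ℤ) : ℤ := (n.negOnePow : ℤ)

def f (r q : Finset α → ℤ) (S : Finset α) : ℤ :=
  ∑ X ∈ S.powerset, sg (q S - q X + X.card - r X)

def Fac1 (r : Finset α → ℤ) (S A : Finset α) : Prop := r A + r (S \ A) = r S

def Fac (r q : Finset α → ℤ) (S A : Finset α) : Prop := A ⊆ S ∧ Fac1 r S A ∧ Fac1 q S A

def Conn (r q : Finset α → ℤ) (S : Finset α) : Prop := ∀ A, Fac r q S A → A = ∅ ∨ A = S

def Deg (r q : Finset α → ℤ) (S : Finset α) : Prop := ∃ A, Fac r q S A ∧ A.Nonempty ∧ r A = q A

lemma sg_add_one (n : ℤ) : sg (n + 1) = - sg n := by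
  simp [sg, Int.negOnePow_add]

lemma sg_add (m n : ℤ) : sg (m + n) = sg m * sg n := by
  simp [sg, Int.negOnePow_add]

lemma sg_zero : sg 0 = 1 := by simp [sg]

namespace IsRk

variable {r q : Finset α → ℤ}

lemma nonneg (h : IsRk r) (X : Finset α) : 0 ≤ r X := by
  have := h.mono (Finset.empty_subset X)
  rw [h.empty] at this; exact this

lemma subadd (h : IsRk r) (X Y : Finset α) : r (X ∪ Y) ≤ r X + r Y := by
  have := h.sub X Y
  have := h.nonneg (X ∩ Y)
  linarith

lemma sing_le (h : IsRk r) (e : α) : r {e} ≤ 1 := by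
  have := h.unit ∅ e
  rw [h.empty] at this
  simpa using this

lemma ins_le (h : IsRk r) (X : Finset α) (e : α) : r (insert e X) ≤ r X + r {e} := by
  have := h.subadd X {e}
  rwa [Finset.union_comm, ← Finset.insert_eq] at this

/-- marginal values decrease -/
lemma marg (h : IsRk r) {X Y : Finset α} (hXY : X ⊆ Y) (e : α) :
    r (insert e Y) - r Y ≤ r (insert e X) - r X := by
  by_cases he : e ∈ Y
  · rw [Finset.insert_eq_of_mem he]
    have := h.mono (Finset.subset_insert e X)
    linarith
  · have := h.sub (insert e X) Y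
    have e1 : insert e X ∪ Y = insert e Y := by
      ext x; simp only [mem_union, mem_insert]
      constructor
      · rintro ((h1 | h1) | h1)
        · exact Or.inl h1
        · exact Or.inr (hXY h1)
        · exact Or.inr h1
      · rintro (h1 | h1)
        · exact Or.inl (Or.inl h1)
        · exact Or.inr h1
    have e2 : insert e X ∩ Y = X := by
      ext x; simp only [mem_inter, mem_insert]
      constructor
      · rintro ⟨(h1 | h1), h2⟩
        · exact absurd (h1 ▸ h2) he
        · exact h1
      · intro h1; exact ⟨Or.inr h1, hXY h1⟩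
    rw [e1, e2] at this
    linarith

lemma con (h : IsRk r) (e : α) : IsRk (con r e) where
  empty := by simp [PT.con]
  mono := by
    intro X Y hXY
    have := h.mono (Finset.insert_subset_insert e hXY)
    simp only [PT.con]; linarith
  unit := by
    intro X a
    have := h.unit (insert e X) a
    simp only [PT.con]
    rw [Finset.insert_comm]; linarith
  sub := by
    intro X Y
    have := h.sub (insert e X) (insert e Y)
    simp only [PT.con]
    have e1 : insert e X ∪ insert e Y = insert e (X ∪ Y) := by
      ext x; simp only [mem_union, mem_insert]; tauto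
    have e2 : insert e X ∩ insert e Y = insert e (X ∩ Y) := by
      ext x; simp only [mem_inter, mem_insert]; tauto
    rw [e1, e2] at this
    linarith

/-- additivity over a separator -/
lemma fac_add (h : IsRk r) {S A : Finset α} (hA : A ⊆ S) (hf : Fac1 r S A)
    {X Y : Finset α} (hX : X ⊆ A) (hY : Y ⊆ S \ A) : r (X ∪ Y) = r X + r Y := by
  apply le_antisymm (h.subadd X Y)
  unfold Fac1 at hf
  have hYA : ∀ y ∈ Y, y ∉ A := fun y hy => (Finset.mem_sdiff.1 (hY hy)).2
  have hYS : ∀ y ∈ Y, y ∈ S := fun y hy => (Finset.mem_sdiff.1 (hY hy)).1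
  have h1 := h.sub (X ∪ Y) A
  have e1 : (X ∪ Y) ∪ A = A ∪ Y := by
    ext x; simp only [mem_union]
    constructor
    · rintro ((h1 | h1) | h1)
      · exact Or.inl (hX h1)
      · exact Or.inr h1
      · exact Or.inl h1
    · rintro (h1 | h1)
      · exact Or.inr h1
      · exact Or.inl (Or.inr h1)
  have e2 : (X ∪ Y) ∩ A = X := by
    ext x; simp only [mem_union, mem_inter]
    constructor
    · rintro ⟨(h1 | h1), h2⟩
      · exact h1
      · exact absurd h2 (hYA _ h1)
    · intro h1; exact ⟨Or.inl h1, hX h1⟩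
  rw [e1, e2] at h1
  have h2 := h.sub (A ∪ Y) (S \ A)
  have e3 : (A ∪ Y) ∪ (S \ A) = S := by
    ext x; simp only [mem_union, mem_sdiff]
    constructor
    · rintro ((h1 | h1) | h1)
      · exact hA h1
      · exact hYS _ h1
      · exact h1.1
    · intro h1
      by_cases hx : x ∈ A
      · exact Or.inl (Or.inl hx)
      · exact Or.inr ⟨h1, hx⟩
  have e4 : (A ∪ Y) ∩ (S \ A) = Y := by
    ext x; simp only [mem_union, mem_inter, mem_sdiff]
    constructor
    · rintro ⟨(h1 | h1), h2⟩
      · exact absurd h1 h2.2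
      · exact h1
    · intro h1; exact ⟨Or.inr h1, hYS _ h1, hYA _ h1⟩
  rw [e3, e4] at h2
  linarith

/-- restriction of a separator to a subset of the form `X = (X∩A) ∪ (X\A)` -/
lemma fac_split (h : IsRk r) {S A : Finset α} (hA : A ⊆ S) (hf : Fac1 r S A)
    {X : Finset α} (hX : X ⊆ S) : r X = r (X ∩ A) + r (X \ A) := by
  rw [← h.fac_add hA hf (Finset.inter_subset_right) (Finset.sdiff_subset_sdiff hX (le_refl A))]
  congr 1
  ext x; simp only [mem_union, mem_inter, mem_sdiff]; tauto

end IsRk

lemma Persp.con {r q : Finset α → ℤ} (h : Persp r q) (e : α) : Persp (con r e) (con q e) := by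
  intro X Y hXY
  have := h _ _ (Finset.insert_subset_insert e hXY)
  simp only [PT.con]; linarith

lemma Persp.d_nonneg {r q : Finset α → ℤ} (h : Persp r q) (hr : IsRk r) (hq : IsRk q)
    (X : Finset α) : q X ≤ r X := by
  have := h ∅ X (Finset.empty_subset X)
  rw [hr.empty, hq.empty] at this
  linarith

lemma Persp.d_mono {r q : Finset α → ℤ} (h : Persp r q) {X Y : Finset α} (hXY : X ⊆ Y) :
    r X - q X ≤ r Y - q Y := by
  have := h X Y hXY
  linarith

/-- deletion–contraction -/
lemma f_rec {r q : Finset α → ℤ} {S : Finset α} {e : α} (he : e ∈ S)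
    (h1 : r {e} = 1) (h2 : q (S.erase e) = q S) :
    f r q S = f r q (S.erase e) + f (con r e) (con q e) (S.erase e) := by
  have hS : insert e (S.erase e) = S := Finset.insert_erase he
  have hne : e ∉ S.erase e := Finset.notMem_erase e S
  unfold f
  conv_lhs => rw [← hS]
  rw [Finset.sum_powerset_insert hne]
  congr 1
  · apply Finset.sum_congr rfl
    intro X hX
    rw [hS, h2]
  · apply Finset.sum_congr rfl
    intro X hX
    have hX' := Finset.mem_powerset.1 hX
    have : e ∉ X := fun h => hne (hX' h)
    rw [Finset.card_insert_of_notMem this]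
    congr 1
    simp only [con]
    rw [h1]; push_cast; ring

lemma f_loop {r q : Finset α → ℤ} (hr : IsRk r) (hq : IsRk q) (hp : Persp r q)
    {S : Finset α} {e : α} (he : e ∈ S) (h1 : r {e} = 0) : f r q S = 0 := by
  have h1' : q {e} = 0 := by
    have := hp.d_nonneg hr hq {e}
    have := hq.nonneg {e}
    linarith
  have hS : insert e (S.erase e) = S := Finset.insert_erase he
  have hne : e ∉ S.erase e := Finset.notMem_erase e S
  unfold f
  conv_lhs => rw [← hS]
  rw [Finset.sum_powerset_insert hne, ← Finset.sum_add_distrib]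
  apply Finset.sum_eq_zero
  intro X hX
  have hX' := Finset.mem_powerset.1 hX
  have : e ∉ X := fun h => hne (hX' h)
  rw [Finset.card_insert_of_notMem this]
  have a1 := hr.ins_le X e
  have a2 := hq.ins_le X e
  have a3 := hr.mono (Finset.subset_insert e X)
  have a4 := hq.mono (Finset.subset_insert e X)
  have b1 : r (insert e X) = r X := by linarith
  have b2 : q (insert e X) = q X := by linarith
  rw [b1, b2]
  have : (q (insert e (S.erase e)) - q X + ((X.card + 1 : ℕ) : ℤ) - r X)
      = (q (insert e (S.erase e)) - q X + (X.card : ℤ) - r X) + 1 := by push_cast; ring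
  rw [this, sg_add_one]; ring

lemma f_coloop {r q : Finset α → ℤ} (hr : IsRk r) (hq : IsRk q) (hp : Persp r q)
    {S : Finset α} {e : α} (he : e ∈ S) (h1 : q (S.erase e) < q S) : f r q S = 0 := by
  have hS : insert e (S.erase e) = S := Finset.insert_erase he
  have hne : e ∉ S.erase e := Finset.notMem_erase e S
  unfold f
  conv_lhs => rw [← hS]
  rw [Finset.sum_powerset_insert hne, ← Finset.sum_add_distrib]
  apply Finset.sum_eq_zero
  intro X hX
  have hX' := Finset.mem_powerset.1 hX
  have : e ∉ X := fun h => hne (hX' h)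
  rw [Finset.card_insert_of_notMem this]
  have a1 := hq.marg hX' e
  rw [hS] at a1
  have a2 := hq.unit X e
  have a3 := hr.unit X e
  have a4 := hp X (insert e X) (Finset.subset_insert e X)
  have b1 : r (insert e X) = r X + 1 := by linarith
  have b2 : q (insert e X) = q X + 1 := by linarith
  rw [b1, b2]
  have : (q (insert e (S.erase e)) - q X + (X.card : ℤ) - r X)
      = (q (insert e (S.erase e)) - (q X + 1) + ((X.card + 1 : ℕ) : ℤ) - (r X + 1)) + 1 := by
    push_cast; ring
  rw [this, sg_add_one]; ring

lemma f_empty {r q : Finset α → ℤ} (hr : IsRk r) : f r q ∅ = 1 := by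
  simp [f, hr.empty, sg_zero]

/-- product formula -/
lemma f_prod {r q : Finset α → ℤ} (hr : IsRk r) (hq : IsRk q)
    {S A : Finset α} (hA : Fac r q S A) : f r q S = f r q A * f r q (S \ A) := by
  obtain ⟨hAS, h1, h2⟩ := hA
  unfold f
  rw [Finset.sum_mul_sum, ← Finset.sum_product']
  refine Finset.sum_nbij' (fun X => (X ∩ A, X \ A)) (fun p => p.1 ∪ p.2) ?_ ?_ ?_ ?_ ?_
  · intro X hX
    rw [Finset.mem_powerset] at hX
    simp only [Finset.mem_product, Finset.mem_powerset]
    exact ⟨Finset.inter_subset_right, Finset.sdiff_subset_sdiff hX (le_refl A)⟩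
  · intro p hp
    simp only [Finset.mem_product, Finset.mem_powerset] at hp ⊢
    exact Finset.union_subset (hp.1.trans hAS) (hp.2.trans Finset.sdiff_subset)
  · intro X hX
    ext x; simp only [mem_union, mem_inter, mem_sdiff]; tauto
  · intro p hp
    simp only [Finset.mem_product, Finset.mem_powerset] at hp
    obtain ⟨hp1, hp2⟩ := hp
    have hd : ∀ x ∈ p.2, x ∉ A := fun x hx => (Finset.mem_sdiff.1 (hp2 hx)).2
    ext x
    · simp only [mem_union, mem_inter]
      constructor
      · rintro ⟨(h | h), h'⟩
        · exact h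
        · exact absurd h' (hd _ h)
      · intro h; exact ⟨Or.inl h, hp1 h⟩
    · simp only [mem_union, mem_sdiff]
      constructor
      · rintro ⟨(h | h), h'⟩
        · exact absurd (hp1 h) h'
        · exact h
      · intro h; exact ⟨Or.inr h, hd _ h⟩
  · intro X hX
    rw [Finset.mem_powerset] at hX
    rw [← sg_add]
    congr 1
    rw [hr.fac_split hAS h1 hX, hq.fac_split hAS h2 hX, ← h2]
    have : (X.card : ℤ) = ((X ∩ A).card : ℤ) + ((X \ A).card : ℤ) := by
      rw [← Nat.cast_add, Finset.card_inter_add_card_sdiff]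
    rw [this]; ring

end Pool.Agent.Helper496.PT
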