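import Pool.Agent.Helper496.PtML

open Finset

namespace Pool.Agent.Helper496.PT

variable {α : Type*} [DecidableEq α] {r q : Finset α → ℤ} {S : Finset α}

lemma step (hr : IsRk r) (hq : IsRk q) (hp : Persp r q) (hc : Conn r q S) (h2 : 2 ≤ S.card)
    (hk : q S < r S) {e a : α} {A : Finset α} (hA : A ⊆ S.erase e) (haA : a ∈ A)
    (haT : TypeI r q S a) (hd : ∀ Z ⊆ A, r Z = q Z)
    (hun : ∀ X ⊆ S.erase a, e ∉ X → Fac r q (S.erase a) X → Fac r q (S.erase a) (X ∩ A))
    (hun' : ∀ X ⊆ S.erase a, e ∉ X → Fac (con r a) (con q a) (S.erase a) X →
      Fac (con r a) (con q a) (S.erase a) (X ∩ A))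
    (hne : ∀ X ⊆ S.erase a, e ∉ X → Fac r q (S.erase a) X → X ∩ A = ∅ → X = ∅)
    (hne' : ∀ X ⊆ S.erase a, e ∉ X → Fac (con r a) (con q a) (S.erase a) X →
      X ∩ A = ∅ → X = ∅) :
    (¬ Deg r q (S.erase a) ∧ ¬ Deg (con r a) (con q a) (S.erase a)) ∨
      ∃ A', A'.card < A.card ∧ (DelDeg r q S a A' ∨ ConDeg r q S a A') := by
  have haS : a ∈ S := haT.1
  have hra : r {a} = 1 := hc.nonloop hr hq hp h2 haS
  have hqa : q {a} = 1 := haT.2.2
  have hqS : q (S.erase a) = q S := hc.noncoloop hr hq hp h2 haS
  have hcard : ∀ X : Finset α, X ⊆ S.erase a → (X ∩ A).card < A.card := by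
    intro X hX
    apply Finset.card_lt_card
    refine ⟨Finset.inter_subset_right, fun h => ?_⟩
    have := Finset.mem_inter.1 (h haA)
    exact (Finset.mem_erase.1 (hX this.1)).1 rfl
  by_cases hD : Deg r q (S.erase a)
  · right
    obtain ⟨D, hDF, hDn, hDd⟩ := hD
    have hX : ∃ X, X ⊆ S.erase a ∧ e ∉ X ∧ Fac r q (S.erase a) X ∧ X.Nonempty := by
      by_cases heD : e ∈ D
      · refine ⟨S.erase a \ D, Finset.sdiff_subset, fun h => (Finset.mem_sdiff.1 h).2 heD,
          hDF.symm, ?_⟩
        rw [Finset.nonempty_iff_ne_empty]
        intro h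
        have : S.erase a ⊆ D := Finset.sdiff_eq_empty_iff_subset.1 h
        have : D = S.erase a := le_antisymm hDF.1 this
        rw [this, hqS, haT.2.1] at hDd
        linarith
      · exact ⟨D, hDF.1, heD, hDF, hDn⟩
    obtain ⟨X, hXs, heX, hXF, hXn⟩ := hX
    refine ⟨X ∩ A, hcard X hXs, Or.inl ⟨hun X hXs heX hXF, ?_, hd _ Finset.inter_subset_right⟩⟩
    rw [Finset.nonempty_iff_ne_empty]
    intro h
    exact hXn.ne_empty (hne X hXs heX hXF h)
  · by_cases hC : Deg (con r a) (con q a) (S.erase a)
    · right
      obtain ⟨D, hDF, hDn, hDd⟩ := hC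
      have hX : ∃ X, X ⊆ S.erase a ∧ e ∉ X ∧ Fac (con r a) (con q a) (S.erase a) X ∧
          X.Nonempty := by
        by_cases heD : e ∈ D
        · refine ⟨S.erase a \ D, Finset.sdiff_subset, fun h => (Finset.mem_sdiff.1 h).2 heD,
            hDF.symm, ?_⟩
          rw [Finset.nonempty_iff_ne_empty]
          intro h
          have : S.erase a ⊆ D := Finset.sdiff_eq_empty_iff_subset.1 h
          have : D = S.erase a := le_antisymm hDF.1 this
          rw [this] at hDd
          simp only [con] at hDd
          rw [Finset.insert_erase haS] at hDd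
          linarith
        · exact ⟨D, hDF.1, heD, hDF, hDn⟩
      obtain ⟨X, hXs, heX, hXF, hXn⟩ := hX
      refine ⟨X ∩ A, hcard X hXs, Or.inr ⟨hun' X hXs heX hXF, ?_, ?_⟩⟩
      · rw [Finset.nonempty_iff_ne_empty]
        intro h
        exact hXn.ne_empty (hne' X hXs heX hXF h)
      · simp only [con]
        rw [hd (insert a (X ∩ A)) (Finset.insert_subset haA Finset.inter_subset_right), hra, hqa]
    · exact Or.inl ⟨hD, hC⟩

lemma ins_eq_of_le (hr : IsRk r) {a : α} {Z W : Finset α} (hZW : Z ⊆ W)
    (h : r (insert a Z) ≤ r Z) : r (insert a W) = r W := by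
  have h1 := hr.marg hZW a
  have h2 := hr.mono (Finset.subset_insert a W)
  linarith

lemma sdiff_ins {a : α} {X : Finset α} (haS : a ∈ S) (hX : X ⊆ S.erase a) :
    S \ X = insert a (S.erase a \ X) := by
  have haX : a ∉ X := fun h => (Finset.mem_erase.1 (hX h)).1 rfl
  ext x
  simp only [mem_sdiff, mem_insert, mem_erase]
  constructor
  · rintro ⟨h, h'⟩
    by_cases hx : x = a
    · exact Or.inl hx
    · exact Or.inr ⟨⟨hx, h⟩, h'⟩
  · rintro (h | h)
    · rw [h]; exact ⟨haS, haX⟩
    · exact ⟨h.1.2, h.2⟩

lemma ML (hr : IsRk r) (hq : IsRk q) (hp : Persp r q) (hc : Conn r q S) (h2 : 2 ≤ S.card)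
    (hk : q S < r S) :
    ∀ n, ∀ e A, A.card = n → TypeI r q S e → (DelDeg r q S e A ∨ ConDeg r q S e A) →
      (∃ e, TypeI r q S e ∧ ¬ Deg r q (S.erase e) ∧ ¬ Deg (con r e) (con q e) (S.erase e)) ∨
      (∃ a ∈ S, ∃ e ∈ S, a ≠ e ∧ r {a, e} = 1) ∨
      (∃ a ∈ S, ∃ e ∈ S, a ≠ e ∧ q ((S.erase e).erase a) < q S) := by
  intro n
  induction n using Nat.strong_induction_on with
  | _ n ih =>
    intro e A hAn heT hdeg
    have hnl : ∀ x ∈ S, r {x} = 1 := fun x hx => hc.nonloop hr hq hp h2 hx
    have hnc : ∀ x ∈ S, q (S.erase x) = q S := fun x hx => hc.noncoloop hr hq hp h2 hx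
    have heS := heT.1
    rcases hdeg with ⟨hF, hAne, hAd⟩ | ⟨hF, hAne, hAd⟩
    · -- deletion type
      have hA := hF.1
      have hd : ∀ Z ⊆ A, r Z = q Z := by
        intro Z hZ
        have h1 := hp.d_mono hZ
        have h2 := hp.d_nonneg hr hq Z
        linarith
      have heA : e ∉ A := fun h => (Finset.mem_erase.1 (hA h)).1 rfl
      obtain ⟨a, haA⟩ := hAne
      have haS : a ∈ S := Finset.mem_of_mem_erase (hA haA)
      have hae : a ≠ e := fun h => heA (h ▸ haA)
      have hqa : q {a} = 1 := by
        rw [← hd {a} (Finset.singleton_subset_iff.2 haA)]; exact hnl a haS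
      by_cases hcl : r (A.erase a) = r A
      · -- a in closure of A - a
        have hcq : q (A.erase a) = q A := by
          rw [← hd _ (Finset.erase_subset a A), hcl, hAd]
        have hins : insert a (A.erase a) = A := Finset.insert_erase haA
        have hclr : ∀ W, A.erase a ⊆ W → r (insert a W) = r W := fun W hW =>
          ins_eq_of_le hr hW (by rw [hins, hcl])
        have hclq : ∀ W, A.erase a ⊆ W → q (insert a W) = q W := fun W hW =>
          ins_eq_of_le hq hW (by rw [hins, hcq])
        have haT : TypeI r q S a := by
          refine ⟨haS, ?_, hqa⟩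
          have := hclr (S.erase a) (Finset.erase_subset_erase a (hA.trans (Finset.erase_subset e S)))
          rw [Finset.insert_erase haS] at this
          exact this.symm
        have hsub : ∀ X, X ⊆ S.erase a → X ∩ A = ∅ → A.erase a ⊆ S.erase a \ X := by
          intro X hX hXA x hx
          have hxA := Finset.mem_of_mem_erase hx
          refine Finset.mem_sdiff.2 ⟨Finset.mem_erase.2 ⟨(Finset.mem_erase.1 hx).1,
            Finset.mem_of_mem_erase (hA hxA)⟩, fun hxX => ?_⟩
          have : x ∈ X ∩ A := Finset.mem_inter.2 ⟨hxX, hxA⟩
          rw [hXA] at this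
          exact absurd this (Finset.notMem_empty x)
        have hfin : ∀ X, X ⊆ S.erase a → Fac r q S X → X = ∅ := by
          intro X hX hXF
          rcases hc X hXF with h | h
          · exact h
          · exfalso
            have : a ∈ X := by rw [h]; exact haS
            exact (Finset.mem_erase.1 (hX this)).1 rfl
        have hst := step hr hq hp hc h2 hk hA haA haT hd
          (fun X hX heX hXF => ⟨Finset.inter_subset_left.trans hX,
            unc_dd hr heT.2.1 haT.2.1 hA hF.2.1 haA hX hXF.2.1 heX,
            unc_dd hq (hnc e heS) (hnc a haS) hA hF.2.2 haA hX hXF.2.2 heX⟩)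
          (fun X hX heX hXF => ⟨Finset.inter_subset_left.trans hX,
            unc_dc hr hA hF.2.1 haA hX hXF.2.1 heX, unc_dc hq hA hF.2.2 haA hX hXF.2.2 heX⟩)
          (fun X hX heX hXF hXA => hfin X hX ⟨hX.trans (Finset.erase_subset a S), by
              have h1 := hXF.2.1
              unfold Fac1 at h1 ⊢
              rw [sdiff_ins haS hX, hclr _ (hsub X hX hXA), h1, haT.2.1], by
              have h1 := hXF.2.2
              unfold Fac1 at h1 ⊢
              rw [sdiff_ins haS hX, hclq _ (hsub X hX hXA), h1, hnc a haS]⟩)
          (fun X hX heX hXF hXA => by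
            have hXB : X ⊆ S.erase e \ A := by
              intro x hx
              refine Finset.mem_sdiff.2 ⟨Finset.mem_erase.2 ⟨fun h => heX (h ▸ hx),
                Finset.mem_of_mem_erase (hX hx)⟩, fun hxA => ?_⟩
              have : x ∈ X ∩ A := Finset.mem_inter.2 ⟨hx, hxA⟩
              rw [hXA] at this
              exact absurd this (Finset.notMem_empty x)
            have h3 := hr.fac_add hA hF.2.1 (Finset.singleton_subset_iff.2 haA) hXB
            have h4 := hq.fac_add hA hF.2.2 (Finset.singleton_subset_iff.2 haA) hXB
            rw [← Finset.insert_eq] at h3 h4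
            refine hfin X hX ⟨hX.trans (Finset.erase_subset a S), ?_, ?_⟩
            · have h1 := hXF.2.1
              unfold Fac1 at h1 ⊢
              simp only [con] at h1
              rw [Finset.insert_erase haS] at h1
              rw [sdiff_ins haS hX]
              linarith
            · have h1 := hXF.2.2
              unfold Fac1 at h1 ⊢
              simp only [con] at h1
              rw [Finset.insert_erase haS] at h1
              rw [sdiff_ins haS hX]
              linarith)
        rcases hst with hst | ⟨A', hA'c, hA'⟩
        · exact Or.inl ⟨a, haT, hst.1, hst.2⟩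
        · exact ih A'.card (by omega) a A' rfl haT hA'
      · -- {a} is a factor of S \ e
        right; right
        refine ⟨a, haS, e, heS, hae, ?_⟩
        have h1 := hr.mono (Finset.erase_subset a A)
        have h3 : q (A.erase a) < q A := by
          rw [← hd _ (Finset.erase_subset a A), ← hAd]
          exact lt_of_le_of_ne h1 hcl
        have h4 := hq.fac_add hA hF.2.2 (Finset.erase_subset a A) (le_refl (S.erase e \ A))
        have e1 : A.erase a ∪ (S.erase e \ A) = (S.erase e).erase a := by
          ext x
          simp only [mem_union, mem_erase, mem_sdiff]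
          constructor
          · rintro (h | h)
            · exact ⟨h.1, fun h' => heA (h' ▸ h.2), Finset.mem_of_mem_erase (hA h.2)⟩
            · exact ⟨fun h' => h.2 (h' ▸ haA), h.1⟩
          · rintro ⟨h, h'⟩
            by_cases hx : x ∈ A
            · exact Or.inl ⟨h, hx⟩
            · exact Or.inr ⟨h', hx⟩
        rw [e1] at h4
        have h5 := hF.2.2
        unfold Fac1 at h5
        rw [hnc e heS] at h5
        linarith
    · -- contraction type
      have hA := hF.1
      have hre := hnl e heS
      have hqe := heT.2.2
      have hdA : r (insert e A) = q (insert e A) := by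
        simp only [con] at hAd
        linarith
      have hd' : ∀ Z ⊆ insert e A, r Z = q Z := by
        intro Z hZ
        have h1 := hp.d_mono hZ
        have h2 := hp.d_nonneg hr hq Z
        linarith
      have hd : ∀ Z ⊆ A, r Z = q Z := fun Z hZ => hd' Z (hZ.trans (Finset.subset_insert e A))
      have heA : e ∉ A := fun h => (Finset.mem_erase.1 (hA h)).1 rfl
      obtain ⟨a, haA⟩ := hAne
      have haS : a ∈ S := Finset.mem_of_mem_erase (hA haA)
      have hae : a ≠ e := fun h => heA (h ▸ haA)
      have hqa : q {a} = 1 := by
        rw [← hd {a} (Finset.singleton_subset_iff.2 haA)]; exact hnl a haS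
      by_cases hpar : r {a, e} = 1
      · exact Or.inr (Or.inl ⟨a, haS, e, heS, hae, hpar⟩)
      have hpar2 : r (insert e {a}) = 2 := by
        have h1 := hr.unit {e} a
        have h2 := hr.mono (show ({e} : Finset α) ⊆ insert a {e} from Finset.subset_insert _ _)
        have e1 : insert e ({a} : Finset α) = insert a {e} := by
          ext x; simp only [mem_insert, mem_singleton]; tauto
        rw [e1]
        have e2 : r (insert a {e}) ≠ 1 := hpar
        rw [hre] at h1 h2
        omega
      have hparq : q (insert e {a}) = 2 := by
        rw [← hd' (insert e {a}) (Finset.insert_subset_insert e (Finset.singleton_subset_iff.2 haA)),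
          hpar2]
      -- a in the closure of A - a + e
      have hcl : r (insert e (A.erase a)) = r (insert e A) := by
        by_contra hne
        have h1 := hr.mono (Finset.insert_subset_insert e (Finset.erase_subset a A))
        have h3 : q (insert e (A.erase a)) < q (insert e A) := by
          rw [← hd' _ (Finset.insert_subset_insert e (Finset.erase_subset a A)), ← hdA]
          exact lt_of_le_of_ne h1 hne
        have h4 := (hq.con e).fac_add hA hF.2.2 (Finset.erase_subset a A)
          (le_refl (S.erase e \ A))
        have e1 : A.erase a ∪ (S.erase e \ A) = (S.erase e).erase a := by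
          ext x
          simp only [mem_union, mem_erase, mem_sdiff]
          constructor
          · rintro (h | h)
            · exact ⟨h.1, fun h' => heA (h' ▸ h.2), Finset.mem_of_mem_erase (hA h.2)⟩
            · exact ⟨fun h' => h.2 (h' ▸ haA), h.1⟩
          · rintro ⟨h, h'⟩
            by_cases hx : x ∈ A
            · exact Or.inl ⟨h, hx⟩
            · exact Or.inr ⟨h', hx⟩
        rw [e1] at h4
        have e2 : insert e ((S.erase e).erase a) = S.erase a := by
          ext x
          simp only [mem_insert, mem_erase]
          constructor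
          · rintro (h | h)
            · rw [h]; exact ⟨hae.symm, heS⟩
            · exact ⟨h.1, h.2.2⟩
          · rintro ⟨h, h'⟩
            by_cases hx : x = e
            · exact Or.inl hx
            · exact Or.inr ⟨h, hx, h'⟩
        have h5 := hF.2.2
        unfold Fac1 at h5
        simp only [con] at h4 h5
        rw [Finset.insert_erase heS] at h5
        rw [e2, hnc a haS] at h4
        linarith
      have hcq : q (insert e (A.erase a)) = q (insert e A) := by
        rw [← hd' _ (Finset.insert_subset_insert e (Finset.erase_subset a A)), hcl, hdA]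
      have hins : insert a (insert e (A.erase a)) = insert e A := by
        rw [Finset.insert_comm, Finset.insert_erase haA]
      have hclr : ∀ W, insert e (A.erase a) ⊆ W → r (insert a W) = r W := fun W hW =>
        ins_eq_of_le hr hW (by rw [hins, hcl])
      have hclq : ∀ W, insert e (A.erase a) ⊆ W → q (insert a W) = q W := fun W hW =>
        ins_eq_of_le hq hW (by rw [hins, hcq])
      have hsubS : insert e (A.erase a) ⊆ S.erase a := by
        intro x hx
        rcases Finset.mem_insert.1 hx with h | h
        · rw [h]; exact Finset.mem_erase.2 ⟨hae.symm, heS⟩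
        · exact Finset.mem_erase.2 ⟨(Finset.mem_erase.1 h).1,
            Finset.mem_of_mem_erase (hA (Finset.mem_of_mem_erase h))⟩
      have haT : TypeI r q S a := by
        refine ⟨haS, ?_, hqa⟩
        have := hclr (S.erase a) hsubS
        rw [Finset.insert_erase haS] at this
        exact this.symm
      have hsub : ∀ X, X ⊆ S.erase a → e ∉ X → X ∩ A = ∅ →
          insert e (A.erase a) ⊆ S.erase a \ X := by
        intro X hX heX hXA x hx
        refine Finset.mem_sdiff.2 ⟨hsubS hx, fun hxX => ?_⟩
        rcases Finset.mem_insert.1 hx with h | h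
        · exact heX (h ▸ hxX)
        · have : x ∈ X ∩ A := Finset.mem_inter.2 ⟨hxX, Finset.mem_of_mem_erase h⟩
          rw [hXA] at this
          exact absurd this (Finset.notMem_empty x)
      have hfin : ∀ X, X ⊆ S.erase a → Fac r q S X → X = ∅ := by
        intro X hX hXF
        rcases hc X hXF with h | h
        · exact h
        · exfalso
          have : a ∈ X := by rw [h]; exact haS
          exact (Finset.mem_erase.1 (hX this)).1 rfl
      have hst := step hr hq hp hc h2 hk hA haA haT hd
          (fun X hX heX hXF => ⟨Finset.inter_subset_left.trans hX,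
            unc_cd hr heS haT.2.1 hA hF.2.1 haA hX hXF.2.1 heX,
            unc_cd hq heS (hnc a haS) hA hF.2.2 haA hX hXF.2.2 heX⟩)
          (fun X hX heX hXF => ⟨Finset.inter_subset_left.trans hX,
            unc_cc hr heS hA hF.2.1 haA hX hXF.2.1 heX,
            unc_cc hq heS hA hF.2.2 haA hX hXF.2.2 heX⟩)
          (fun X hX heX hXF hXA => hfin X hX ⟨hX.trans (Finset.erase_subset a S), by
              have h1 := hXF.2.1
              unfold Fac1 at h1 ⊢
              rw [sdiff_ins haS hX, hclr _ (hsub X hX heX hXA), h1, haT.2.1], by
              have h1 := hXF.2.2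
              unfold Fac1 at h1 ⊢
              rw [sdiff_ins haS hX, hclq _ (hsub X hX heX hXA), h1, hnc a haS]⟩)
          (fun X hX heX hXF hXA => by
            have hXB : X ⊆ S.erase e \ A := by
              intro x hx
              refine Finset.mem_sdiff.2 ⟨Finset.mem_erase.2 ⟨fun h => heX (h ▸ hx),
                Finset.mem_of_mem_erase (hX hx)⟩, fun hxA => ?_⟩
              have : x ∈ X ∩ A := Finset.mem_inter.2 ⟨hx, hxA⟩
              rw [hXA] at this
              exact absurd this (Finset.notMem_empty x)
            have h3 := (hr.con e).fac_add hA hF.2.1 (Finset.singleton_subset_iff.2 haA) hXB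
            have h4 := (hq.con e).fac_add hA hF.2.2 (Finset.singleton_subset_iff.2 haA) hXB
            rw [← Finset.insert_eq] at h3 h4
            simp only [con] at h3 h4
            rw [Finset.insert_comm] at h3 h4
            have h5 := hr.marg (Finset.subset_insert e X) a
            have h6 := hq.marg (Finset.subset_insert e X) a
            have h7 := hr.unit X a
            have h8 := hq.unit X a
            refine hfin X hX ⟨hX.trans (Finset.erase_subset a S), ?_, ?_⟩
            · have h1 := hXF.2.1
              unfold Fac1 at h1 ⊢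
              simp only [con] at h1
              rw [Finset.insert_erase haS] at h1
              rw [sdiff_ins haS hX]
              rw [hnl a haS] at h1
              linarith
            · have h1 := hXF.2.2
              unfold Fac1 at h1 ⊢
              simp only [con] at h1
              rw [Finset.insert_erase haS] at h1
              rw [sdiff_ins haS hX]
              rw [hqa] at h1
              linarith)
      rcases hst with hst | ⟨A', hA'c, hA'⟩
      · exact Or.inl ⟨a, haT, hst.1, hst.2⟩
      · exact ih A'.card (by omega) a A' rfl haT hA'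

end Pool.Agent.Helper496.PT
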